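import Pool.Agent.H65.CE.Defs

/-!
# Soundness of the check `cov` (job J4a, helper29)
-/

set_option autoImplicit false

namespace Pool.Agent.H65.CE

namespace CovAux

/-! ### Linear forms -/

theorem ev_fadd (k : ℕ) (f g : F) : ev k (fadd f g) = ev k f + ev k g := by
  unfold ev fadd
  push_cast
  ring

theorem ev_fs (k : ℕ) (f : F) (n : ℕ) : ev k (fs f n) = ev k f + n := by
  unfold ev fs
  push_cast
  ring

theorem ev_le (k : ℕ) {f g : F} (h : fle f g = true) : ev k f ≤ ev k g := by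
  unfold fle at h
  rw [Bool.and_eq_true, Nat.ble_eq, Nat.ble_eq] at h
  unfold ev
  have h1 : (f.1 : ℤ) ≤ g.1 := by exact_mod_cast h.1
  have h2 : (f.2 : ℤ) ≤ g.2 := by exact_mod_cast h.2
  have h3 : (f.2 : ℤ) * k ≤ g.2 * k := mul_le_mul_of_nonneg_right h2 (by positivity)
  linarith

theorem ev_eq (k : ℕ) {f g : F} (h : feq f g = true) : ev k f = ev k g := by
  unfold feq at h
  rw [Bool.and_eq_true, Nat.beq_eq, Nat.beq_eq] at h
  unfold ev
  rw [h.1, h.2]

theorem ev_m (m0 k : ℕ) : ev k ((m0, 1) : F) = ((m0 + k : ℕ) : ℤ) := by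
  unfold ev
  push_cast
  ring

theorem ev_00 (k : ℕ) : ev k ((0, 0) : F) = 0 := by
  unfold ev
  simp

/-! ### Cells -/

theorem cell_inj {u m : ℕ} (hco : Nat.Coprime m u) {s s' : ℕ} (hs : s < u) (hs' : s' < u)
    {c c' : ℤ} (h : (m : ℤ) * s + u * c = m * s' + u * c') : s = s' ∧ c = c' := by
  have hu : (0 : ℤ) < u := by omega
  have h1 : (u : ℤ) ∣ m * ((s : ℤ) - s') := ⟨c' - c, by linear_combination h⟩
  have h2 : IsCoprime (u : ℤ) (m : ℤ) := (Nat.isCoprime_iff_coprime.2 hco).symm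
  have h3 : (u : ℤ) ∣ (s : ℤ) - s' := h2.dvd_of_dvd_mul_left h1
  have h4 : (s : ℤ) - s' = 0 := by
    apply Int.eq_zero_of_abs_lt_dvd h3
    rw [abs_lt]
    constructor <;> omega
  have h5 : (s : ℤ) = s' := by omega
  refine ⟨by exact_mod_cast h5, ?_⟩
  rw [h5] at h
  have h6 : (u : ℤ) * c = u * c' := by linarith
  exact mul_left_cancel₀ hu.ne' h6

/-! ### Disjoint intervals -/

theorem ivs_props (k : ℕ) (C : F) : ∀ l : List Iv, ivs C l = true →
    (∀ p ∈ l, ev k p.1 < ev k p.2 ∧ ev k p.2 ≤ ev k C) ∧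
      l.Pairwise (fun p q => ev k p.2 ≤ ev k q.1)
  | [], _ => ⟨by simp, List.Pairwise.nil⟩
  | [p], h => by
    unfold ivs at h
    rw [Bool.and_eq_true, Bool.or_eq_true] at h
    refine ⟨?_, List.pairwise_singleton _ _⟩
    intro q hq
    rw [List.mem_singleton] at hq
    subst hq
    refine ⟨?_, ev_le k h.2⟩
    rcases h.1 with h1 | h1
    · have := ev_eq k h1
      rw [ev_fs] at this
      push_cast at this
      omega
    · have := ev_le k h1
      rw [ev_fs] at this
      push_cast at this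
      omega
  | p :: q :: l, h => by
    unfold ivs at h
    rw [Bool.and_eq_true, Bool.and_eq_true, Bool.or_eq_true] at h
    obtain ⟨⟨h1, h2⟩, h3⟩ := h
    obtain ⟨ih1, ih2⟩ := ivs_props k C (q :: l) h3
    have h4 := ev_le k h2
    have hq := ih1 q List.mem_cons_self
    have hp : ev k p.1 < ev k p.2 := by
      rcases h1 with h1 | h1
      · have := ev_eq k h1
        rw [ev_fs] at this
        push_cast at this
        omega
      · have := ev_le k h1
        rw [ev_fs] at this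
        push_cast at this
        omega
    refine ⟨?_, List.pairwise_cons.2 ⟨?_, ih2⟩⟩
    · intro r hr
      rcases List.mem_cons.1 hr with rfl | hr
      · exact ⟨hp, by omega⟩
      · exact ih1 r hr
    · intro r hr
      rcases List.mem_cons.1 hr with rfl | hr
      · exact h4
      · have := (List.pairwise_cons.1 ih2).1 r hr
        omega

theorem dec_length (r : Row) : (dec r).length = r.1 := by
  simp [dec]

theorem dec_get (r : Row) (a : ℕ) (ha : a < (dec r).length) : (dec r)[a] = iv r.2 a := by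
  simp [dec]

theorem iv_mem {r : Row} {a : ℕ} (ha : a < r.1) : iv r.2 a ∈ dec r := by
  unfold dec
  exact List.mem_map.2 ⟨a, List.mem_range.2 ha, rfl⟩

theorem iv_lt (k : ℕ) (C : F) {r : Row} (h : ivs C (dec r) = true) {a b : ℕ} (hb : b < r.1)
    (hab : a < b) : ev k (iv r.2 a).2 ≤ ev k (iv r.2 b).1 := by
  have h1 := List.pairwise_iff_getElem.1 (ivs_props k C _ h).2 a b
    (by rw [dec_length]; omega) (by rw [dec_length]; omega) hab
  rwa [dec_get, dec_get] at h1

theorem iv_disj (k : ℕ) (C : F) {r : Row} (h : ivs C (dec r) = true) {a b : ℕ} (ha : a < r.1)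
    (hb : b < r.1) {c : ℤ} (h1 : ev k (iv r.2 a).1 ≤ c) (h2 : c < ev k (iv r.2 a).2)
    (h3 : ev k (iv r.2 b).1 ≤ c) (h4 : c < ev k (iv r.2 b).2) : a = b := by
  rcases lt_trichotomy a b with hab | hab | hab
  · have := iv_lt k C h hb hab
    omega
  · exact hab
  · have := iv_lt k C h ha hab
    omega

/-! ### The setting -/

/-- The hypotheses of the job. -/
structure Hyp (u m0 k : ℕ) (C : F) (rows : List Row) (X : ℤ → Bool) : Prop where
  hco : Nat.Coprime (m0 + k) u
  hcells : ∀ t : ℕ, t < u → ∀ c : ℤ, c < ev k C →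
      (X ((m0 + k : ℕ) * t + u * c) = true ↔ mem k (dec (rows.getD t (0, 0))) c)
  hiv : ∀ t < u, ivs C (dec (rows.getD t (0, 0))) = true

/-- `c` lies in the interval `i`. -/
structure In (u k : ℕ) (rows : List Row) (i : Id) (c : ℤ) : Prop where
  row : i.1 < u
  num : i.2 < (rows.getD i.1 (0, 0)).1
  lo : ev k (ivl rows i).1 ≤ c
  hi : c < ev k (ivl rows i).2

variable {u m0 k : ℕ} {C c0 P κ : F} {rows : List Row} {X : ℤ → Bool}

theorem In.inj (H : Hyp u m0 k C rows X) {i j : Id} {c : ℤ} (hi : In u k rows i c)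
    (hj : In u k rows j c) (hr : i.1 = j.1) : i = j := by
  obtain ⟨a, b⟩ := i
  obtain ⟨a', b'⟩ := j
  dsimp only at hr
  subst hr
  have e : b = b' := iv_disj k C (H.hiv a hi.row) hi.num hj.num hi.lo hi.hi hj.lo hj.hi
  rw [e]

theorem In.true (H : Hyp u m0 k C rows X) {i : Id} {c : ℤ} (hi : In u k rows i c) :
    X ((m0 + k : ℕ) * i.1 + u * c) = true := by
  have h1 : iv (rows.getD i.1 (0, 0)).2 i.2 ∈ dec (rows.getD i.1 (0, 0)) := iv_mem hi.num
  have h2 := ((ivs_props k C _ (H.hiv i.1 hi.row)).1 _ h1).2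
  refine (H.hcells i.1 hi.row c ?_).2 ⟨_, h1, hi.lo, hi.hi⟩
  exact lt_of_lt_of_le hi.hi h2

theorem two_of4 {K p1 p2 p3 p4 : ℤ} (h1 : X p1 = true) (h2 : X p2 = true) (h3 : X p3 = true)
    (h4 : X p4 = true) (e1 : p1 + p2 = K) (e2 : p3 + p4 = K) (n12 : p1 ≠ p2) (n34 : p3 ≠ p4)
    (n13 : p1 ≠ p3) (n14 : p1 ≠ p4) : Two X K := by
  have key : ∀ p q : ℤ, X p = true → X q = true → p + q = K → p ≠ q →
      ∃ a, Rep X K a ∧ (a = p ∨ a = q) := by
    intro p q hp hq e n
    rcases lt_or_gt_of_ne n with hl | hl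
    · refine ⟨p, ⟨hp, ?_, by omega⟩, Or.inl rfl⟩
      have : K - p = q := by omega
      rw [this]
      exact hq
    · refine ⟨q, ⟨hq, ?_, by omega⟩, Or.inr rfl⟩
      have : K - q = p := by omega
      rw [this]
      exact hp
  obtain ⟨a, ha, ha'⟩ := key p1 p2 h1 h2 e1 n12
  obtain ⟨b, hb, hb'⟩ := key p3 p4 h3 h4 e2 n34
  refine ⟨a, b, ?_, ha, hb⟩
  rcases ha' with rfl | rfl <;> rcases hb' with rfl | rfl <;> omega

/-- The interval `i` (column `ca`) and the interval `j` (column `cb`) give the cell `(t, c)`. -/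
structure W (u m0 k : ℕ) (rows : List Row) (t : ℕ) (late : Bool) (c0 : F) (c : ℤ) (i j : Id)
    (ca cb : ℤ) : Prop where
  left : In u k rows i ca
  right : In u k rows j cb
  sum : ((m0 + k : ℕ) : ℤ) * i.1 + u * ca + ((m0 + k : ℕ) * j.1 + u * cb) =
    (m0 + k : ℕ) * t + u * c
  late : late = true → ca < ev k c0 ∧ ev k c0 ≤ cb

/-- Two different pairs give `Two`. -/
theorem two_of_W (H : Hyp u m0 k C rows X) {t : ℕ} {late : Bool} {c δ : ℤ}
    (hδ : 0 ≤ δ) (hl : late = false → δ = 0)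
    (hp : late = true → ∀ s : ℕ, s < u → ∀ c : ℤ, ev k c0 ≤ c →
      X ((m0 + k : ℕ) * s + u * (c + δ)) = X ((m0 + k : ℕ) * s + u * c))
    {i j i' j' : Id} {ca cb ca' cb' : ℤ} (w : W u m0 k rows t late c0 c i j ca cb)
    (w' : W u m0 k rows t late c0 c i' j' ca' cb')
    (n1 : i = j → ca ≠ cb) (n2 : i' = j' → ca' ≠ cb')
    (n3 : ¬ (i = i' ∧ j = j' ∧ ca = ca' ∧ cb = cb'))
    (n4 : ¬ (i = j' ∧ j = i' ∧ ca = cb' ∧ cb = ca')) :
    Two X ((m0 + k : ℕ) * t + u * (c + δ)) := by
  have tr : ∀ (i j : Id) (ca cb : ℤ), W u m0 k rows t late c0 c i j ca cb →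
      X ((m0 + k : ℕ) * j.1 + u * (cb + δ)) = true := by
    intro i j ca cb w
    cases late with
    | false => rw [hl rfl, add_zero]; exact w.right.true H
    | true => rw [hp rfl j.1 w.right.row cb (w.late rfl).2]; exact w.right.true H
  have ne : ∀ (i j i' j' : Id) (ca cb ca' cb' : ℤ), W u m0 k rows t late c0 c i j ca cb →
      W u m0 k rows t late c0 c i' j' ca' cb' →
      ((m0 + k : ℕ) : ℤ) * i.1 + u * ca = (m0 + k : ℕ) * j'.1 + u * (cb' + δ) →
      i = j' ∧ ca = cb' ∧ δ = 0 := by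
    intro i j i' j' ca cb ca' cb' w w' e
    obtain ⟨e1, e2⟩ := cell_inj H.hco w.left.row w'.right.row e
    cases late with
    | true =>
      have h1 := (w.late rfl).1
      have h2 := (w'.late rfl).2
      omega
    | false =>
      have h0 := hl rfl
      have e3 : ca = cb' := by omega
      refine ⟨?_, e3, h0⟩
      have h3 := w'.right
      rw [← e3] at h3
      exact w.left.inj H h3 e1
  refine two_of4 (p1 := (m0 + k : ℕ) * i.1 + u * ca) (p2 := (m0 + k : ℕ) * j.1 + u * (cb + δ))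
    (p3 := (m0 + k : ℕ) * i'.1 + u * ca') (p4 := (m0 + k : ℕ) * j'.1 + u * (cb' + δ))
    (w.left.true H) (tr i j ca cb w) (w'.left.true H) (tr i' j' ca' cb' w') ?_ ?_ ?_ ?_ ?_ ?_
  · linear_combination w.sum
  · linear_combination w'.sum
  · intro e
    obtain ⟨e1, e2, _⟩ := ne i j i j ca cb ca cb w w e
    exact n1 e1 e2
  · intro e
    obtain ⟨e1, e2, _⟩ := ne i' j' i' j' ca' cb' ca' cb' w' w' e
    exact n2 e1 e2
  · intro e
    obtain ⟨e1, e2⟩ := cell_inj H.hco w.left.row w'.left.row e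
    have e3 : ((m0 + k : ℕ) : ℤ) * j.1 + u * cb = (m0 + k : ℕ) * j'.1 + u * cb' := by
      linear_combination w.sum - w'.sum - e
    obtain ⟨e4, e5⟩ := cell_inj H.hco w.right.row w'.right.row e3
    apply n3
    have h1 := w'.left
    rw [← e2] at h1
    have h2 := w'.right
    rw [← e5] at h2
    exact ⟨w.left.inj H h1 e1, w.right.inj H h2 e4, e2, e5⟩
  · intro e
    obtain ⟨e1, e2, e0⟩ := ne i j i' j' ca cb ca' cb' w w' e
    rw [e0, add_zero] at e
    have e3 : ((m0 + k : ℕ) : ℤ) * j.1 + u * cb = (m0 + k : ℕ) * i'.1 + u * ca' := by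
      linear_combination w.sum - w'.sum - e
    obtain ⟨e4, e5⟩ := cell_inj H.hco w.right.row w'.left.row e3
    apply n4
    have h1 := w'.left
    rw [← e5] at h1
    exact ⟨e1, w.right.inj H h1 e4, e2, e5⟩

theorem ideq_iff (i j : Id) : ideq i j = true ↔ i = j := by
  unfold ideq
  rw [Bool.and_eq_true, Nat.beq_eq, Nat.beq_eq]
  constructor
  · rintro ⟨h1, h2⟩
    exact Prod.ext h1 h2
  · rintro rfl
    exact ⟨rfl, rfl⟩

theorem nonempty_iv (H : Hyp u m0 k C rows X) {i : Id} (h1 : i.1 < u)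
    (h2 : i.2 < (rows.getD i.1 (0, 0)).1) : ev k (ivl rows i).1 < ev k (ivl rows i).2 :=
  ((ivs_props k C _ (H.hiv i.1 h1)).1 _ (iv_mem h2)).1

/-- Unfolding of the common part of `wit1` and `wit2`: a cell sum from a column sum. -/
theorem mk_W (H : Hyp u m0 k C rows X) {t : ℕ} {late : Bool} {i j : Id}
    (hi : idOk u rows i = true) (hj : idOk u rows j = true) (hs : rowSum u t i j = true)
    (hl : late = true → late1 rows c0 i j = true) {c ca cb : ℤ}
    (h1 : ev k (ivl rows i).1 ≤ ca) (h2 : ca < ev k (ivl rows i).2)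
    (h3 : ev k (ivl rows j).1 ≤ cb) (h4 : cb < ev k (ivl rows j).2)
    (h5 : ca + cb + ev k (shf m0 t i j) = c) : W u m0 k rows t late c0 c i j ca cb := by
  unfold idOk at hi hj
  rw [Bool.and_eq_true, Nat.ble_eq, Nat.ble_eq] at hi hj
  refine ⟨⟨by omega, by omega, h1, h2⟩, ⟨by omega, by omega, h3, h4⟩, ?_, ?_⟩
  · unfold rowSum at hs
    unfold shf at h5
    rw [Bool.or_eq_true, Nat.beq_eq, Nat.beq_eq] at hs
    by_cases h : i.1 + j.1 = t
    · have hb : Nat.beq (i.1 + j.1) t = true := by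
        rw [Nat.beq_eq]
        exact h
      rw [hb, cond_true, ev_00] at h5
      have h' : ((i.1 : ℤ)) + j.1 = t := by exact_mod_cast h
      linear_combination ((m0 + k : ℕ) : ℤ) * h' + (u : ℤ) * h5
    · have hb : Nat.beq (i.1 + j.1) t = false := by
        rw [Bool.eq_false_iff, ne_eq, Nat.beq_eq]
        exact h
      rw [hb, cond_false, ev_m] at h5
      have h' : ((i.1 : ℤ)) + j.1 = t + u := by
        have := hs.resolve_left h
        exact_mod_cast this
      linear_combination ((m0 + k : ℕ) : ℤ) * h' + (u : ℤ) * h5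
  · intro hlt
    have := hl hlt
    unfold late1 at this
    rw [Bool.and_eq_true] at this
    have e1 := ev_le k this.1
    have e2 := ev_le k this.2
    omega

theorem of_wit1 (H : Hyp u m0 k C rows X) {t : ℕ} {late : Bool} {x y : F} {i j : Id}
    (h : wit1 u m0 rows t x y i j = true) (hl : late = true → late1 rows c0 i j = true) {c : ℤ}
    (hx : ev k x ≤ c) (hy : c < ev k y) :
    ∃ ca cb : ℤ, W u m0 k rows t late c0 c i j ca cb ∧ (i = j → ca ≠ cb) := by
  unfold wit1 at h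
  rw [Bool.and_eq_true, Bool.and_eq_true, Bool.and_eq_true] at h
  obtain ⟨⟨⟨hi, hj⟩, hs⟩, h⟩ := h
  dsimp only at h
  have hi' := hi
  have hj' := hj
  unfold idOk at hi' hj'
  rw [Bool.and_eq_true, Nat.ble_eq, Nat.ble_eq] at hi' hj'
  have nA := nonempty_iv H (i := i) (by omega) (by omega)
  have nB := nonempty_iv H (i := j) (by omega) (by omega)
  set A1 := ev k (ivl rows i).1 with hA1
  set A2 := ev k (ivl rows i).2 with hA2
  set B1 := ev k (ivl rows j).1 with hB1
  set B2 := ev k (ivl rows j).2 with hB2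
  set sh := ev k (shf m0 t i j) with hsh
  by_cases hij : i = j
  · subst hij
    rw [(ideq_iff i i).2 rfl, cond_true, Bool.and_eq_true] at h
    have e1 := ev_le k h.1
    have e2 := ev_le k h.2
    rw [ev_fs, ev_fadd, ev_fadd] at e1
    rw [ev_fs, ev_fadd, ev_fadd] at e2
    push_cast at e1 e2
    refine ⟨max A1 (c - sh - (A2 - 1)), c - sh - max A1 (c - sh - (A2 - 1)),
      mk_W H hi hj hs hl ?_ ?_ ?_ ?_ ?_, ?_⟩
    · omega
    · omega
    · omega
    · omega
    · omega
    · intro _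
      omega
  · have hb : ideq i j = false := by
      rw [Bool.eq_false_iff, ne_eq, ideq_iff]
      exact hij
    rw [hb, cond_false, Bool.and_eq_true] at h
    have e1 := ev_le k h.1
    have e2 := ev_le k h.2
    rw [ev_fadd, ev_fadd] at e1
    rw [ev_fs, ev_fadd, ev_fadd] at e2
    push_cast at e1 e2
    refine ⟨max A1 (c - sh - (B2 - 1)), c - sh - max A1 (c - sh - (B2 - 1)),
      mk_W H hi hj hs hl ?_ ?_ ?_ ?_ ?_, ?_⟩
    · omega
    · omega
    · omega
    · omega
    · omega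
    · intro hc
      exact absurd hc hij

theorem of_wit2 (H : Hyp u m0 k C rows X) {t : ℕ} {late : Bool} {x y : F} {i j : Id}
    (h : wit2 u m0 rows t x y i j = true) (hl : late = true → late1 rows c0 i j = true) {c : ℤ}
    (hx : ev k x ≤ c) (hy : c < ev k y) :
    ∃ ca cb : ℤ, W u m0 k rows t late c0 c i j ca cb ∧
      W u m0 k rows t late c0 c i j (ca + 1) (cb - 1) ∧ (i = j → ca + 3 ≤ cb) := by
  unfold wit2 at h
  rw [Bool.and_eq_true, Bool.and_eq_true, Bool.and_eq_true] at h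
  obtain ⟨⟨⟨hi, hj⟩, hs⟩, h⟩ := h
  dsimp only at h
  have hi' := hi
  have hj' := hj
  unfold idOk at hi' hj'
  rw [Bool.and_eq_true, Nat.ble_eq, Nat.ble_eq] at hi' hj'
  have nA := nonempty_iv H (i := i) (by omega) (by omega)
  have nB := nonempty_iv H (i := j) (by omega) (by omega)
  set A1 := ev k (ivl rows i).1 with hA1
  set A2 := ev k (ivl rows i).2 with hA2
  set B1 := ev k (ivl rows j).1 with hB1
  set B2 := ev k (ivl rows j).2 with hB2
  set sh := ev k (shf m0 t i j) with hsh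
  by_cases hij : i = j
  · subst hij
    rw [(ideq_iff i i).2 rfl, cond_true, Bool.and_eq_true] at h
    have e1 := ev_le k h.1
    have e2 := ev_le k h.2
    rw [ev_fs, ev_fadd, ev_fadd] at e1
    rw [ev_fs, ev_fadd, ev_fadd] at e2
    push_cast at e1 e2
    refine ⟨max A1 (c - sh - (A2 - 1)), c - sh - max A1 (c - sh - (A2 - 1)),
      mk_W H hi hj hs hl ?_ ?_ ?_ ?_ ?_, mk_W H hi hj hs hl ?_ ?_ ?_ ?_ ?_, ?_⟩
    all_goals first | omega | (intro _; omega)
  · have hb : ideq i j = false := by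
      rw [Bool.eq_false_iff, ne_eq, ideq_iff]
      exact hij
    rw [hb, cond_false, Bool.and_eq_true, Bool.and_eq_true, Bool.and_eq_true] at h
    obtain ⟨⟨⟨l1, l2⟩, h1⟩, h2⟩ := h
    unfold lng at l1 l2
    have e1 := ev_le k h1
    have e2 := ev_le k h2
    have e3 := ev_le k l1
    have e4 := ev_le k l2
    rw [ev_fs, ev_fadd, ev_fadd] at e1
    rw [ev_fs, ev_fadd, ev_fadd] at e2
    rw [ev_fs] at e3 e4
    push_cast at e1 e2 e3 e4
    refine ⟨max A1 (c - sh - (B2 - 1)), c - sh - max A1 (c - sh - (B2 - 1)),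
      mk_W H hi hj hs hl ?_ ?_ ?_ ?_ ?_, mk_W H hi hj hs hl ?_ ?_ ?_ ?_ ?_, ?_⟩
    all_goals first | omega | (intro hc; exact absurd hc hij)

theorem two_of_piece (H : Hyp u m0 k C rows X) {t : ℕ} {late : Bool} {δ : ℤ}
    (hδ : 0 ≤ δ) (hl : late = false → δ = 0)
    (hp : late = true → ∀ s : ℕ, s < u → ∀ c : ℤ, ev k c0 ≤ c →
      X ((m0 + k : ℕ) * s + u * (c + δ)) = X ((m0 + k : ℕ) * s + u * c))
    {x y : F} {i j i' j' : Id} (h : pieceOk u m0 rows t late c0 x y i j i' j' = true) {c : ℤ}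
    (hx : ev k x ≤ c) (hy : c < ev k y) :
    Two X ((m0 + k : ℕ) * t + u * (c + δ)) := by
  unfold pieceOk at h
  rw [Bool.and_eq_true] at h
  obtain ⟨h, hlate⟩ := h
  have hl1 : late = true → late1 rows c0 i j = true := by
    intro e
    rw [e, cond_true, Bool.and_eq_true] at hlate
    exact hlate.1
  have hl2 : late = true → late1 rows c0 i' j' = true := by
    intro e
    rw [e, cond_true, Bool.and_eq_true] at hlate
    exact hlate.2
  by_cases hs : same i j i' j' = true
  · rw [hs, cond_true] at h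
    obtain ⟨ca, cb, w, w', h3⟩ := of_wit2 H h hl1 hx hy
    refine two_of_W H hδ hl hp w w' ?_ ?_ ?_ ?_
    · intro e
      have := h3 e
      omega
    · intro e
      have := h3 e
      omega
    · rintro ⟨_, _, e, _⟩
      omega
    · rintro ⟨e, _, e', _⟩
      have := h3 e
      omega
  · have hs' : same i j i' j' = false := by
      rw [Bool.eq_false_iff]
      exact hs
    rw [hs', cond_false, Bool.and_eq_true] at h
    obtain ⟨ca, cb, w, n1⟩ := of_wit1 H h.1 hl1 hx hy
    obtain ⟨ca', cb', w', n2⟩ := of_wit1 H h.2 hl2 hx hy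
    refine two_of_W H hδ hl hp w w' n1 n2 ?_ ?_
    · rintro ⟨rfl, rfl, _, _⟩
      apply hs
      unfold same
      rw [(ideq_iff _ _).2 rfl, (ideq_iff _ _).2 rfl]
      rfl
    · rintro ⟨rfl, rfl, _, _⟩
      apply hs
      unfold same
      rw [(ideq_iff i i).2 rfl, (ideq_iff j j).2 rfl, Bool.and_self, Bool.or_true]

theorem two_of_cov' (H : Hyp u m0 k C rows X) {t : ℕ} {late : Bool} {δ : ℤ}
    (hδ : 0 ≤ δ) (hl : late = false → δ = 0)
    (hp : late = true → ∀ s : ℕ, s < u → ∀ c : ℤ, ev k c0 ≤ c →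
      X ((m0 + k : ℕ) * s + u * (c + δ)) = X ((m0 + k : ℕ) * s + u * c)) :
    ∀ (n code : ℕ) (x y : F), cov u m0 rows t late c0 n code x y = true →
      ∀ c : ℤ, ev k x ≤ c → c < ev k y → Two X ((m0 + k : ℕ) * t + u * (c + δ)) := by
  intro n
  induction n with
  | zero =>
    intro code x y h c h1 h2
    unfold cov at h
    have := ev_le k h
    omega
  | succ n ih =>
    intro code x y h c h1 h2
    unfold cov at h
    rw [Bool.and_eq_true] at h
    by_cases hc : c < ev k ((fld code 0 20, fld code 20 12) : F)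
    · exact two_of_piece H hδ hl hp h.1 h1 hc
    · exact ih _ _ _ h.2 c (by omega) h2

end CovAux

open CovAux in
theorem two_of_cov (u m0 k : ℕ) (C c0 P κ : F) (rows : List Row) (hu : 2 ≤ u) (hm0 : 1 ≤ m0)
    (hco : Nat.Coprime (m0 + k) u) {X : ℤ → Bool}
    (hcells : ∀ t : ℕ, t < u → ∀ c : ℤ, c < ev k C →
      (X ((m0 + k : ℕ) * t + u * c) = true ↔ mem k (dec (rows.getD t (0, 0))) c))
    (hiv : ∀ t < u, ivs C (dec (rows.getD t (0, 0))) = true)
    (t : ℕ) (ht : t < u) (n code : ℕ) (x y : F)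
    (h : cov u m0 rows t false c0 n code x y = true) (c : ℤ) (h1 : ev k x ≤ c)
    (h2 : c < ev k y) : Two X ((m0 + k : ℕ) * t + u * c) := by
  have := two_of_cov' (c0 := c0) ⟨hco, hcells, hiv⟩ (δ := 0) le_rfl (fun _ => rfl)
    (fun e => by simp at e) n code x y h c h1 h2
  rwa [add_zero] at this

open CovAux in
theorem two_of_late (u m0 k : ℕ) (C c0 P κ : F) (rows : List Row) (hu : 2 ≤ u) (hm0 : 1 ≤ m0)
    (hco : Nat.Coprime (m0 + k) u) {X : ℤ → Bool}
    (hcells : ∀ t : ℕ, t < u → ∀ c : ℤ, c < ev k C →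
      (X ((m0 + k : ℕ) * t + u * c) = true ↔ mem k (dec (rows.getD t (0, 0))) c))
    (hiv : ∀ t < u, ivs C (dec (rows.getD t (0, 0))) = true)
    (hper : ∀ t : ℕ, t < u → ∀ c : ℤ, ev k c0 ≤ c →
      X ((m0 + k : ℕ) * t + u * (c + ev k P)) = X ((m0 + k : ℕ) * t + u * c))
    (hP : fle (1, 0) P = true)
    (t : ℕ) (ht : t < u) (n code : ℕ)
    (h : cov u m0 rows t true c0 n code κ (fadd κ P) = true) (c : ℤ) (h1 : ev k κ ≤ c) :
    Two X ((m0 + k : ℕ) * t + u * c) := by
  have hP1 : 1 ≤ ev k P := by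
    have := ev_le k hP
    have e : ev k ((1, 0) : F) = 1 := by
      unfold ev
      simp
    omega
  have hiter : ∀ (q : ℕ) (s : ℕ), s < u → ∀ c : ℤ, ev k c0 ≤ c →
      X ((m0 + k : ℕ) * s + u * (c + q * ev k P)) = X ((m0 + k : ℕ) * s + u * c) := by
    intro q
    induction q with
    | zero =>
      intro s _ c _
      simp
    | succ q ih =>
      intro s hs c hc
      have h3 : (0 : ℤ) ≤ q * ev k P := by positivity
      rw [← ih s hs c hc, ← hper s hs (c + q * ev k P) (by omega)]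
      congr 1
      push_cast
      ring
  obtain ⟨q, r, hr0, hr1, hc⟩ : ∃ (q : ℕ) (r : ℤ), 0 ≤ r ∧ r < ev k P ∧
      c = ev k κ + r + q * ev k P := by
    have h0 : 0 ≤ (c - ev k κ) / ev k P := Int.ediv_nonneg (by omega) (by omega)
    refine ⟨((c - ev k κ) / ev k P).toNat, (c - ev k κ) % ev k P,
      Int.emod_nonneg _ (by omega), Int.emod_lt_of_pos _ (by omega), ?_⟩
    rw [Int.toNat_of_nonneg h0]
    have := Int.emod_add_mul_ediv (c - ev k κ) (ev k P)
    linarith
  have h3 := two_of_cov' (c0 := c0) ⟨hco, hcells, hiv⟩ (δ := q * ev k P) (by positivity)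
    (fun e => by simp at e) (fun _ => hiter q) n code κ (fadd κ P) h (ev k κ + r) (by omega)
    (by rw [ev_fadd]; omega)
  rwa [hc]

end Pool.Agent.H65.CE
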