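import Pool.Agent.H65.CE.Defs

/-!
# Periodicity of the sequence of the odd terms (job J3)
-/

set_option autoImplicit false

namespace Pool.Agent.H65.CE

namespace Pe

theorem ev_le {k : ℕ} {f g : F} (h : fle f g = true) : ev k f ≤ ev k g := by
  unfold fle at h
  rw [Bool.and_eq_true, Nat.ble_eq, Nat.ble_eq] at h
  obtain ⟨h1, h2⟩ := h
  unfold ev
  have h3 : ((f.1 : ℕ) : ℤ) ≤ g.1 := by exact_mod_cast h1
  have h4 : ((f.2 : ℕ) : ℤ) * k ≤ (g.2 : ℤ) * k :=
    mul_le_mul_of_nonneg_right (by exact_mod_cast h2) (by positivity)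
  linarith

theorem ev_fadd (k : ℕ) (f g : F) : ev k (fadd f g) = ev k f + ev k g := by
  unfold ev fadd
  push_cast
  ring

theorem ev_fs (k : ℕ) (f : F) (n : ℕ) : ev k (fs f n) = ev k f + n := by
  unfold ev fs
  push_cast
  ring

theorem feq_eq {f g : F} (h : feq f g = true) : f = g := by
  unfold feq at h
  rw [Bool.and_eq_true, Nat.beq_eq, Nat.beq_eq] at h
  exact Prod.ext h.1 h.2

theorem ev_fmax {k : ℕ} {f g : F} (h : fcmp f g = true) :
    ev k (fmax f g) = max (ev k f) (ev k g) := by
  unfold fcmp at h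
  unfold fmax
  cases h1 : fle f g with
  | true =>
    rw [cond_true]
    exact (max_eq_right (ev_le h1)).symm
  | false =>
    rw [h1, Bool.false_or] at h
    rw [cond_false]
    exact (max_eq_left (ev_le h)).symm

theorem ev_fmin {k : ℕ} {f g : F} (h : fcmp f g = true) :
    ev k (fmin f g) = min (ev k f) (ev k g) := by
  unfold fcmp at h
  unfold fmin
  cases h1 : fle f g with
  | true =>
    rw [cond_true]
    exact (min_eq_left (ev_le h1)).symm
  | false =>
    rw [h1, Bool.false_or] at h
    rw [cond_false]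
    exact (min_eq_right (ev_le h)).symm

theorem mem_cons (k : ℕ) (p : Iv) (I : List Iv) (c : ℤ) :
    mem k (p :: I) c ↔ (ev k p.1 ≤ c ∧ c < ev k p.2) ∨ mem k I c := by
  unfold mem
  constructor
  · rintro ⟨q, hq, h1⟩
    rcases List.mem_cons.1 hq with h2 | h2
    · subst h2
      exact Or.inl h1
    · exact Or.inr ⟨q, h2, h1⟩
  · rintro (h1 | ⟨q, hq, h1⟩)
    · exact ⟨p, List.mem_cons_self, h1⟩
    · exact ⟨q, List.mem_cons_of_mem _ hq, h1⟩

theorem clip_mem (k : ℕ) (a b : F) (c : ℤ) : ∀ I : List Iv, clipOk a b I = true →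
    (mem k (clip a b I) c ↔ mem k I c ∧ ev k a ≤ c ∧ c < ev k b)
  | [], _ => by
    constructor
    · rintro ⟨q, hq, -⟩
      exact absurd hq (by simp [clip])
    · rintro ⟨⟨q, hq, -⟩, -⟩
      exact absurd hq (by simp)
  | p :: I, h => by
    unfold clipOk at h
    rw [Bool.and_eq_true, Bool.and_eq_true, Bool.and_eq_true] at h
    obtain ⟨⟨⟨h1, h2⟩, h3⟩, h4⟩ := h
    have ih := clip_mem k a b c I h4
    rw [mem_cons]
    unfold clip
    cases h5 : fle (fs (fmax p.1 a) 1) (fmin p.2 b) with
    | true =>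
      rw [cond_true, mem_cons, ih]
      show (ev k (fmax p.1 a) ≤ c ∧ c < ev k (fmin p.2 b)) ∨ _ ↔ _
      rw [ev_fmax h1, ev_fmin h2, max_le_iff, lt_min_iff]
      tauto
    | false =>
      rw [h5, Bool.false_or] at h3
      have h6 := ev_le (k := k) h3
      rw [ev_fmax h1, ev_fmin h2] at h6
      rw [cond_false, ih]
      constructor
      · rintro ⟨h7, h8⟩
        exact ⟨Or.inr h7, h8⟩
      · rintro ⟨h7 | h7, h8, h9⟩
        · exfalso
          have h10 : c < min (ev k p.2) (ev k b) := lt_min h7.2 h9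
          have h11 : max (ev k p.1) (ev k a) ≤ c := max_le h7.1 h8
          exact absurd (lt_of_lt_of_le h10 h6) (not_lt.2 h11)
        · exact ⟨h7, h8, h9⟩

theorem ieq_eq : ∀ I J : List Iv, ieq I J = true → I = J
  | [], [], _ => rfl
  | [], _ :: _, h => by
    unfold ieq at h
    exact absurd h (by simp)
  | _ :: _, [], h => by
    unfold ieq at h
    exact absurd h (by simp)
  | p :: l, q :: r, h => by
    unfold ieq at h
    rw [Bool.and_eq_true, Bool.and_eq_true] at h
    obtain ⟨⟨h1, h2⟩, h3⟩ := h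
    rw [ieq_eq l r h3, Prod.ext (feq_eq h1) (feq_eq h2)]

theorem mem_shift (k : ℕ) (P : F) (I : List Iv) (c : ℤ) :
    mem k (I.map fun p => (fadd p.1 P, fadd p.2 P)) (c + ev k P) ↔ mem k I c := by
  unfold mem
  constructor
  · rintro ⟨q, hq, h1, h2⟩
    obtain ⟨p, hp, rfl⟩ := List.mem_map.1 hq
    rw [ev_fadd] at h1 h2
    exact ⟨p, hp, by linarith, by linarith⟩
  · rintro ⟨p, hp, h1, h2⟩
    refine ⟨_, List.mem_map.2 ⟨p, hp, rfl⟩, ?_, ?_⟩
    · rw [ev_fadd]
      linarith
    · rw [ev_fadd]
      linarith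

theorem perOk_mem (m0 k : ℕ) (c0 P : F) (I : List Iv) (h : perOk m0 c0 P I = true) (c : ℤ)
    (h1 : ev k c0 ≤ c) (h2 : c < ev k c0 + (2 * ((m0 + k : ℕ) : ℤ) + 2)) :
    mem k I (c + ev k P) ↔ mem k I c := by
  unfold perOk at h
  simp only [Bool.and_eq_true] at h
  obtain ⟨⟨h3, h4⟩, h5⟩ := h
  have hw : ev k ((2 * m0 + 2, 2) : F) = 2 * ((m0 + k : ℕ) : ℤ) + 2 := by
    unfold ev
    push_cast
    ring
  have e1 := clip_mem k c0 (fadd c0 (2 * m0 + 2, 2)) c I h3
  have e2 := clip_mem k (fadd c0 P) (fadd (fadd c0 P) (2 * m0 + 2, 2)) (c + ev k P) I h4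
  rw [← ieq_eq _ _ h5, mem_shift, e1] at e2
  simp only [ev_fadd, hw] at e2
  constructor
  · intro h6
    exact (e2.2 ⟨h6, by linarith, by linarith⟩).1
  · intro h6
    exact (e2.1 ⟨h6, h1, h2⟩).1

theorem bool_eq {a b : Bool} (h : a = true ↔ b = true) : a = b := by
  cases a <;> cases b <;> simp_all

/-- the induction -/
theorem step (u m : ℕ) (hu : 2 ≤ u) (hm1 : 1 ≤ m) {X : ℤ → Bool} (hX : Seq u m X) (e p : ℤ)
    (he : 2 * (m : ℤ) + 2 ≤ e) (hp : 1 ≤ p)
    (base : ∀ t : ℕ, t < u → ∀ c : ℤ, e ≤ c → c < e + (2 * (m : ℤ) + 2) →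
      X (m * t + u * (c + p)) = X (m * t + u * c))
    (t : ℕ) (ht : t < u) (c : ℤ) (hc : e ≤ c) :
    X (m * t + u * (c + p)) = X (m * t + u * c) := by
  have hmZ : (1 : ℤ) ≤ m := by exact_mod_cast hm1
  have huZ : (2 : ℤ) ≤ u := by exact_mod_cast hu
  -- strong induction on the position
  have key : ∀ n : ℕ, ∀ t : ℕ, t < u → ∀ c : ℤ, e ≤ c → (m : ℤ) * t + u * c = n →
      X (m * t + u * (c + p)) = X (m * t + u * c) := by
    intro n
    induction n using Nat.strong_induction_on with
    | _ n ih =>
      intro t ht c h1 hn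
      by_cases h2 : c < e + (2 * (m : ℤ) + 2)
      · exact base t ht c h1 h2
      have h3 : e + (2 * (m : ℤ) + 2) ≤ c := not_lt.1 h2
      -- induction hypothesis in a convenient form
      have ih' : ∀ t' : ℕ, t' < u → ∀ c' : ℤ, e ≤ c' →
          (m : ℤ) * t' + u * c' < m * t + u * c →
          X (m * t' + u * (c' + p)) = X (m * t' + u * c') := by
        intro t' ht' c' h4 h5
        have h6 : 0 ≤ (m : ℤ) * t' + u * c' := by
          have h7 : (0 : ℤ) ≤ c' := by linarith
          positivity
        obtain ⟨n', hn'⟩ := Int.eq_ofNat_of_zero_le h6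
        exact ih n' (by rw [hn, hn'] at h5; exact_mod_cast h5) t' ht' c' h4 hn'
      have hcpos : (0 : ℤ) < c := by linarith
      have hz : 0 < (m : ℤ) * t + u * c := by positivity
      have hzp : 0 < (m : ℤ) * t + u * (c + p) := by
        have : 0 < c + p := by linarith
        positivity
      apply bool_eq
      rw [hX.rule _ hz, hX.rule _ hzp]
      have hnum : num u m X (m * t + u * (c + p)) = num u m X (m * t + u * c) := by
        unfold num
        congr 1
        · apply Finset.sum_congr rfl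
          intro j hj
          have hj' : (j : ℤ) ≤ m := by
            have := Finset.mem_range.1 hj
            exact_mod_cast Nat.lt_succ_iff.1 this
          have hj0 : (0 : ℤ) ≤ j := by positivity
          congr 1
          rcases Nat.eq_zero_or_pos t with h0 | h0
          · subst h0
            have h8 := ih' (u - 1) (by omega) (c - j - m) (by linarith) (by
              have h9 : ((u - 1 : ℕ) : ℤ) = u - 1 := by
                rw [Nat.cast_sub (by omega)]
                norm_num
              rw [h9]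
              push_cast
              nlinarith)
            have h9 : ((u - 1 : ℕ) : ℤ) = u - 1 := by
              rw [Nat.cast_sub (by omega)]
              norm_num
            rw [h9] at h8
            have e1 : (m : ℤ) * ((0 : ℕ) : ℤ) + u * (c + p) - m - j * u =
                m * (u - 1) + u * (c - j - m + p) := by
              push_cast
              ring
            have e2 : (m : ℤ) * ((0 : ℕ) : ℤ) + u * c - m - j * u =
                m * (u - 1) + u * (c - j - m) := by
              push_cast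
              ring
            rw [e1, e2]
            exact h8
          · have h9 : ((t - 1 : ℕ) : ℤ) = t - 1 := by
              rw [Nat.cast_sub (by omega)]
              norm_num
            have h8 := ih' (t - 1) (by omega) (c - j) (by linarith) (by
              rw [h9]
              nlinarith)
            rw [h9] at h8
            have e1 : (m : ℤ) * (t : ℤ) + u * (c + p) - m - j * u =
                m * (t - 1) + u * (c - j + p) := by ring
            have e2 : (m : ℤ) * (t : ℤ) + u * c - m - j * u =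
                m * (t - 1) + u * (c - j) := by ring
            rw [e1, e2]
            exact h8
        · congr 1
          have h8 := ih' t ht (c - (2 * m + 2)) (by linarith) (by nlinarith)
          have e1 : (m : ℤ) * (t : ℤ) + u * (c + p) - (2 * m + 2) * u =
              m * t + u * (c - (2 * m + 2) + p) := by ring
          have e2 : (m : ℤ) * (t : ℤ) + u * c - (2 * m + 2) * u =
              m * t + u * (c - (2 * m + 2)) := by ring
          rw [e1, e2]
          exact h8
      rw [hnum]
  have hpos : 0 ≤ (m : ℤ) * t + u * c := by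
    have h7 : (0 : ℤ) ≤ c := by linarith
    positivity
  obtain ⟨n, hn⟩ := Int.eq_ofNat_of_zero_le hpos
  exact key n t ht c hc hn

end Pe

open Pe in
theorem periodic (u m0 k : ℕ) (C c0 P : F) (rows : List Row) (hu : 2 ≤ u) (hm0 : 1 ≤ m0)
    (hco : Nat.Coprime (m0 + k) u) {X : ℤ → Bool} (hX : Seq u (m0 + k) X)
    (hcells : ∀ t : ℕ, t < u → ∀ c : ℤ, c < ev k C →
      (X ((m0 + k : ℕ) * t + u * c) = true ↔ mem k (dec (rows.getD t (0, 0))) c))
    (hC : fle (fadd (fadd c0 P) (2 * m0 + 2, 2)) C = true) (hP : fle (1, 0) P = true)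
    (hc0 : fle (2 * m0 + 2, 2) c0 = true)
    (h : ∀ t < u, perOk m0 c0 P (dec (rows.getD t (0, 0))) = true)
    (t : ℕ) (ht : t < u) (c : ℤ) (hc : ev k c0 ≤ c) :
    X ((m0 + k : ℕ) * t + u * (c + ev k P)) = X ((m0 + k : ℕ) * t + u * c) := by
  have hw : ev k ((2 * m0 + 2, 2) : F) = 2 * ((m0 + k : ℕ) : ℤ) + 2 := by
    unfold ev
    push_cast
    ring
  have hC' := ev_le (k := k) hC
  have hP' := ev_le (k := k) hP
  have hc0' := ev_le (k := k) hc0
  rw [ev_fadd, ev_fadd, hw] at hC'
  rw [hw] at hc0'
  have hP1 : (1 : ℤ) ≤ ev k P := by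
    have : ev k ((1, 0) : F) = 1 := by
      unfold ev
      push_cast
      ring
    rw [this] at hP'
    exact hP'
  refine step u (m0 + k) hu (by omega) hX (ev k c0) (ev k P) hc0' hP1 ?_ t ht c hc
  intro t ht c h1 h2
  apply bool_eq
  rw [hcells t ht (c + ev k P) (by linarith), hcells t ht c (by linarith)]
  exact perOk_mem m0 k c0 P _ (h t ht) c h1 h2

end Pool.Agent.H65.CE
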