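import Pool.Agent.H65.CE.Count

/-!
# Sums: the numbers without pairs and the facts about the pairs of odd terms
-/

set_option autoImplicit false

namespace Pool.Agent.H65.CE

namespace Sm

open Pool.Agent.H65.CE.Count

/-- every integer is in a cell -/
theorem exists_cell (u m : ℕ) (hu : 1 ≤ u) (hco : Nat.Coprime m u) (z : ℤ) :
    ∃ s : ℕ, s < u ∧ ∃ c : ℤ, z = (m : ℤ) * s + u * c := by
  have h1 : IsCoprime (m : ℤ) (u : ℤ) := Nat.isCoprime_iff_coprime.2 hco
  obtain ⟨x, y, hxy⟩ := h1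
  have hu0 : (0 : ℤ) < u := by exact_mod_cast hu
  refine ⟨((z * x) % u).toNat, ?_, ?_⟩
  · have h2 := Int.emod_lt_of_pos (z * x) hu0
    have h3 := Int.emod_nonneg (z * x) hu0.ne'
    omega
  · have h3 := Int.emod_nonneg (z * x) hu0.ne'
    have h4 := Int.emod_add_mul_ediv (z * x) u
    refine ⟨z * y + m * (z * x / u), ?_⟩
    rw [Int.toNat_of_nonneg h3]
    have h5 : z * x % u = z * x - u * (z * x / u) := by linarith
    rw [h5]
    linear_combination (-z) * hxy

theorem beq_iff {a b : ℕ} : Nat.beq a b = true ↔ a = b := Nat.beq_eq ▸ Iff.rfl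

theorem ble_iff {a b : ℕ} : Nat.ble a b = true ↔ a ≤ b := by rw [Nat.ble_eq]

theorem iveq_iff {p q : Iv} : iveq p q = true ↔ p = q := by
  unfold iveq
  rw [Bool.and_eq_true, feq_iff, feq_iff]
  exact ⟨fun h => Prod.ext h.1 h.2, fun h => by rw [h]; exact ⟨rfl, rfl⟩⟩

/-- the partner row -/
theorem partner_eq (u m t s s' : ℕ) (hu : 1 ≤ u) (ht : t < u) (hs : s < u) (hs' : s' < u)
    (hco : Nat.Coprime m u) (c ca cb : ℤ)
    (h : (m : ℤ) * t + u * c = (m * s + u * ca) + (m * s' + u * cb)) :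
    s' = partner u t s ∧ (s ≤ t → ca + cb = c) ∧ (¬ s ≤ t → ca + cb + m = c) := by
  have h1 : IsCoprime (u : ℤ) (m : ℤ) := (Nat.isCoprime_iff_coprime.2 hco).symm
  have h2 : (u : ℤ) ∣ (m : ℤ) * ((s : ℤ) + s' - t) := ⟨c - ca - cb, by linarith⟩
  obtain ⟨q, hq⟩ := h1.dvd_of_dvd_mul_left h2
  have hu0 : (0 : ℤ) < u := by exact_mod_cast hu
  have hq0 : q = 0 ∨ q = 1 := by
    have h3 : (-1 : ℤ) < q := by
      by_contra hcon
      have h4 : q ≤ -1 := by omega
      have h5 : (u : ℤ) * q ≤ u * (-1) := mul_le_mul_of_nonneg_left h4 hu0.le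
      omega
    have h3 : q < (2 : ℤ) := by
      by_contra hcon
      have h4 : 2 ≤ q := by omega
      have h5 : (u : ℤ) * 2 ≤ u * q := mul_le_mul_of_nonneg_left h4 hu0.le
      omega
    omega
  have h6 : (u : ℤ) * (c - ca - cb) = m * (u * q) := by
    rw [← hq]
    linarith
  have h7 : c - ca - cb = m * q := by
    apply mul_left_cancel₀ hu0.ne'
    rw [h6]
    ring
  unfold partner
  rcases hq0 with rfl | rfl
  · rw [mul_zero] at hq h7
    have h8 : s ≤ t := by omega
    have h9 : Nat.ble s t = true := ble_iff.2 h8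
    rw [h9, cond_true]
    exact ⟨by omega, fun _ => by omega, fun h => absurd h8 h⟩
  · rw [mul_one] at hq h7
    have h8 : ¬ s ≤ t := by omega
    have h9 : Nat.ble s t = false := by
      rw [← Bool.not_eq_true, Nat.ble_eq]
      exact h8
    rw [h9, cond_false]
    exact ⟨by omega, fun h => absurd h h8, fun _ => by omega⟩

theorem ev_m (m0 k : ℕ) : ev k (m0, 1) = ((m0 + k : ℕ) : ℤ) := by
  unfold ev
  push_cast
  ring

theorem ev_nat (a k : ℕ) : ev k (a, 0) = (a : ℤ) := by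
  unfold ev
  simp

theorem ev_2m (m0 k a : ℕ) : ev k (2 * m0 + a, 2) = 2 * ((m0 + k : ℕ) : ℤ) + a := by
  unfold ev
  push_cast
  ring

end Sm

open Pool.Agent.H65.CE.Count Pool.Agent.H65.CE.Sm

theorem sum_sound (u m0 k : ℕ) (C : F) (rows : List Row) (hu : 2 ≤ u) (hm0 : 1 ≤ m0)
    (hco : Nat.Coprime (m0 + k) u) {X : ℤ → Bool} (hX : Seq u (m0 + k) X)
    (hcells : ∀ t : ℕ, t < u → ∀ c : ℤ, c < ev k C →
      (X ((m0 + k : ℕ) * t + u * c) = true ↔ mem k (dec (rows.getD t (0, 0))) c))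
    (t : ℕ) (ht : t < u) (x y : F) (ex : ℕ → Iv → ℕ → Iv → Bool)
    (h : sumOk u m0 rows t x y ex = true) (c : ℤ) (h1 : ev k x ≤ c) (h2 : c < ev k y)
    (h3 : c < ev k C)
    (a : ℤ) (ha : Rep X ((m0 + k : ℕ) * t + u * c) a) :
    ∃ (s s' : ℕ) (A B : Iv) (ca cb : ℤ), s < u ∧ s' < u ∧ ex s A s' B = true ∧
      a = (m0 + k : ℕ) * s + u * ca ∧
      (m0 + k : ℕ) * t + u * c - a = (m0 + k : ℕ) * s' + u * cb ∧
      ev k A.1 ≤ ca ∧ ca < ev k A.2 ∧ ev k B.1 ≤ cb ∧ cb < ev k B.2 := by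
  obtain ⟨ha1, ha2, ha3⟩ := ha
  obtain ⟨s, hs, ca, hca⟩ := exists_cell u (m0 + k) (by omega) hco a
  obtain ⟨s', hs', cb, hcb⟩ := exists_cell u (m0 + k) (by omega) hco
    ((m0 + k : ℕ) * t + u * c - a)
  obtain ⟨hp, hsum1, hsum2⟩ := partner_eq u (m0 + k) t s s' (by omega) ht hs hs' hco c ca cb
    (by linarith)
  rw [hca] at ha1
  rw [hcb] at ha2
  have hC := ev_nonneg k C
  have hneg : ∀ r : ℕ, r < u → ∀ d : ℤ, X ((m0 + k : ℕ) * r + u * d) = true → 0 ≤ d := by
    intro r hr d hd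
    by_contra hcon
    rw [hcells r hr d (by omega)] at hd
    obtain ⟨p, _, h5, _⟩ := hd
    have := ev_nonneg k p.1
    omega
  have hca0 := hneg s hs ca ha1
  have hcb0 := hneg s' hs' cb ha2
  have hle : ca + cb ≤ c := by
    by_cases hst : s ≤ t
    · have := hsum1 hst
      omega
    · have := hsum2 hst
      push_cast at this
      omega
  rw [hcells s hs ca (by omega)] at ha1
  rw [hcells s' hs' cb (by omega)] at ha2
  obtain ⟨A, hA, hA1, hA2⟩ := ha1
  obtain ⟨B, hB, hB1, hB2⟩ := ha2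
  refine ⟨s, s', A, B, ca, cb, hs, hs', ?_, hca, hcb, hA1, hA2, hB1, hB2⟩
  unfold sumOk at h
  rw [List.all_eq_true] at h
  have h4 := h s (List.mem_range.2 hs)
  rw [List.all_eq_true] at h4
  have hpre : ∀ (I : List Iv) (p : Iv) (d : ℤ), p ∈ I → ev k p.1 ≤ d → d ≤ c →
      p ∈ pre y I := by
    intro I p d hpI hd1 hd2
    unfold pre
    rw [List.mem_filter]
    refine ⟨hpI, ?_⟩
    cases hf : fle y p.1
    · rfl
    · have := ev_le k hf
      omega
  have h5 := h4 A (hpre _ A ca hA hA1 (by omega))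
  rw [List.all_eq_true] at h5
  rw [← hp] at h5
  have h6 := h5 B (hpre _ B cb hB hB1 (by omega))
  rw [Bool.or_eq_true] at h6
  refine h6.resolve_left ?_
  intro h7
  unfold apart at h7
  have hsh : ca + cb + ev k (pshift m0 t s) = c := by
    unfold pshift
    by_cases hst : s ≤ t
    · rw [ble_iff.2 hst, cond_true, ev_nat]
      have := hsum1 hst
      omega
    · have h9 : Nat.ble s t = false := by
        rw [← Bool.not_eq_true, Nat.ble_eq]
        exact hst
      rw [h9, cond_false, ev_m]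
      exact hsum2 hst
  rw [Bool.or_eq_true] at h7
  rcases h7 with h7 | h7
  · have := ev_le k h7
    rw [ev_fadd, ev_fadd] at this
    omega
  · have := ev_le k h7
    rw [ev_fadd, ev_fadd, ev_fs] at this
    omega

namespace Sm

/-- the value of `nz` at a cell -/
def Nz (u m : ℕ) (X : ℤ → Bool) (t : ℕ) (c : ℤ) : Prop :=
  Two X ((m : ℕ) * t + u * c) ∨
    (t ≠ 1 ∧ (t = 2 → 2 * (m : ℤ) ≤ c + 1) ∧ ∀ a : ℤ, ¬ Rep X ((m : ℕ) * t + u * c) a)

theorem zero_sound (u m0 k : ℕ) (C : F) (rows : List Row) (hu : 2 ≤ u) (hm0 : 1 ≤ m0)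
    (hco : Nat.Coprime (m0 + k) u) {X : ℤ → Bool} (hX : Seq u (m0 + k) X)
    (hcells : ∀ t : ℕ, t < u → ∀ c : ℤ, c < ev k C →
      (X ((m0 + k : ℕ) * t + u * c) = true ↔ mem k (dec (rows.getD t (0, 0))) c))
    (t : ℕ) (ht : t < u) (x y : F) (h : zeroOk u m0 rows t x y = true) (c : ℤ)
    (h1 : ev k x ≤ c) (h2 : c < ev k y) (h3 : c < ev k C) : Nz u (m0 + k) X t c := by
  unfold zeroOk at h
  rw [Bool.and_eq_true, Bool.and_eq_true] at h
  obtain ⟨⟨h4, h5⟩, h6⟩ := h
  right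
  refine ⟨?_, ?_, ?_⟩
  · rintro rfl
    simp at h4
  · rintro rfl
    have h7 : Nat.beq 2 2 = true := rfl
    rw [h7, Bool.not_true, Bool.false_or] at h5
    have h8 := ev_le k h5
    have h9 : ev k (2 * m0 - 1, 2) = 2 * ((m0 + k : ℕ) : ℤ) - 1 := by
      unfold ev
      have : ((2 * m0 - 1 : ℕ) : ℤ) = 2 * m0 - 1 := by
        rw [Nat.cast_sub (by omega)]
        push_cast
        ring
      simp only [this]
      push_cast
      ring
    omega
  · intro a ha
    obtain ⟨s, s', A, B, ca, cb, _, _, hex, hca, hcb, hA1, hA2, hB1, hB2⟩ :=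
      sum_sound u m0 k C rows hu hm0 hco hX hcells t ht x y _ h6 c h1 h2 h3 a ha
    simp only [Bool.and_eq_true, beq_iff, iveq_iff] at hex
    obtain ⟨⟨⟨rfl, rfl⟩, rfl⟩, rfl⟩ := hex
    have e1 : ev k pt.1 = 0 := ev_nat 0 k
    have e2 : ev k pt.2 = 1 := ev_nat 1 k
    rw [e1] at hA1 hB1
    rw [e2] at hA2 hB2
    have hca0 : ca = 0 := by omega
    have hcb0 : cb = 0 := by omega
    have h7 := ha.2.2
    rw [hca0] at hca
    rw [hcb0] at hcb
    simp only [Nat.cast_zero, mul_zero, add_zero] at hca hcb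
    omega

theorem chain_sound (u m0 k : ℕ) (C c0 : F) (rows : List Row) (hu : 2 ≤ u) (hm0 : 1 ≤ m0)
    (hco : Nat.Coprime (m0 + k) u) {X : ℤ → Bool} (hX : Seq u (m0 + k) X)
    (hcells : ∀ t : ℕ, t < u → ∀ c : ℤ, c < ev k C →
      (X ((m0 + k : ℕ) * t + u * c) = true ↔ mem k (dec (rows.getD t (0, 0))) c))
    (htwo : ∀ t : ℕ, t < u → ∀ (n code : ℕ) (x y : F),
      cov u m0 rows t false c0 n code x y = true → ∀ c : ℤ, ev k x ≤ c → c < ev k y →
        Two X ((m0 + k : ℕ) * t + u * c))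
    (t : ℕ) (ht : t < u) (g : List Sg) : ∀ (x y : F), chain u m0 rows t c0 g x y = true →
      ∀ c : ℤ, ev k x ≤ c → c < ev k y → c < ev k C → Nz u (m0 + k) X t c := by
  induction g with
  | nil =>
      intro x y h c h1 h2 _
      have := ev_le k h
      omega
  | cons g l ih =>
      intro x y h c h1 h2 h3
      rw [chain, Bool.and_eq_true] at h
      obtain ⟨h4, h5⟩ := h
      by_cases hc : c < ev k g.1
      · obtain ⟨e, o⟩ := g
        rcases o with _ | p
        · exact zero_sound u m0 k C rows hu hm0 hco hX hcells t ht x e h4 c h1 hc h3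
        · exact Or.inl (htwo t ht p.1 p.2 x e h4 c h1 hc)
      · exact ih g.1 y h5 c (by omega) h2 h3

theorem covOk_sound (u m0 k : ℕ) (C c0 P κ : F) (rows : List Row) (hu : 2 ≤ u) (hm0 : 1 ≤ m0)
    (hco : Nat.Coprime (m0 + k) u) {X : ℤ → Bool} (hX : Seq u (m0 + k) X)
    (hcells : ∀ t : ℕ, t < u → ∀ c : ℤ, c < ev k C →
      (X ((m0 + k : ℕ) * t + u * c) = true ↔ mem k (dec (rows.getD t (0, 0))) c))
    (hκC : fle κ C = true)
    (htwo : ∀ t : ℕ, t < u → ∀ (n code : ℕ) (x y : F),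
      cov u m0 rows t false c0 n code x y = true → ∀ c : ℤ, ev k x ≤ c → c < ev k y →
        Two X ((m0 + k : ℕ) * t + u * c))
    (hlate : ∀ t : ℕ, t < u → ∀ (n code : ℕ),
      cov u m0 rows t true c0 n code κ (fadd κ P) = true → ∀ c : ℤ, ev k κ ≤ c →
        Two X ((m0 + k : ℕ) * t + u * c))
    (t : ℕ) (ht : t < u) (x : F) (h : ∃ g l, covOk u m0 rows c0 P κ t x g l = true) (c : ℤ)
    (h1 : ev k x ≤ c) : Nz u (m0 + k) X t c := by
  obtain ⟨g, l, h⟩ := h
  unfold covOk at h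
  rw [Bool.and_eq_true] at h
  have h3 := ev_le k hκC
  by_cases hc : c < ev k κ
  · exact chain_sound u m0 k C c0 rows hu hm0 hco hX hcells htwo t ht g x κ h.1 c h1 hc
      (by omega)
  · exact Or.inl (hlate t ht l.1 l.2 h.2 c (by omega))

/-- membership by number of the interval -/
theorem mem_of_iv (k : ℕ) (rows : List Row) (i j : ℕ) (p : Iv)
    (hn : Nat.ble (j + 1) (rows.getD i (0, 0)).1 = true)
    (hp : iveq (ivl rows (i, j)) p = true) (c : ℤ) (h1 : ev k p.1 ≤ c) (h2 : c < ev k p.2) :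
    mem k (dec (rows.getD i (0, 0))) c := by
  rw [iveq_iff] at hp
  rw [Nat.ble_eq] at hn
  refine ⟨p, ?_, h1, h2⟩
  unfold dec
  rw [List.mem_map]
  exact ⟨j, List.mem_range.2 (by omega), hp⟩

end Sm

theorem good_of_checks (u m0 k : ℕ) (C c0 P κ : F) (rows : List Row) (hu : 7 ≤ u)
    (hodd : u % 2 = 1) (hm0 : 3 ≤ m0)
    (hco : Nat.Coprime (m0 + k) u) {X : ℤ → Bool} (hX : Seq u (m0 + k) X)
    (hcells : ∀ t : ℕ, t < u → ∀ c : ℤ, c < ev k C →
      (X ((m0 + k : ℕ) * t + u * c) = true ↔ mem k (dec (rows.getD t (0, 0))) c))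
    (hκ : fle (2 * m0 + 2, 2) κ = true) (hκC : fle κ C = true)
    (hsp : specOk u m0 rows = true)
    (htwo : ∀ t : ℕ, t < u → ∀ (n code : ℕ) (x y : F),
      cov u m0 rows t false c0 n code x y = true → ∀ c : ℤ, ev k x ≤ c → c < ev k y →
        Two X ((m0 + k : ℕ) * t + u * c))
    (hlate : ∀ t : ℕ, t < u → ∀ (n code : ℕ),
      cov u m0 rows t true c0 n code κ (fadd κ P) = true → ∀ c : ℤ, ev k κ ≤ c →
        Two X ((m0 + k : ℕ) * t + u * c))
    (h0 : ∃ g, chain u m0 rows 0 c0 g (0, 0) (2 * m0 + 1, 2) = true)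
    (hrow0 : ∃ g l, covOk u m0 rows c0 P κ 0 (2 * m0 + 2, 2) g l = true)
    (hrow1 : ∃ g l, covOk u m0 rows c0 P κ 1 (m0, 1) g l = true)
    (hrow2 : ∃ g l, covOk u m0 rows c0 P κ 2 (3, 0) g l = true)
    (hrow : ∀ t : ℕ, 3 ≤ t → t < u → ∃ g l, covOk u m0 rows c0 P κ t (0, 0) g l = true) :
    Good u (m0 + k) X := by
  have hu2 : 2 ≤ u := by omega
  have hm1 : 1 ≤ m0 := by omega
  have hκ1 := ev_le k hκ
  have hκ2 := ev_le k hκC
  have e2m2 := ev_2m m0 k 2
  have e2m1 := ev_2m m0 k 1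
  have em := ev_m m0 k
  have e0 : ev k (0, 0) = 0 := ev_nat 0 k
  have e1 : ev k (1, 0) = 1 := ev_nat 1 k
  have e3 : ev k (3, 0) = 3 := ev_nat 3 k
  have ept1 : ev k pt.1 = 0 := ev_nat 0 k
  have ept2 : ev k pt.2 = 1 := ev_nat 1 k
  have hm3 : (3 : ℤ) ≤ ((m0 + k : ℕ) : ℤ) := by
    push_cast
    omega
  have hu0 : (0 : ℤ) < u := by exact_mod_cast (by omega : 0 < u)
  unfold specOk at hsp
  simp only [Bool.and_eq_true] at hsp
  obtain ⟨⟨⟨⟨⟨⟨⟨⟨s1, s2⟩, s3⟩, s4⟩, s5⟩, s6⟩, s7⟩, s8⟩, s9⟩ := hsp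
  set m : ℕ := m0 + k with hm
  have hX0 : X 0 = true := hX.zero
  -- the cells of the first rows
  have hr1 : ∀ c : ℤ, 0 ≤ c → c < m → X (m * (1 : ℕ) + u * c) = true := by
    intro c hc1 hc2
    rw [hcells 1 (by omega) c (by omega)]
    exact mem_of_iv k rows 1 0 _ s4 s8 c (by rw [e0]; exact hc1) (by rw [em]; exact hc2)
  have hr0 : ∀ c : ℤ, (m : ℤ) ≤ c → c < 2 * m + 1 → X (m * (0 : ℕ) + u * c) = true := by
    intro c hc1 hc2
    rw [hcells 0 (by omega) c (by omega)]
    exact mem_of_iv k rows 0 1 _ s3 s7 c (by rw [em]; exact hc1)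
      (by rw [e2m1]; push_cast at hc2 ⊢; omega)
  have hr2 : X (m * (2 : ℕ) + u * 0) = true := by
    rw [hcells 2 (by omega) 0 (by omega)]
    exact mem_of_iv k rows 2 0 _ s5 s9 0 (by rw [ept1]) (by rw [ept2]; norm_num)
  refine ⟨?_, ?_, ?_, ?_⟩
  · -- o1
    intro c hc a
    constructor
    · intro ha
      have ha' : Rep X ((m : ℕ) * (1 : ℕ) + u * (c : ℤ)) a := by
        have e : ((m : ℕ) : ℤ) * (1 : ℕ) + u * (c : ℤ) = (m : ℤ) + u * c := by
          push_cast
          ring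
        rw [e]
        exact ha
      obtain ⟨s, s', A, B, ca, cb, _, _, hex, hca, hcb, hA1, hA2, hB1, hB2⟩ :=
        sum_sound u m0 k C rows hu2 hm1 hco hX hcells 1 (by omega) _ _ _ s1 (c : ℤ)
          (by rw [e0]; omega) (by rw [em]; exact_mod_cast hc)
          (by
            have : (c : ℤ) < m := by exact_mod_cast hc
            omega) a ha'
      simp only [Bool.or_eq_true, Bool.and_eq_true, beq_iff, iveq_iff] at hex
      rcases hex with ⟨rfl, rfl⟩ | ⟨rfl, rfl⟩
      · rw [ept1] at hA1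
        rw [ept2] at hA2
        have hca0 : ca = 0 := by omega
        rw [hca, hca0]
        simp
      · rw [ept1] at hB1
        rw [ept2] at hB2
        have hcb0 : cb = 0 := by omega
        rw [hcb0] at hcb
        simp only [Nat.cast_zero, mul_zero, add_zero] at hcb
        have h7 := ha'.2.2
        have h8 : (0 : ℤ) ≤ u * (c : ℤ) := by positivity
        push_cast at h7 hcb hm3
        omega
    · rintro rfl
      refine ⟨hX0, ?_, ?_⟩
      · have h5 := hr1 c (by omega) (by exact_mod_cast hc)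
        have e : ((m : ℕ) : ℤ) * (1 : ℕ) + u * (c : ℤ) = (m : ℤ) + u * c - 0 := by
          push_cast
          ring
        rw [e] at h5
        exact h5
      · have h8 : (0 : ℤ) ≤ u * (c : ℤ) := by positivity
        omega
  · -- o2
    intro a
    constructor
    · intro ha
      have ha' : Rep X ((m : ℕ) * (0 : ℕ) + u * (2 * (m : ℤ) + 1)) a := by
        have e : ((m : ℕ) : ℤ) * (0 : ℕ) + u * (2 * (m : ℤ) + 1) = (u : ℤ) * (2 * m + 1) := by
          push_cast
          ring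
        rw [e]
        exact ha
      obtain ⟨s, s', A, B, ca, cb, _, _, hex, hca, hcb, hA1, hA2, hB1, hB2⟩ :=
        sum_sound u m0 k C rows hu2 hm1 hco hX hcells 0 (by omega) _ _ _ s2 (2 * (m : ℤ) + 1)
          (by rw [e2m1]; push_cast; omega) (by rw [e2m2]; push_cast; omega)
          (by rw [e2m2] at hκ1; push_cast at hκ1 ⊢; omega) a ha'
      simp only [Bool.and_eq_true, beq_iff, iveq_iff] at hex
      obtain ⟨⟨⟨rfl, rfl⟩, rfl⟩, rfl⟩ := hex
      rw [em] at hA1 hB1
      simp only [Nat.cast_zero, mul_zero, zero_add] at hca hcb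
      have h7 := ha'.2.2
      simp only [Nat.cast_zero, mul_zero, zero_add] at h7
      have h9 : 2 * ca < 2 * (m : ℤ) + 1 := by
        apply lt_of_mul_lt_mul_left _ hu0.le
        rw [hca] at h7
        linarith
      have hca0 : ca = m := by omega
      rw [hca, hca0]
    · rintro rfl
      refine ⟨?_, ?_, ?_⟩
      · have h5 := hr0 m le_rfl (by omega)
        simpa using h5
      · have h5 := hr0 (m + 1) (by omega) (by omega)
        have e : ((m : ℕ) : ℤ) * (0 : ℕ) + u * ((m : ℤ) + 1) = (u : ℤ) * (2 * m + 1) - u * m := by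
          push_cast
          ring
        rw [e] at h5
        exact h5
      · have h8 : (u : ℤ) * (2 * m + 1) = 2 * (u * m) + u := by ring
        rw [h8]
        omega
  · -- t2
    intro c hc
    have hc' : c = 0 ∨ c = 1 ∨ c = 2 := by omega
    rcases hc' with rfl | rfl | rfl
    · refine ⟨0, hX0, ?_, ?_⟩
      · have e : ((m : ℕ) : ℤ) * (2 : ℕ) + u * 0 = 2 * (m : ℤ) + u * ((0 : ℕ) : ℤ) - 0 := by
          push_cast
          ring
        rw [e] at hr2
        exact hr2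
      · push_cast
        omega
    · refine ⟨m, ?_, ?_, ?_⟩
      · have h5 := hr1 0 le_rfl (by omega)
        simpa using h5
      · have h5 := hr1 1 (by omega) (by omega)
        have e : ((m : ℕ) : ℤ) * (1 : ℕ) + u * 1 = 2 * (m : ℤ) + u * ((1 : ℕ) : ℤ) - m := by
          push_cast
          ring
        rw [e] at h5
        exact h5
      · push_cast
        omega
    · refine ⟨m, ?_, ?_, ?_⟩
      · have h5 := hr1 0 le_rfl (by omega)
        simpa using h5
      · have h5 := hr1 2 (by omega) (by omega)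
        have e : ((m : ℕ) : ℤ) * (1 : ℕ) + u * 2 = 2 * (m : ℤ) + u * ((2 : ℕ) : ℤ) - m := by
          push_cast
          ring
        rw [e] at h5
        exact h5
      · push_cast
        omega
  · -- nz
    intro t c ht ht0 ht1 ht2
    have key : Nz u m X t (c : ℤ) := by
      have hcov := fun (x : F) (h : ∃ g l, covOk u m0 rows c0 P κ t x g l = true)
        (h1 : ev k x ≤ (c : ℤ)) => covOk_sound u m0 k C c0 P κ rows hu2 hm1 hco hX hcells hκC htwo
          hlate t ht x h (c : ℤ) h1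
      have hcases : t = 0 ∨ t = 1 ∨ t = 2 ∨ 3 ≤ t := by omega
      rcases hcases with h | h | h | h
      · subst h
        by_cases hc : c < 2 * m + 1
        · obtain ⟨g, hg⟩ := h0
          refine chain_sound u m0 k C c0 rows hu2 hm1 hco hX hcells htwo 0 ht g _ _ hg (c : ℤ)
            (by rw [e0]; omega) (by rw [e2m1]; push_cast; omega) (by omega)
        · have h5 := ht0 rfl
          exact hcov _ hrow0 (by rw [e2m2]; push_cast; omega)
      · subst h
        exact hcov _ hrow1 (by rw [em]; exact_mod_cast ht1 rfl)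
      · subst h
        exact hcov _ hrow2 (by rw [e3]; exact_mod_cast ht2 rfl)
      · exact hcov _ (hrow t h ht) (by rw [e0]; omega)
    unfold Nz at key
    rcases key with key | ⟨k1, k2, k3⟩
    · exact Or.inl key
    · refine Or.inr ⟨k1, fun h => ?_, k3⟩
      have := k2 h
      omega

end Pool.Agent.H65.CE
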