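import Pool.Agent.H65.CE.Cells2
import Pool.Agent.H65.CE.Per
import Pool.Agent.H65.CE.Cov
import Pool.Agent.H65.CE.Sums

/-!
# Assembly of the symbolic part
-/

set_option autoImplicit false

namespace Pool.Agent.H65.CE

theorem ivs_of_rowOk {u m0 : ℕ} {C : F} {rows : List Row} {t : ℕ}
    (h : rowOk u m0 C rows t = true) : ivs C (dec (rows.getD t (0, 0))) = true := by
  unfold rowOk at h
  simp only [Bool.and_eq_true] at h
  exact h.1

theorem good_of_all {u m0 k : ℕ} {C c0 P κ : F} {rows : List Row} (hu : 7 ≤ u)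
    (hodd : u % 2 = 1) (hm0 : 3 ≤ m0) (hco : Nat.Coprime (m0 + k) u) {X : ℤ → Bool}
    (hX : Seq u (m0 + k) X)
    (hC : fle (fadd (fadd c0 P) (2 * m0 + 2, 2)) C = true) (hP : fle (1, 0) P = true)
    (hc0 : fle (2 * m0 + 2, 2) c0 = true)
    (hκ : fle (2 * m0 + 2, 2) κ = true) (hκC : fle κ C = true)
    (hr : ∀ t < u, rowOk u m0 C rows t = true)
    (hp : ∀ t < u, perOk m0 c0 P (dec (rows.getD t (0, 0))) = true)
    (hsp : specOk u m0 rows = true)
    (h0 : ∃ g, chain u m0 rows 0 c0 g (0, 0) (2 * m0 + 1, 2) = true)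
    (hrow0 : ∃ g l, covOk u m0 rows c0 P κ 0 (2 * m0 + 2, 2) g l = true)
    (hrow1 : ∃ g l, covOk u m0 rows c0 P κ 1 (m0, 1) g l = true)
    (hrow2 : ∃ g l, covOk u m0 rows c0 P κ 2 (3, 0) g l = true)
    (hrow : ∀ t : ℕ, 3 ≤ t → t < u → ∃ g l, covOk u m0 rows c0 P κ t (0, 0) g l = true) :
    Good u (m0 + k) X := by
  have hcells : ∀ t : ℕ, t < u → ∀ c : ℤ, c < ev k C →
      (X ((m0 + k : ℕ) * t + u * c) = true ↔ mem k (dec (rows.getD t (0, 0))) c) :=
    fun t ht c hc => cells u m0 k C rows (by omega) (by omega) hco hX hr t ht c hc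
  have hiv : ∀ t < u, ivs C (dec (rows.getD t (0, 0))) = true :=
    fun t ht => ivs_of_rowOk (hr t ht)
  have hper : ∀ t : ℕ, t < u → ∀ c : ℤ, ev k c0 ≤ c →
      X ((m0 + k : ℕ) * t + u * (c + ev k P)) = X ((m0 + k : ℕ) * t + u * c) :=
    fun t ht c hc => periodic u m0 k C c0 P rows (by omega) (by omega) hco hX hcells hC hP hc0
      hp t ht c hc
  exact good_of_checks u m0 k C c0 P κ rows hu hodd hm0 hco hX hcells hκ hκC hsp
    (fun t ht n code x y h c h1 h2 => two_of_cov u m0 k C c0 P κ rows (by omega) (by omega) hco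
      hcells hiv t ht n code x y h c h1 h2)
    (fun t ht n code h c h1 => two_of_late u m0 k C c0 P κ rows (by omega) (by omega) hco
      hcells hiv hper hP t ht n code h c h1) h0 hrow0 hrow1 hrow2 hrow

end Pool.Agent.H65.CE
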