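/-!
# The bit engine for a single pair `u`, `m`, evaluated with shifts

`X` is a natural number whose bits are the first `N` values of the sequence.
-/

set_option autoImplicit false

namespace Pool.Agent.H65.CE

namespace Fast

def sl (x a : Nat) : Nat := Nat.shiftLeft x a

def sr (x a : Nat) : Nat := Nat.shiftRight x a

/-- at least one, at least two -/
def addm (p : Nat × Nat) (w : Nat) : Nat × Nat := (Nat.lor p.1 w, Nat.lor p.2 (Nat.land p.1 w))

/-- `X.testBit a` -/
def tb (X a : Nat) : Bool := Nat.beq (sr X a % 2) 1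

def ruleAcc (u m X : Nat) : Nat → Nat × Nat
  | 0 => (0, 0)
  | j + 1 => addm (ruleAcc u m X j) (sl X (m + j * u))

/-- The first `N` bits of `X` follow the rule. -/
def ruleBits (u m N X : Nat) : Bool :=
  (fun p : Nat × Nat => Nat.beq (Nat.xor p.1 p.2 % sl 1 N + 1) X)
    (addm (ruleAcc u m X (m + 1)) (sl X ((2 * m + 2) * u)))

/-- Period `P` from `n0` on. -/
def perBits (u m N X n0 P : Nat) : Bool :=
  Nat.ble (n0 + P + (2 * m + 2) * u) N && Nat.ble 1 P &&
  Nat.beq (sr X (n0 + P)) (sr X n0 % sl 1 (N - P - n0))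

def covAcc (X Y : Nat) : Nat → Nat × Nat
  | 0 => (0, 0)
  | a + 1 => bif tb X a then addm (covAcc X Y a) (sl Y a) else covAcc X Y a

/-- Two pairs `a < θ ≤ K - a` for every `K` in `[k0, n0 + θ + P)`. -/
def covBits (N X n0 P θ k0 : Nat) : Bool :=
  Nat.ble (n0 + θ + P) N && Nat.ble k0 (n0 + θ) &&
  (fun p : Nat × Nat => Nat.beq (sr p.2 k0 % sl 1 (n0 + θ + P - k0) + 1) (sl 1 (n0 + θ + P - k0)))
    (covAcc (X % sl 1 θ) (sl (sr X θ) θ) θ)

def pairAcc (X k0 : Nat) : Nat → Nat × Nat
  | 0 => (0, 0)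
  | a + 1 => bif tb X a then
      addm (pairAcc X k0 a) (sl (sr X (a + 1)) (2 * a + 1) % sl 1 k0)
      else pairAcc X k0 a

/-- The pairs with sum below `k0`; `o` at least one, `e` exactly one. -/
def earlyChk (u m k0 o e : Nat) : Bool :=
  ((List.range m).all fun c => tb e (m + u * c)) && tb e ((2 * m + 1) * u) &&
  tb o (2 * m) && tb o (2 * m + u) && tb o (2 * m + 2 * u) &&
  ((List.range k0).all fun K => !tb e K ||
    (Nat.beq (K % u) (m % u) && Nat.ble m K && Nat.ble (K + 1) (m + u * m)) ||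
    Nat.beq K ((2 * m + 1) * u) || Nat.beq K (2 * m) || Nat.beq K (2 * m + u) ||
    Nat.beq K (2 * m + 2 * u)) &&
  ((List.range k0).all fun c => Nat.ble (k0) (m + u * (m + c)) || tb o (m + u * (m + c))) &&
  ((List.range (2 * m)).all fun c => Nat.ble k0 (2 * m + u * (c + 3)) ||
    Nat.ble (2 * m) (c + 4) || tb o (2 * m + u * (c + 3)))

def earlyBits (u m X k0 : Nat) : Bool :=
  Nat.ble ((2 * m + 1) * u + 2 * m + 1) k0 && ((List.range m).all fun c => tb X (m + u * c)) &&
  tb X (u * m) && tb X (u * m + u) &&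
  (fun p : Nat × Nat => earlyChk u m k0 p.1 (Nat.xor p.1 p.2)) (pairAcc (X % sl 1 k0) k0 (k0 / 2 + 1))

/-- A number from its digits in base `2 ^ w`, lowest digit first. -/
def cat (w : Nat) : List Nat → Nat
  | [] => 0
  | x :: l => sl (cat w l) w + x

/-- All checks for one pair. -/
def bitsOk (u m N X n0 P θ k0 : Nat) : Bool :=
  ruleBits u m N X && perBits u m N X n0 P && covBits N X n0 P θ k0 && earlyBits u m X k0

end Fast

end Pool.Agent.H65.CE
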