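import Pool.Agent.H65.CE.BitDefs

/-!
# Soundness of the bit engine (job J5)
-/

set_option autoImplicit false

namespace Pool.Agent.H65.CE

namespace Bi

/-! ## Counting masks -/

/-- the pair `p` records the bits with count at least one and at least two -/
def Cnt (p : ℕ × ℕ) (c : ℕ → ℕ) : Prop :=
  ∀ n, p.1.testBit n = decide (1 ≤ c n) ∧ p.2.testBit n = decide (2 ≤ c n)

theorem cnt_zero : Cnt (0, 0) (fun _ => 0) := by
  intro n
  simp

theorem cnt_addm {p : ℕ × ℕ} {c : ℕ → ℕ} (h : Cnt p c) (w : ℕ) :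
    Cnt (addm p w) (fun n => c n + (w.testBit n).toNat) := by
  intro n
  obtain ⟨h1, h2⟩ := h n
  have e1 : (addm p w).1 = p.1 ||| w := rfl
  have e2 : (addm p w).2 = p.2 ||| (p.1 &&& w) := rfl
  rw [e1, e2, Nat.testBit_or, Nat.testBit_or, Nat.testBit_and, h1, h2]
  show _ = decide (1 ≤ c n + (w.testBit n).toNat) ∧ _ = decide (2 ≤ c n + (w.testBit n).toNat)
  generalize w.testBit n = b
  cases b with
  | false => simp
  | true =>
    simp only [Bool.or_true, Bool.and_true, Bool.toNat_true]
    constructor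
    · simp
    · by_cases h3 : 1 ≤ c n
      · simp [h3]
      · have h5 : ¬ 2 ≤ c n := by omega
        simp [h3, h5]

theorem tb_eq (X a : ℕ) : tb X a = X.testBit a := by
  unfold tb
  rw [Nat.testBit_eq_decide_div_mod_eq, Bool.eq_iff_iff, Nat.beq_eq, decide_eq_true_iff]

theorem card_succ (p : ℕ → Bool) (k : ℕ) :
    ((Finset.range (k + 1)).filter (fun a => p a = true)).card =
      ((Finset.range k).filter (fun a => p a = true)).card + (p k).toNat := by
  rw [Finset.range_add_one, Finset.filter_insert]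
  cases h : p k with
  | true =>
    rw [if_pos rfl, Finset.card_insert_of_notMem, Bool.toNat_true]
    intro h2
    exact absurd (Finset.mem_range.1 (Finset.mem_filter.1 h2).1) (lt_irrefl k)
  | false =>
    rw [if_neg (by decide), Bool.toNat_false, add_zero]

theorem ruleAcc_cnt (u m X : ℕ) : ∀ k : ℕ, Cnt (ruleAcc u m X k)
    (fun n => ∑ j ∈ Finset.range k, ((X * 2 ^ (m + j * u)).testBit n).toNat)
  | 0 => by
    show Cnt (0, 0) _
    have : (fun n : ℕ => ∑ j ∈ Finset.range 0, ((X * 2 ^ (m + j * u)).testBit n).toNat) =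
        fun _ => 0 := by
      funext n
      simp
    rw [this]
    exact cnt_zero
  | k + 1 => by
    have h := cnt_addm (ruleAcc_cnt u m X k) (X * 2 ^ (m + k * u))
    show Cnt (addm (ruleAcc u m X k) (X * 2 ^ (m + k * u))) _
    have e : (fun n : ℕ => ∑ j ∈ Finset.range (k + 1), ((X * 2 ^ (m + j * u)).testBit n).toNat) =
        fun n => (∑ j ∈ Finset.range k, ((X * 2 ^ (m + j * u)).testBit n).toNat) +
          ((X * 2 ^ (m + k * u)).testBit n).toNat := by
      funext n
      rw [Finset.sum_range_succ]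
    rw [e]
    exact h

theorem covAcc_cnt (X Y : ℕ) : ∀ k : ℕ, Cnt (covAcc X Y k)
    (fun n => ((Finset.range k).filter (fun a =>
      (X.testBit a && (Y * 2 ^ a).testBit n) = true)).card)
  | 0 => by
    show Cnt (0, 0) _
    have : (fun n : ℕ => ((Finset.range 0).filter (fun a =>
      (X.testBit a && (Y * 2 ^ a).testBit n) = true)).card) = fun _ => 0 := by
      funext n
      simp
    rw [this]
    exact cnt_zero
  | k + 1 => by
    have ih := covAcc_cnt X Y k
    have e : (fun n : ℕ => ((Finset.range (k + 1)).filter (fun a =>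
        (X.testBit a && (Y * 2 ^ a).testBit n) = true)).card) =
        fun n => ((Finset.range k).filter (fun a =>
        (X.testBit a && (Y * 2 ^ a).testBit n) = true)).card +
          (X.testBit k && (Y * 2 ^ k).testBit n).toNat := by
      funext n
      exact card_succ (fun a => X.testBit a && (Y * 2 ^ a).testBit n) k
    rw [e]
    show Cnt (bif tb X k then addm (covAcc X Y k) (Y * 2 ^ k) else covAcc X Y k) _
    rw [tb_eq]
    cases h : X.testBit k with
    | true =>
      simp only [cond_true, Bool.true_and]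
      exact cnt_addm ih _
    | false =>
      simp only [cond_false, Bool.false_and, Bool.toNat_false, add_zero]
      exact ih

theorem pairAcc_cnt (X k0 : ℕ) : ∀ k : ℕ, Cnt (pairAcc X k0 k)
    (fun n => ((Finset.range k).filter (fun a =>
      (X.testBit a && (X / 2 ^ (a + 1) * 2 ^ (2 * a + 1) % 2 ^ k0).testBit n) = true)).card)
  | 0 => by
    show Cnt (0, 0) _
    have : (fun n : ℕ => ((Finset.range 0).filter (fun a =>
      (X.testBit a && (X / 2 ^ (a + 1) * 2 ^ (2 * a + 1) % 2 ^ k0).testBit n) = true)).card) =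
        fun _ => 0 := by
      funext n
      simp
    rw [this]
    exact cnt_zero
  | k + 1 => by
    have ih := pairAcc_cnt X k0 k
    have e : (fun n : ℕ => ((Finset.range (k + 1)).filter (fun a =>
        (X.testBit a && (X / 2 ^ (a + 1) * 2 ^ (2 * a + 1) % 2 ^ k0).testBit n) = true)).card) =
        fun n => ((Finset.range k).filter (fun a =>
        (X.testBit a && (X / 2 ^ (a + 1) * 2 ^ (2 * a + 1) % 2 ^ k0).testBit n) = true)).card +
          (X.testBit k && (X / 2 ^ (k + 1) * 2 ^ (2 * k + 1) % 2 ^ k0).testBit n).toNat := by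
      funext n
      exact card_succ (fun a => X.testBit a &&
        (X / 2 ^ (a + 1) * 2 ^ (2 * a + 1) % 2 ^ k0).testBit n) k
    rw [e]
    show Cnt (bif tb X k then addm (pairAcc X k0 k) (X / 2 ^ (k + 1) * 2 ^ (2 * k + 1) % 2 ^ k0)
      else pairAcc X k0 k) _
    rw [tb_eq]
    cases h : X.testBit k with
    | true =>
      simp only [cond_true, Bool.true_and]
      exact cnt_addm ih _
    | false =>
      simp only [cond_false, Bool.false_and, Bool.toNat_false, add_zero]
      exact ih

/-! ## The bits of `Z` are the sequence -/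

theorem bool_eq {a b : Bool} (h : a = true ↔ b = true) : a = b := by
  cases a <;> cases b <;> simp_all

theorem bits_of_rule (u m N Z : ℕ) (hu : 1 ≤ u) (hm : 1 ≤ m) (h : ruleBits u m N Z = true) (X : ℤ → Bool)
    (hX : Seq u m X) : ∀ n : ℕ, n < N → Z.testBit n = X n := by
  unfold ruleBits at h
  set p := addm (ruleAcc u m Z (m + 1)) (Z * 2 ^ ((2 * m + 2) * u)) with hp
  have hZ : Nat.xor p.1 p.2 % 2 ^ N + 1 = Z := by
    simpa [Nat.beq_eq] using h
  have hx : Nat.xor p.1 p.2 = p.1 ^^^ p.2 := rfl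
  rw [hx] at hZ
  have hc := cnt_addm (ruleAcc_cnt u m Z (m + 1)) (Z * 2 ^ ((2 * m + 2) * u))
  rw [← hp] at hc
  -- the count at `n`
  set c : ℕ → ℕ := fun n => (∑ j ∈ Finset.range (m + 1), ((Z * 2 ^ (m + j * u)).testBit n).toNat) +
    ((Z * 2 ^ ((2 * m + 2) * u)).testBit n).toNat with hcdef
  have hxb : ∀ n, (p.1 ^^^ p.2).testBit n = decide (c n = 1) := by
    intro n
    obtain ⟨h1, h2⟩ := hc n
    rw [Nat.testBit_xor, h1, h2]
    by_cases h3 : 1 ≤ c n
    · by_cases h4 : 2 ≤ c n
      · have h5 : ¬ c n = 1 := by omega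
        simp [h3, h4, h5]
      · have h5 : c n = 1 := by omega
        simp [h5]
    · have h4 : ¬ 2 ≤ c n := by omega
      have h5 : ¬ c n = 1 := by omega
      simp [h3, h4, h5]
  have hmask0 : ∀ i : ℕ, 1 ≤ i → (Z * 2 ^ i).testBit 0 = false := by
    intro i hi
    rw [Nat.testBit_mul_two_pow]
    have h2 : ¬ i ≤ 0 := by omega
    simp [h2]
  have hpos : 1 ≤ (2 * m + 2) * u := Nat.mul_pos (by omega) hu
  have hc0 : c 0 = 0 := by
    show (∑ j ∈ Finset.range (m + 1), ((Z * 2 ^ (m + j * u)).testBit 0).toNat) +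
      ((Z * 2 ^ ((2 * m + 2) * u)).testBit 0).toNat = 0
    rw [hmask0 _ hpos, Bool.toNat_false, add_zero]
    apply Finset.sum_eq_zero
    intro j _
    rw [hmask0 _ (by omega), Bool.toNat_false]
  have hq0 : (p.1 ^^^ p.2).testBit 0 = false := by
    rw [hxb, hc0]
    decide
  have hr0 : ((p.1 ^^^ p.2) % 2 ^ N) % 2 = 0 := by
    rw [Nat.mod_two_eq_zero_iff_testBit_zero, Nat.testBit_mod_two_pow, hq0, Bool.and_false]
  intro n
  induction n using Nat.strong_induction_on with
  | _ n ih =>
    intro hn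
    rcases Nat.eq_zero_or_pos n with h0 | h0
    · subst h0
      have e : X ((0 : ℕ) : ℤ) = true := hX.zero
      rw [e, ← Nat.mod_two_eq_one_iff_testBit_zero]
      omega
    · obtain ⟨k, rfl⟩ : ∃ k, n = k + 1 := ⟨n - 1, by omega⟩
      have e1 : Z.testBit (k + 1) = decide (c (k + 1) = 1) := by
        rw [← hxb, Nat.testBit_add_one, ← hZ]
        have e2 : ((p.1 ^^^ p.2) % 2 ^ N + 1) / 2 = ((p.1 ^^^ p.2) % 2 ^ N) / 2 := by omega
        rw [e2, ← Nat.testBit_add_one, Nat.testBit_mod_two_pow]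
        simp [hn]
      have hmask : ∀ i : ℕ, 1 ≤ i → (Z * 2 ^ i).testBit (k + 1) =
          X (((k + 1 : ℕ) : ℤ) - (i : ℕ)) := by
        intro i hi
        rw [Nat.testBit_mul_two_pow]
        by_cases h2 : i ≤ k + 1
        · rw [ih (k + 1 - i) (by omega) (by omega)]
          simp only [h2, decide_true, Bool.true_and]
          congr 1
          push_cast [h2]
          ring
        · have h3 : X (((k + 1 : ℕ) : ℤ) - (i : ℕ)) = false := hX.neg _ (by
            push Not at h2
            have : ((k + 1 : ℕ) : ℤ) < (i : ℕ) := by exact_mod_cast h2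
            linarith)
          rw [h3]
          simp [h2]
      have e3 : c (k + 1) = num u m X ((k + 1 : ℕ) : ℤ) := by
        show (∑ j ∈ Finset.range (m + 1), ((Z * 2 ^ (m + j * u)).testBit (k + 1)).toNat) +
          ((Z * 2 ^ ((2 * m + 2) * u)).testBit (k + 1)).toNat = _
        unfold num
        rw [hmask _ hpos]
        congr 1
        apply Finset.sum_congr rfl
        intro j _
        rw [hmask _ (by omega)]
        congr 2
        push_cast
        ring
      apply bool_eq
      rw [e1, e3, decide_eq_true_iff]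
      exact (hX.rule _ (by positivity)).symm

/-! ## Periodicity -/

theorem per_of_bits (u m N Z n0 P : ℕ) (hu : 1 ≤ u) (hm : 1 ≤ m) (h : perBits u m N Z n0 P = true)
    (X : ℤ → Bool) (hX : Seq u m X) (hb : ∀ n : ℕ, n < N → Z.testBit n = X n) :
    ∀ n : ℕ, n0 ≤ n → X ((n + P : ℕ) : ℤ) = X n := by
  unfold perBits at h
  rw [Bool.and_eq_true, Bool.and_eq_true, Nat.ble_eq, Nat.ble_eq, Nat.beq_eq] at h
  obtain ⟨⟨h1, h2⟩, h3⟩ := h
  have base : ∀ i : ℕ, i < N - P - n0 → X ((n0 + i + P : ℕ) : ℤ) = X (n0 + i : ℕ) := by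
    intro i hi
    rw [← hb _ (by omega), ← hb _ (by omega)]
    have e1 : Z.testBit (n0 + i + P) = (Z / 2 ^ (n0 + P)).testBit i := by
      rw [Nat.testBit_div_two_pow]
      congr 1
      omega
    have e2 : Z.testBit (n0 + i) = (Z / 2 ^ n0).testBit i := by
      rw [Nat.testBit_div_two_pow]
      congr 1
      omega
    rw [e1, e2, h3, Nat.testBit_mod_two_pow]
    simp [hi]
  intro n
  induction n using Nat.strong_induction_on with
  | _ n ih =>
    intro hn
    by_cases h4 : n < n0 + (2 * m + 2) * u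
    · obtain ⟨i, rfl⟩ : ∃ i, n = n0 + i := ⟨n - n0, by omega⟩
      exact base i (by omega)
    · have h5 : n0 + (2 * m + 2) * u ≤ n := not_lt.1 h4
      have h6 : 1 ≤ (2 * m + 2) * u := Nat.mul_pos (by omega) hu
      have shift : ∀ i : ℕ, 1 ≤ i → i ≤ (2 * m + 2) * u →
          X (((n + P : ℕ) : ℤ) - i) = X ((n : ℤ) - i) := by
        intro i hi1 hi2
        have e1 : ((n + P : ℕ) : ℤ) - i = ((n - i + P : ℕ) : ℤ) := by
          have : i ≤ n := by omega
          push_cast [this]
          ring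
        have e2 : (n : ℤ) - i = ((n - i : ℕ) : ℤ) := by
          have : i ≤ n := by omega
          push_cast [this]
          ring
        rw [e1, e2]
        exact ih (n - i) (by omega) (by omega)
      apply bool_eq
      rw [hX.rule _ (by exact_mod_cast (by omega : 0 < n + P)),
        hX.rule _ (by exact_mod_cast (by omega : 0 < n))]
      have hnum : num u m X ((n + P : ℕ) : ℤ) = num u m X (n : ℤ) := by
        unfold num
        congr 1
        · apply Finset.sum_congr rfl
          intro j hj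
          have hj' : j ≤ m := Nat.lt_succ_iff.1 (Finset.mem_range.1 hj)
          congr 1
          have h7 := shift (m + j * u) (by omega) (by nlinarith)
          push_cast at h7 ⊢
          rw [show (n : ℤ) + P - m - j * u = n + P - (m + j * u) by ring, h7]
          congr 1
          ring
        · congr 1
          have h7 := shift ((2 * m + 2) * u) h6 le_rfl
          push_cast at h7 ⊢
          exact h7
      rw [hnum]

theorem per_iter {X : ℤ → Bool} {n0 P : ℕ}
    (h : ∀ n : ℕ, n0 ≤ n → X ((n + P : ℕ) : ℤ) = X n) (n : ℕ) (hn : n0 ≤ n) :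
    ∀ j : ℕ, X ((n + j * P : ℕ) : ℤ) = X n
  | 0 => by rw [zero_mul, add_zero]
  | j + 1 => by
    rw [← per_iter h n hn j, ← h (n + j * P) (by omega)]
    congr 2
    ring

/-! ## Late pairs -/

theorem two_late (N Z n0 P θ k0 : ℕ) (h : covBits N Z n0 P θ k0 = true) (hP : 1 ≤ P)
    (X : ℤ → Bool) (hb : ∀ n : ℕ, n < N → Z.testBit n = X n)
    (hper : ∀ n : ℕ, n0 ≤ n → X ((n + P : ℕ) : ℤ) = X n) (K : ℕ) (hK : k0 ≤ K) :
    Two X K := by
  unfold covBits at h
  set p := covAcc Z (Z / 2 ^ θ * 2 ^ θ) θ with hp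
  simp only [Bool.and_eq_true, Nat.ble_eq, Nat.beq_eq] at h
  obtain ⟨⟨h1, h2⟩, h3⟩ := h
  have hc := covAcc_cnt Z (Z / 2 ^ θ * 2 ^ θ) θ
  rw [← hp] at hc
  -- the window
  have window : ∀ K : ℕ, k0 ≤ K → K < n0 + θ + P → ∃ a b : ℕ, a ≠ b ∧ a < θ ∧ b < θ ∧
      X a = true ∧ X b = true ∧ θ ≤ K - a ∧ a ≤ K ∧ θ ≤ K - b ∧ b ≤ K ∧
      X ((K - a : ℕ) : ℤ) = true ∧ X ((K - b : ℕ) : ℤ) = true := by
    intro K h4 h5
    have h6 : p.2.testBit K = true := by
      have e1 : p.2.testBit K = (p.2 / 2 ^ k0).testBit (K - k0) := by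
        rw [Nat.testBit_div_two_pow]
        congr 1
        omega
      have e2 : (p.2 / 2 ^ k0).testBit (K - k0) =
          (p.2 / 2 ^ k0 % 2 ^ (n0 + θ + P - k0)).testBit (K - k0) := by
        rw [Nat.testBit_mod_two_pow]
        have : K - k0 < n0 + θ + P - k0 := by omega
        simp [this]
      have e3 : p.2 / 2 ^ k0 % 2 ^ (n0 + θ + P - k0) = 2 ^ (n0 + θ + P - k0) - 1 := by omega
      rw [e1, e2, e3, Nat.testBit_two_pow_sub_one]
      have : K - k0 < n0 + θ + P - k0 := by omega
      simp [this]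
    rw [(hc K).2, decide_eq_true_iff] at h6
    obtain ⟨a, ha, b, hb', hab⟩ := Finset.one_lt_card.1 h6
    have key : ∀ a : ℕ, a ∈ (Finset.range θ).filter (fun a =>
        (Z.testBit a && (Z / 2 ^ θ * 2 ^ θ * 2 ^ a).testBit K) = true) →
        a < θ ∧ X a = true ∧ θ ≤ K - a ∧ a ≤ K ∧ X ((K - a : ℕ) : ℤ) = true := by
      intro a ha
      obtain ⟨h7, h8⟩ := Finset.mem_filter.1 ha
      rw [Finset.mem_range] at h7
      rw [Bool.and_eq_true, Nat.testBit_mul_two_pow, Nat.testBit_mul_two_pow,
        Nat.testBit_div_two_pow, Bool.and_eq_true, Bool.and_eq_true, decide_eq_true_iff,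
        decide_eq_true_iff] at h8
      obtain ⟨h9, h10, h11, h12⟩ := h8
      rw [hb _ (by omega)] at h9
      have e4 : K - a - θ + θ = K - a := by omega
      rw [e4, hb _ (by omega)] at h12
      exact ⟨h7, h9, h11, h10, h12⟩
    obtain ⟨a1, a2, a3, a4, a5⟩ := key a ha
    obtain ⟨b1, b2, b3, b4, b5⟩ := key b hb'
    exact ⟨a, b, hab, a1, b1, a2, b2, a3, a4, b3, b4, a5, b5⟩
  -- reduction to the window
  obtain ⟨K', j, h4, h5, h6, h7⟩ : ∃ K' j : ℕ, k0 ≤ K' ∧ K' < n0 + θ + P ∧ K = K' + j * P ∧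
      (j = 0 ∨ n0 + θ ≤ K') := by
    by_cases h8 : K < n0 + θ + P
    · exact ⟨K, 0, hK, h8, by omega, Or.inl rfl⟩
    · refine ⟨n0 + θ + (K - (n0 + θ)) % P, (K - (n0 + θ)) / P, ?_, ?_, ?_, Or.inr ?_⟩
      · omega
      · have := Nat.mod_lt (K - (n0 + θ)) (by omega : P > 0)
        omega
      · have h9 := Nat.div_add_mod (K - (n0 + θ)) P
        rw [mul_comm ((K - (n0 + θ)) / P) P]
        omega
      · omega
  obtain ⟨a, b, hab, a1, b1, a2, b2, a3, a4, b3, b4, a5, b5⟩ := window K' h4 h5
  have rep : ∀ a : ℕ, a < θ → X a = true → θ ≤ K' - a → a ≤ K' → X ((K' - a : ℕ) : ℤ) = true →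
      Rep X K a := by
    intro a a1 a2 a3 a4 a5
    refine ⟨a2, ?_, ?_⟩
    · have e1 : (K : ℤ) - a = ((K' - a + j * P : ℕ) : ℤ) := by
        rw [h6]
        push_cast [a4]
        ring
      rw [e1]
      rcases h7 with h7 | h7
      · rw [h7, zero_mul, add_zero]
        exact a5
      · rw [per_iter hper (K' - a) (by omega) j]
        exact a5
    · have h8 : 2 * a < K := by
        have : 0 ≤ j * P := Nat.zero_le _
        omega
      exact_mod_cast h8
  exact ⟨a, b, by exact_mod_cast hab, rep a a1 a2 a3 a4 a5, rep b b1 b2 b3 b4 b5⟩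

/-! ## Early pairs -/

/-- the pairs with sum `K` -/
def prs (Z k0 K : ℕ) : Finset ℕ :=
  (Finset.range (k0 / 2 + 1)).filter (fun a => (Z.testBit a &&
    (Z / 2 ^ (a + 1) * 2 ^ (2 * a + 1) % 2 ^ k0).testBit K) = true)

theorem mem_prs (N Z k0 K : ℕ) (hN : k0 ≤ N) (X : ℤ → Bool)
    (hb : ∀ n : ℕ, n < N → Z.testBit n = X n) (hK : K < k0) (a : ℕ) :
    a ∈ prs (Z % 2 ^ k0) k0 K ↔ Rep X K a := by
  unfold prs
  rw [Finset.mem_filter, Finset.mem_range, Bool.and_eq_true, Nat.testBit_mod_two_pow,
    Nat.testBit_mod_two_pow, Nat.testBit_mul_two_pow, Nat.testBit_div_two_pow,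
    Nat.testBit_mod_two_pow]
  simp only [Bool.and_eq_true, decide_eq_true_iff]
  constructor
  · rintro ⟨h1, ⟨h2, h3⟩, h4, h5, h6, h7⟩
    have e : K - (2 * a + 1) + (a + 1) = K - a := by omega
    rw [e] at h7
    rw [hb _ (by omega)] at h3 h7
    refine ⟨h3, ?_, ?_⟩
    · have e2 : (K : ℤ) - a = ((K - a : ℕ) : ℤ) := by
        have : a ≤ K := by omega
        push_cast [this]
        ring
      rw [e2]
      exact h7
    · have : 2 * a < K := by omega
      exact_mod_cast this
  · rintro ⟨h1, h2, h3⟩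
    have h4 : 2 * a < K := by exact_mod_cast h3
    have e : K - (2 * a + 1) + (a + 1) = K - a := by omega
    have e2 : (K : ℤ) - a = ((K - a : ℕ) : ℤ) := by
      have : a ≤ K := by omega
      push_cast [this]
      ring
    rw [e2] at h2
    rw [e, hb _ (by omega), hb _ (by omega)]
    exact ⟨by omega, ⟨by omega, h1⟩, hK, by omega, by omega, h2⟩

theorem rep_nat (u m : ℕ) (X : ℤ → Bool) (hX : Seq u m X) (K a : ℤ) (h : Rep X K a) :
    ∃ a' : ℕ, a = a' := by
  have h1 : 0 ≤ a := by
    by_contra h2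
    have h3 := hX.neg a (by linarith)
    rw [h.1] at h3
    exact absurd h3 (by decide)
  exact Int.eq_ofNat_of_zero_le h1

/-- the three cases -/
theorem early (u m N Z k0 K : ℕ) (hN : k0 ≤ N) (X : ℤ → Bool) (hX : Seq u m X)
    (hb : ∀ n : ℕ, n < N → Z.testBit n = X n) (hK : K < k0) :
    ((prs (Z % 2 ^ k0) k0 K).card = 0 → ∀ a : ℤ, ¬ Rep X K a) ∧
    ((prs (Z % 2 ^ k0) k0 K).card = 1 → ∀ a b : ℤ, Rep X K a → Rep X K b → a = b) ∧
    (1 ≤ (prs (Z % 2 ^ k0) k0 K).card → ∃ a : ℤ, Rep X K a) ∧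
    (2 ≤ (prs (Z % 2 ^ k0) k0 K).card → Two X K) := by
  have hm := mem_prs N Z k0 K hN X hb hK
  refine ⟨?_, ?_, ?_, ?_⟩
  · intro h a ha
    obtain ⟨a', rfl⟩ := rep_nat u m X hX K a ha
    have h1 := (hm a').2 ha
    rw [Finset.card_eq_zero] at h
    rw [h] at h1
    exact absurd h1 (Finset.notMem_empty _)
  · intro h a b ha hb'
    obtain ⟨a', rfl⟩ := rep_nat u m X hX K a ha
    obtain ⟨b', rfl⟩ := rep_nat u m X hX K b hb'
    have h1 := Finset.card_le_one.1 (le_of_eq h) a' ((hm a').2 ha) b' ((hm b').2 hb')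
    exact_mod_cast h1
  · intro h
    obtain ⟨a, ha⟩ := Finset.card_pos.1 h
    exact ⟨a, (hm a).1 ha⟩
  · intro h
    obtain ⟨a, ha, b, hb', hab⟩ := Finset.one_lt_card.1 h
    exact ⟨a, b, by exact_mod_cast hab, (hm a).1 ha, (hm b).1 hb'⟩

end Bi

open Bi in
theorem good_of_bits (u m N Z n0 P θ k0 : ℕ) (hu : 7 ≤ u) (hodd : u % 2 = 1) (hm : 3 ≤ m)
    (hco : Nat.Coprime m u) (h : bitsOk u m N Z n0 P θ k0 = true) {X : ℤ → Bool}
    (hX : Seq u m X) : Good u m X := by
  unfold bitsOk at h
  rw [Bool.and_eq_true, Bool.and_eq_true, Bool.and_eq_true] at h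
  obtain ⟨⟨⟨hR, hP⟩, hC⟩, hE⟩ := h
  have hb := bits_of_rule u m N Z (by omega) (by omega) hR X hX
  have hper := per_of_bits u m N Z n0 P (by omega) (by omega) hP X hX hb
  have hP1 : 1 ≤ P := by
    unfold perBits at hP
    rw [Bool.and_eq_true, Bool.and_eq_true, Nat.ble_eq, Nat.ble_eq] at hP
    exact hP.1.2
  have hlate := two_late N Z n0 P θ k0 hC hP1 X hb hper
  have hkN : k0 ≤ N := by
    unfold covBits at hC
    simp only [Bool.and_eq_true, Nat.ble_eq, Nat.beq_eq] at hC
    omega
  have hear := early u m N Z k0 (hN := hkN) (X := X) (hX := hX) (hb := hb)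
  -- unpack the early checks
  unfold earlyBits earlyChk at hE
  set p := pairAcc (Z % 2 ^ k0) k0 (k0 / 2 + 1) with hp
  have hc : ∀ n, p.1.testBit n = decide (1 ≤ (prs (Z % 2 ^ k0) k0 n).card) ∧
      p.2.testBit n = decide (2 ≤ (prs (Z % 2 ^ k0) k0 n).card) := by
    intro n
    have := pairAcc_cnt (Z % 2 ^ k0) k0 (k0 / 2 + 1) n
    rw [← hp] at this
    exact this
  have hx : ∀ n, (Nat.xor p.1 p.2).testBit n =
      decide ((prs (Z % 2 ^ k0) k0 n).card = 1) := by
    intro n
    have e : Nat.xor p.1 p.2 = p.1 ^^^ p.2 := rfl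
    obtain ⟨h1, h2⟩ := hc n
    rw [e, Nat.testBit_xor, h1, h2]
    generalize (prs (Z % 2 ^ k0) k0 n).card = c
    by_cases h3 : 1 ≤ c
    · by_cases h4 : 2 ≤ c
      · have h5 : ¬ c = 1 := by omega
        simp [h3, h4, h5]
      · have h5 : c = 1 := by omega
        simp [h5]
    · have h4 : ¬ 2 ≤ c := by omega
      have h5 : ¬ c = 1 := by omega
      simp [h3, h4, h5]
  simp only [Bool.and_eq_true, Nat.ble_eq, List.all_eq_true, List.mem_range, tb_eq, hx,
    (fun n => (hc n).1), Bool.or_eq_true, Bool.not_eq_true', decide_eq_true_iff,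
    decide_eq_false_iff_not, Nat.beq_eq] at hE
  obtain ⟨⟨⟨⟨g1, g2⟩, g3⟩, g4⟩, ⟨⟨⟨⟨⟨⟨e1, e2⟩, e3⟩, e4⟩, e5⟩, e6⟩, e7⟩, e8⟩ := hE
  have hbN : (2 * m + 1) * u + 2 * m + 1 ≤ N := le_trans g1 hkN
  -- residues modulo `u`
  have hmod : ∀ t s c d : ℕ, t < u → s < u → (m * t + u * c) % u = (m * s + u * d) % u →
      t = s := by
    intro t s c d ht hs h1
    rw [Nat.add_mul_mod_self_left, Nat.add_mul_mod_self_left] at h1
    have h2 : t ≡ s [MOD u] := Nat.ModEq.cancel_left_of_coprime (by
      rw [Nat.gcd_comm]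
      exact hco) h1
    unfold Nat.ModEq at h2
    rwa [Nat.mod_eq_of_lt ht, Nat.mod_eq_of_lt hs] at h2
  have hxm : X ((0 : ℕ) : ℤ) = true := hX.zero
  have hum : u * m ≤ (2 * m + 1) * u := by nlinarith
  have hum' : u * m + u ≤ (2 * m + 1) * u := by nlinarith
  refine ⟨?_, ?_, ?_, ?_⟩
  · -- o1
    intro c hc1 a
    have hK : m + u * c < k0 := by
      have : u * c ≤ u * m := Nat.mul_le_mul_left u hc1.le
      omega
    have hKc : ((m : ℤ) + u * c) = ((m + u * c : ℕ) : ℤ) := by push_cast; ring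
    have hz : Rep X ((m + u * c : ℕ) : ℤ) 0 := by
      refine ⟨hX.zero, ?_, ?_⟩
      · rw [sub_zero, ← hb _ (by omega)]
        exact g2 c hc1
      · have : 0 < m + u * c := by omega
        have : (0 : ℤ) < ((m + u * c : ℕ) : ℤ) := by exact_mod_cast this
        linarith
    rw [hKc]
    constructor
    · intro ha
      exact (hear (m + u * c) hK).2.1 (e1 c hc1) a 0 ha hz
    · rintro rfl
      exact hz
  · -- o2
    intro a
    have hK : (2 * m + 1) * u < k0 := by omega
    have hKc : ((u : ℤ) * (2 * m + 1)) = (((2 * m + 1) * u : ℕ) : ℤ) := by push_cast; ring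
    have hz : Rep X (((2 * m + 1) * u : ℕ) : ℤ) ((u * m : ℕ) : ℤ) := by
      refine ⟨?_, ?_, ?_⟩
      · rw [← hb _ (by omega)]
        exact g3
      · have e9 : (((2 * m + 1) * u : ℕ) : ℤ) - ((u * m : ℕ) : ℤ) = ((u * m + u : ℕ) : ℤ) := by
          push_cast
          ring
        rw [e9, ← hb _ (by omega)]
        exact g4
      · have : 2 * (u * m) < (2 * m + 1) * u := by nlinarith
        exact_mod_cast this
    have hac : ((u : ℤ) * m) = ((u * m : ℕ) : ℤ) := by push_cast; ring
    rw [hKc, hac]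
    constructor
    · intro ha
      exact (hear _ hK).2.1 e2 a _ ha hz
    · rintro rfl
      exact hz
  · -- t2
    intro c hc1
    have hKc : (2 * (m : ℤ) + u * c) = ((2 * m + u * c : ℕ) : ℤ) := by push_cast; ring
    rw [hKc]
    have huu : 2 * u ≤ (2 * m + 1) * u := Nat.mul_le_mul_right u (by omega)
    have h3 : c = 0 ∨ c = 1 ∨ c = 2 := by omega
    rcases h3 with h3 | h3 | h3
    · subst h3
      rw [mul_zero, add_zero]
      exact (hear _ (by omega)).2.2.1 e3
    · subst h3
      rw [mul_one]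
      exact (hear _ (by omega)).2.2.1 e4
    · subst h3
      rw [mul_comm u 2]
      exact (hear _ (by omega)).2.2.1 e5
  · -- nz
    intro t c ht c1 c2 c3
    have hKc : ((m : ℤ) * t + u * c) = ((m * t + u * c : ℕ) : ℤ) := by push_cast; ring
    rw [hKc]
    by_cases hK : k0 ≤ m * t + u * c
    · exact Or.inl (hlate _ hK)
    · have hK' : m * t + u * c < k0 := not_le.1 hK
      obtain ⟨h0, h1, h2, h3⟩ := hear _ hK'
      by_cases q2 : 2 ≤ (prs (Z % 2 ^ k0) k0 (m * t + u * c)).card
      · exact Or.inl (h3 q2)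
      by_cases q1 : (prs (Z % 2 ^ k0) k0 (m * t + u * c)).card = 1
      · exfalso
        rcases e6 _ hK' with ((((h4 | h4) | h4) | h4) | h4) | h4
        · exact h4 q1
        · obtain ⟨⟨h5, h6⟩, h7⟩ := h4
          have h8 : t = 1 := hmod t 1 c 0 ht (by omega) (by
            rw [h5, mul_one, mul_zero, add_zero])
          subst h8
          have h9 := c2 rfl
          have : u * m ≤ u * c := Nat.mul_le_mul_left u h9
          omega
        · have h8 : t = 0 := hmod t 0 c (2 * m + 1) ht (by omega) (by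
            rw [h4, mul_zero, zero_add, mul_comm])
          subst h8
          apply c1 rfl
          have h9 : u * c = u * (2 * m + 1) := by
            rw [mul_comm u (2 * m + 1), ← h4]
            omega
          exact Nat.eq_of_mul_eq_mul_left (by omega) h9
        · have h8 : t = 2 := hmod t 2 c 0 ht (by omega) (by
            rw [h4, mul_zero, add_zero, mul_comm m 2])
          subst h8
          have h9 := c3 rfl
          have : u * 3 ≤ u * c := Nat.mul_le_mul_left u h9
          omega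
        · have h8 : t = 2 := hmod t 2 c 1 ht (by omega) (by
            rw [h4, mul_one, mul_comm m 2])
          subst h8
          have h9 := c3 rfl
          have : u * 3 ≤ u * c := Nat.mul_le_mul_left u h9
          omega
        · have h8 : t = 2 := hmod t 2 c 2 ht (by omega) (by
            rw [h4, mul_comm m 2, mul_comm u 2])
          subst h8
          have h9 := c3 rfl
          have : u * 3 ≤ u * c := Nat.mul_le_mul_left u h9
          omega
      · have q0 : (prs (Z % 2 ^ k0) k0 (m * t + u * c)).card = 0 := by omega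
        right
        refine ⟨?_, ?_, h0 q0⟩
        · rintro rfl
          have h9 := c2 rfl
          obtain ⟨d, rfl⟩ : ∃ d, c = m + d := ⟨c - m, by omega⟩
          have hd : d < k0 := by nlinarith
          rcases e7 d hd with h4 | h4
          · apply hK
            rw [mul_one]
            exact h4
          · rw [mul_one] at q0
            omega
        · rintro rfl
          have h9 := c3 rfl
          obtain ⟨d, rfl⟩ : ∃ d, c = d + 3 := ⟨c - 3, by omega⟩
          by_cases h10 : d < 2 * m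
          · rcases e8 d h10 with (h4 | h4) | h4
            · exfalso
              apply hK
              rw [mul_comm m 2]
              exact h4
            · omega
            · exfalso
              rw [mul_comm m 2] at q0
              omega
          · omega

end Pool.Agent.H65.CE
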