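import Pool.Agent.H65.CE.BitCore
import Pool.Agent.H65.CE.Bits

/-!
# The evaluation with shifts gives the same checks
-/

set_option autoImplicit false

namespace Pool.Agent.H65.CE

namespace Fast

theorem sl_eq (x a : ℕ) : sl x a = x * 2 ^ a := Nat.shiftLeft_eq x a

theorem sr_eq (x a : ℕ) : sr x a = x / 2 ^ a := Nat.shiftRight_eq_div_pow x a

theorem addm_eq : Fast.addm = CE.addm := rfl

theorem tb_eq' (X a : ℕ) : Fast.tb X a = CE.tb X a := by
  simp only [Fast.tb, CE.tb, sr_eq]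

theorem ruleAcc_eq (u m X : ℕ) : ∀ k, Fast.ruleAcc u m X k = CE.ruleAcc u m X k
  | 0 => rfl
  | k + 1 => by
    simp only [Fast.ruleAcc, CE.ruleAcc, ruleAcc_eq u m X k, sl_eq, addm_eq]

theorem ruleBits_eq (u m N X : ℕ) : Fast.ruleBits u m N X = CE.ruleBits u m N X := by
  simp only [Fast.ruleBits, CE.ruleBits, ruleAcc_eq, sl_eq, addm_eq, one_mul]

theorem perBits_eq (u m N X n0 P : ℕ) : Fast.perBits u m N X n0 P = CE.perBits u m N X n0 P := by
  simp only [Fast.perBits, CE.perBits, sl_eq, sr_eq, one_mul]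

theorem covAcc_eq (X Y θ : ℕ) : ∀ k ≤ θ, Fast.covAcc (X % 2 ^ θ) Y k = CE.covAcc X Y k
  | 0, _ => rfl
  | k + 1, h => by
    have hb : Fast.tb (X % 2 ^ θ) k = CE.tb X k := by
      rw [tb_eq', Bi.tb_eq, Bi.tb_eq, Nat.testBit_mod_two_pow]
      simp only [show k < θ from h, decide_true, Bool.true_and]
    simp only [Fast.covAcc, CE.covAcc, covAcc_eq X Y θ k (by omega), sl_eq, addm_eq, hb]

theorem covBits_eq (N X n0 P θ k0 : ℕ) : Fast.covBits N X n0 P θ k0 = CE.covBits N X n0 P θ k0 := by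
  simp only [Fast.covBits, CE.covBits, sl_eq, sr_eq, one_mul, covAcc_eq X _ θ θ le_rfl]

theorem pairAcc_eq (X k0 : ℕ) : ∀ k, Fast.pairAcc X k0 k = CE.pairAcc X k0 k
  | 0 => rfl
  | k + 1 => by
    simp only [Fast.pairAcc, CE.pairAcc, pairAcc_eq X k0 k, sl_eq, sr_eq, addm_eq, tb_eq', one_mul]

theorem earlyBits_eq (u m X k0 : ℕ) : Fast.earlyBits u m X k0 = CE.earlyBits u m X k0 := by
  simp only [Fast.earlyBits, CE.earlyBits, Fast.earlyChk, CE.earlyChk, pairAcc_eq, sl_eq, tb_eq',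
    one_mul]

theorem bitsOk_eq (u m N X n0 P θ k0 : ℕ) :
    Fast.bitsOk u m N X n0 P θ k0 = CE.bitsOk u m N X n0 P θ k0 := by
  simp only [Fast.bitsOk, CE.bitsOk, ruleBits_eq, perBits_eq, covBits_eq, earlyBits_eq]

end Fast

theorem good_of_fast (u m N Z n0 P θ k0 : ℕ) (hu : 7 ≤ u) (hodd : u % 2 = 1) (hm : 3 ≤ m)
    (hco : Nat.Coprime m u) (h : Fast.bitsOk u m N Z n0 P θ k0 = true) {X : ℤ → Bool}
    (hX : Seq u m X) : Good u m X := by
  rw [Fast.bitsOk_eq] at h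
  exact good_of_bits u m N Z n0 P θ k0 hu hodd hm hco h hX

end Pool.Agent.H65.CE
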