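import Pool.Agent.H65.CE.Defs

/-!
# From the row checks to the cells
-/

set_option autoImplicit false

namespace Pool.Agent.H65.CE

namespace Cel

theorem ev_nonneg (k : ℕ) (f : F) : 0 ≤ ev k f := by unfold ev; positivity

theorem fle_iff {f g : F} : fle f g = true ↔ f.1 ≤ g.1 ∧ f.2 ≤ g.2 := by
  unfold fle; rw [Bool.and_eq_true, Nat.ble_eq, Nat.ble_eq]

theorem feq_iff {f g : F} : feq f g = true ↔ f = g := by
  unfold feq; rw [Bool.and_eq_true, Nat.beq_eq, Nat.beq_eq, Prod.ext_iff]

theorem ev_fadd (k : ℕ) (f g : F) : ev k (fadd f g) = ev k f + ev k g := by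
  unfold ev fadd; push_cast; ring

theorem ev_le {k : ℕ} {f g : F} (h : fle f g = true) : ev k f ≤ ev k g := by
  rw [fle_iff] at h
  unfold ev
  have h1 : (f.1 : ℤ) ≤ g.1 := by exact_mod_cast h.1
  have h2 : (f.2 : ℤ) * k ≤ g.2 * k :=
    mul_le_mul_of_nonneg_right (by exact_mod_cast h.2) (by positivity)
  linarith

theorem ev_m (m0 k : ℕ) : ev k (m0, 1) = ((m0 + k : ℕ) : ℤ) := by
  unfold ev; push_cast; ring

theorem not_mem_neg {k : ℕ} {I : List Iv} {c : ℤ} (hc : c < 0) : ¬ mem k I c := by
  rintro ⟨p, _, h1, _⟩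
  have := ev_nonneg k p.1
  omega

/-- The shift of a row. -/
def shiftRow (m0 : ℕ) (I : List Iv) : List Iv := I.map fun p => (fadd p.1 (m0, 1), fadd p.2 (m0, 1))

theorem mem_shiftRow {m0 k : ℕ} {I : List Iv} {c : ℤ} :
    mem k (shiftRow m0 I) c ↔ mem k I (c - (m0 + k : ℕ)) := by
  unfold mem shiftRow
  constructor
  · rintro ⟨p, hp, h1, h2⟩
    obtain ⟨q, hq, rfl⟩ := List.mem_map.1 hp
    simp only [ev_fadd, ev_m] at h1 h2
    exact ⟨q, hq, by linarith, by linarith⟩
  · rintro ⟨p, hp, h1, h2⟩
    refine ⟨_, List.mem_map.2 ⟨p, hp, rfl⟩, ?_, ?_⟩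
    · simp only [ev_fadd, ev_m]; linarith
    · simp only [ev_fadd, ev_m]; linarith

theorem ivs_shiftRow {m0 : ℕ} {C : F} : ∀ {I : List Iv}, ivs C I = true →
    ivs (fadd C (m0, 1)) (shiftRow m0 I) = true
  | [], _ => rfl
  | [p], h => by
    simp only [ivs, shiftRow, List.map, Bool.and_eq_true, Bool.or_eq_true, feq_iff, fle_iff,
      fadd, fs, Prod.ext_iff] at h ⊢
    omega
  | p :: q :: l, h => by
    have ih := ivs_shiftRow (m0 := m0) (C := C) (I := q :: l)
    simp only [ivs, shiftRow, List.map, Bool.and_eq_true, Bool.or_eq_true, feq_iff, fle_iff,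
      fadd, fs, Prod.ext_iff] at h ih ⊢
    refine ⟨⟨?_, ?_⟩, ih h.2⟩
    · have := h.1.1; omega
    · have := h.1.2; omega

/-- The ones in a window as a sum. -/
theorem sum_window (P : ℤ → Prop) [DecidablePred P] (c : ℤ) (m : ℕ) :
    {c' : ℤ | c - (m : ℕ) ≤ c' ∧ c' ≤ c ∧ P c'}.ncard =
      ∑ j ∈ Finset.range (m + 1), if P (c - (j : ℕ)) then 1 else 0 := by
  have hs : {c' : ℤ | c - (m : ℕ) ≤ c' ∧ c' ≤ c ∧ P c'} =
      ↑(((Finset.range (m + 1)).filter fun j : ℕ => P (c - (j : ℕ))).image
        fun j : ℕ => c - (j : ℤ)) := by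
    ext x
    simp only [Set.mem_setOf_eq, Finset.coe_image, Set.mem_image, Finset.mem_coe,
      Finset.mem_filter, Finset.mem_range]
    constructor
    · rintro ⟨h1, h2, h3⟩
      refine ⟨(c - x).toNat, ⟨by omega, ?_⟩, by omega⟩
      have : c - ((c - x).toNat : ℤ) = x := by omega
      rw [this]; exact h3
    · rintro ⟨j, ⟨h1, h2⟩, rfl⟩
      exact ⟨by omega, by omega, h2⟩
  rw [hs, Set.ncard_coe_finset, Finset.card_image_of_injective _ (fun a b h => by
    have h' : c - (a : ℤ) = c - (b : ℤ) := h
    omega), Finset.card_filter]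

theorem one_point (P : ℤ → Prop) [DecidablePred P] (x : ℤ) :
    {c' : ℤ | c' = x ∧ P c'}.ncard = if P x then 1 else 0 := by
  split_ifs with h
  · have : {c' : ℤ | c' = x ∧ P c'} = {x} := by
      ext y
      simp only [Set.mem_setOf_eq, Set.mem_singleton_iff]
      constructor
      · exact fun h => h.1
      · rintro rfl; exact ⟨rfl, h⟩
    rw [this, Set.ncard_singleton]
  · have : {c' : ℤ | c' = x ∧ P c'} = ∅ := by
      ext y
      simp only [Set.mem_setOf_eq, Set.mem_empty_iff_false, iff_false, not_and]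
      rintro rfl; exact h
    rw [this, Set.ncard_empty]

theorem toNat_eq {b : Bool} {p : Prop} [Decidable p] (h : b = true ↔ p) :
    b.toNat = if p then 1 else 0 := by
  by_cases hp : p
  · rw [if_pos hp, h.2 hp]; rfl
  · rw [if_neg hp]
    have : b = false := by
      cases b
      · rfl
      · exact absurd (h.1 rfl) hp
    rw [this]; rfl

theorem row_zero {u m0 : ℕ} {C : F} {rows : List Row} (h : (bif Nat.beq 0 0 then
      match dec (rows.getD 0 (0, 0)) with
      | [] => false
      | p :: l => feq p.1 (0, 0) && feq p.2 (1, 0) &&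
        rowChk m0 C (before u m0 rows 0) (dec (rows.getD 0 (0, 0))) l
    else rowChk m0 C (before u m0 rows 0) (dec (rows.getD 0 (0, 0)))
      (dec (rows.getD 0 (0, 0)))) = true) :
    ∃ (p : Iv) (l : List Iv), dec (rows.getD 0 (0, 0)) = p :: l ∧ p.1 = (0, 0) ∧ p.2 = (1, 0) ∧
      rowChk m0 C (before u m0 rows 0) (dec (rows.getD 0 (0, 0))) l = true := by
  change (match dec (rows.getD 0 (0, 0)) with
      | [] => false
      | p :: l => feq p.1 (0, 0) && feq p.2 (1, 0) &&
        rowChk m0 C (before u m0 rows 0) (dec (rows.getD 0 (0, 0))) l) = true at h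
  generalize dec (rows.getD 0 (0, 0)) = own at h ⊢
  cases own with
  | nil => simp at h
  | cons p l =>
    simp only [Bool.and_eq_true, feq_iff] at h
    exact ⟨p, l, rfl, h.1.1, h.1.2, h.2⟩

end Cel

open Cel

/-- The statement of `rowChk_sound`. -/
def RowSound : Prop := ∀ (m0 k : ℕ), 1 ≤ m0 → ∀ (C B : F) (J own exp : List Iv),
    ivs B J = true → ivs C own = true → rowChk m0 C J own exp = true →
    ∀ c : ℤ, c < ev k C →
    (mem k exp c ↔ {c' : ℤ | c - (m0 + k : ℕ) ≤ c' ∧ c' ≤ c ∧ mem k J c'}.ncard +
      {c' : ℤ | c' = c - (2 * (m0 + k : ℕ) + 2) ∧ mem k own c'}.ncard = 1)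

theorem cells_of (hs : RowSound) (u m0 k : ℕ) (C : F) (rows : List Row) (hu : 2 ≤ u)
    (hm0 : 1 ≤ m0) (hco : Nat.Coprime (m0 + k) u) {X : ℤ → Bool} (hX : Seq u (m0 + k) X)
    (h : ∀ t < u, rowOk u m0 C rows t = true) (t : ℕ) (ht : t < u) (c : ℤ) (hc : c < ev k C) :
    X ((m0 + k : ℕ) * t + u * c) = true ↔ mem k (dec (rows.getD t (0, 0))) c := by
  classical
  have hu0 : (0 : ℤ) < u := by exact_mod_cast (by omega : 0 < u)
  have hm : (1 : ℤ) ≤ (m0 + k : ℕ) := by exact_mod_cast (by omega : 1 ≤ m0 + k)
  have hiv : ∀ s < u, ivs C (dec (rows.getD s (0, 0))) = true := by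
    intro s hs'
    have := h s hs'
    unfold rowOk at this
    simp only [Bool.and_eq_true] at this
    exact this.1
  have main : ∀ N : ℕ, ∀ t : ℕ, t < u → ∀ c : ℤ, c < ev k C →
      ((m0 + k : ℕ) : ℤ) * t + u * c < N →
      (X ((m0 + k : ℕ) * t + u * c) = true ↔ mem k (dec (rows.getD t (0, 0))) c) := by
    intro N
    induction N with
    | zero =>
      intro t ht c hc hn
      have h1 : X ((m0 + k : ℕ) * t + u * c) = false := hX.neg _ (by simpa using hn)
      have h2 : c < 0 := by
        by_contra hcn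
        have h3 : 0 ≤ (u : ℤ) * c := mul_nonneg hu0.le (by omega)
        have h4 : 0 ≤ ((m0 + k : ℕ) : ℤ) * t := by positivity
        push_cast at hn h4
        omega
      rw [h1]
      exact ⟨fun hf => by simp at hf, fun hf => absurd hf (not_mem_neg h2)⟩
    | succ N ih =>
      intro t ht c hc hn
      by_cases hlt : ((m0 + k : ℕ) : ℤ) * t + u * c < N
      · exact ih t ht c hc hlt
      have hN : ((m0 + k : ℕ) : ℤ) * t + u * c = N := by push_cast at hn hlt ⊢; omega
      have hrow := h t ht
      unfold rowOk at hrow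
      simp only [Bool.and_eq_true] at hrow
      obtain ⟨hown, hrow⟩ := hrow
      by_cases hN0 : N = 0
      · -- the cell (0, 0)
        have e0 : ((m0 + k : ℕ) : ℤ) * t + u * c = 0 := by rw [hN, hN0]; rfl
        have hdvd : (u : ℤ) ∣ ((m0 + k : ℕ) : ℤ) * t := ⟨-c, by linarith⟩
        have hdvd' : u ∣ (m0 + k) * t := by exact_mod_cast hdvd
        have ht0 : t = 0 := by
          have := (Nat.Coprime.dvd_of_dvd_mul_left hco.symm hdvd')
          exact Nat.eq_zero_of_dvd_of_lt this ht
        have hc0 : c = 0 := by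
          rw [ht0] at e0
          simp only [Nat.cast_zero, mul_zero, zero_add, mul_eq_zero] at e0
          rcases e0 with e0 | e0
          · omega
          · exact e0
        subst ht0 hc0
        rw [e0]
        refine ⟨fun _ => ?_, fun _ => hX.zero⟩
        obtain ⟨p, l, hd, h1, h2, -⟩ := row_zero hrow
        rw [hd]
        refine ⟨p, by simp, ?_, ?_⟩
        · rw [h1]; simp [ev]
        · rw [h2]; simp [ev]
      · -- a later cell
        have hpos : 0 < ((m0 + k : ℕ) : ℤ) * t + u * c := by rw [hN]; omega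
        rw [hX.rule _ hpos]
        have hJ : ∃ B, ivs B (before u m0 rows t) = true := by
          unfold before
          by_cases ht0 : t = 0
          · subst ht0
            exact ⟨fadd C (m0, 1), ivs_shiftRow (hiv (u - 1) (by omega))⟩
          · refine ⟨C, ?_⟩
            have : Nat.beq t 0 = false := by
              rw [← Bool.not_eq_true, Nat.beq_eq]; exact ht0
            rw [this]
            exact hiv (t - 1) (by omega)
        have hbefore : ∀ j : ℕ, j ≤ m0 + k → (X (((m0 + k : ℕ) : ℤ) * t + u * c - (m0 + k : ℕ) -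
            j * u) = true ↔ mem k (before u m0 rows t) (c - (j : ℕ))) := by
          intro j hj
          by_cases ht0 : t = 0
          · subst ht0
            have e : ((m0 + k : ℕ) : ℤ) * (0 : ℕ) + u * c - (m0 + k : ℕ) - j * u =
                ((m0 + k : ℕ) : ℤ) * (u - 1 : ℕ) + u * (c - j - (m0 + k : ℕ)) := by
              rw [Nat.cast_sub (by omega : 1 ≤ u)]; push_cast; ring
            rw [e, ih (u - 1) (by omega) _ (by push_cast at hc ⊢; omega) (by
              rw [← e]
              have : (0 : ℤ) ≤ j * u := by positivity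
              push_cast at hN hm ⊢
              omega)]
            unfold before
            exact (mem_shiftRow (m0 := m0) (k := k) (I := dec (rows.getD (u - 1) (0, 0)))
              (c := c - j)).symm
          · have e : ((m0 + k : ℕ) : ℤ) * t + u * c - (m0 + k : ℕ) - j * u =
                ((m0 + k : ℕ) : ℤ) * (t - 1 : ℕ) + u * (c - j) := by
              rw [Nat.cast_sub (by omega : 1 ≤ t)]; push_cast; ring
            rw [e, ih (t - 1) (by omega) _ (by omega) (by
              rw [← e]
              have : (0 : ℤ) ≤ j * u := by positivity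
              push_cast at hN hm ⊢
              omega)]
            unfold before
            have : Nat.beq t 0 = false := by
              rw [← Bool.not_eq_true, Nat.beq_eq]; exact ht0
            rw [this]
            rfl
        have hself : X (((m0 + k : ℕ) : ℤ) * t + u * c - (2 * (m0 + k : ℕ) + 2) * u) = true ↔
            mem k (dec (rows.getD t (0, 0))) (c - (2 * (m0 + k : ℕ) + 2)) := by
          have e : ((m0 + k : ℕ) : ℤ) * t + u * c - (2 * (m0 + k : ℕ) + 2) * u =
              ((m0 + k : ℕ) : ℤ) * t + u * (c - (2 * (m0 + k : ℕ) + 2)) := by ring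
          rw [e, ih t ht _ (by omega) (by
            rw [← e]
            have h5 : (0 : ℤ) < (2 * (m0 + k : ℕ) + 2) * u := by positivity
            omega)]
        have hnum : num u (m0 + k) X (((m0 + k : ℕ) : ℤ) * t + u * c) =
            {c' : ℤ | c - (m0 + k : ℕ) ≤ c' ∧ c' ≤ c ∧ mem k (before u m0 rows t) c'}.ncard +
            {c' : ℤ | c' = c - (2 * (m0 + k : ℕ) + 2) ∧
              mem k (dec (rows.getD t (0, 0))) c'}.ncard := by
          rw [sum_window (fun c' => mem k (before u m0 rows t) c'), one_point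
            (fun c' => mem k (dec (rows.getD t (0, 0))) c')]
          unfold num
          congr 1
          · refine Finset.sum_congr rfl fun j hj => ?_
            exact toNat_eq (hbefore j (by rw [Finset.mem_range] at hj; omega))
          · exact toNat_eq hself
        rw [hnum]
        obtain ⟨B, hB⟩ := hJ
        have hmain := hs m0 k hm0 C B (before u m0 rows t) (dec (rows.getD t (0, 0)))
        by_cases ht0 : t = 0
        · subst ht0
          have hc0 : c ≠ 0 := by
            rintro rfl
            simp at hpos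
          obtain ⟨p, l, hd, h1, h2, h3⟩ := row_zero hrow
          rw [← hmain l hB hown h3 c hc, hd]
          constructor
          · rintro ⟨q, hq, h4⟩
            exact ⟨q, List.mem_cons_of_mem _ hq, h4⟩
          · rintro ⟨q, hq, h4⟩
            rcases List.mem_cons.1 hq with rfl | hq
            · rw [h1, h2] at h4
              simp only [ev, Nat.cast_zero, zero_mul, add_zero, Nat.cast_one] at h4
              omega
            · exact ⟨q, hq, h4⟩
        · have hb : Nat.beq t 0 = false := by
            rw [← Bool.not_eq_true, Nat.beq_eq]; exact ht0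
          rw [hb] at hrow
          exact (hmain _ hB hown hrow c hc).symm
  exact main (((m0 + k : ℕ) : ℤ) * t + u * c + 1).toNat t ht c hc (by omega)

end Pool.Agent.H65.CE
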