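import Pool.Agent.H65.CE.Defs

/-!
# Soundness of the check of one row
-/

set_option autoImplicit false

namespace Pool.Agent.H65.CE

namespace Count

/-! ### Linear forms -/

theorem fle_iff {f g : F} : fle f g = true ↔ f.1 ≤ g.1 ∧ f.2 ≤ g.2 := by
  unfold fle
  rw [Bool.and_eq_true, Nat.ble_eq, Nat.ble_eq]

theorem feq_iff {f g : F} : feq f g = true ↔ f = g := by
  unfold feq
  rw [Bool.and_eq_true, Nat.beq_eq, Nat.beq_eq, Prod.ext_iff]

theorem ev_nonneg (k : ℕ) (f : F) : 0 ≤ ev k f := by
  unfold ev
  positivity

theorem ev_le {f g : F} (k : ℕ) (h : fle f g = true) : ev k f ≤ ev k g := by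
  rw [fle_iff] at h
  unfold ev
  have h1 : ((f.2 : ℕ) : ℤ) * k ≤ (g.2 : ℕ) * k := by
    exact_mod_cast Nat.mul_le_mul_right k h.2
  have h2 : ((f.1 : ℕ) : ℤ) ≤ (g.1 : ℕ) := by exact_mod_cast h.1
  omega

theorem ev_fadd (k : ℕ) (f g : F) : ev k (fadd f g) = ev k f + ev k g := by
  unfold ev fadd
  push_cast
  ring

theorem ev_fs (k : ℕ) (f : F) (n : ℕ) : ev k (fs f n) = ev k f + n := by
  unfold ev fs
  push_cast
  ring

theorem ev_fmax (k : ℕ) {f g : F} (h : fcmp f g = true) :
    ev k (fmax f g) = max (ev k f) (ev k g) := by
  unfold fcmp at h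
  unfold fmax
  rw [Bool.or_eq_true] at h
  cases h1 : fle f g
  · rw [h1] at h
    have h2 := ev_le k (h.resolve_left (by simp))
    rw [cond_false, max_eq_left h2]
  · have h2 := ev_le k h1
    rw [cond_true, max_eq_right h2]

theorem ev_fmin (k : ℕ) {f g : F} (h : fcmp f g = true) :
    ev k (fmin f g) = min (ev k f) (ev k g) := by
  unfold fcmp at h
  unfold fmin
  rw [Bool.or_eq_true] at h
  cases h1 : fle f g
  · rw [h1] at h
    have h2 := ev_le k (h.resolve_left (by simp))
    rw [cond_false, min_eq_right h2]
  · have h2 := ev_le k h1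
    rw [cond_true, min_eq_left h2]

/-! ### Counting -/

/-- number of the forms with value at most `c` -/
def cnt (k : ℕ) (c : ℤ) (L : List F) : ℕ := L.countP fun f => decide (ev k f ≤ c)

theorem cnt_nil (k : ℕ) (c : ℤ) : cnt k c [] = 0 := rfl

theorem cnt_cons (k : ℕ) (c : ℤ) (f : F) (L : List F) :
    cnt k c (f :: L) = cnt k c L + if ev k f ≤ c then 1 else 0 := by
  unfold cnt
  rw [List.countP_cons]
  simp

theorem cnt_append (k : ℕ) (c : ℤ) (a b : List F) : cnt k c (a ++ b) = cnt k c a + cnt k c b := by
  unfold cnt
  rw [List.countP_append]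

theorem cnt_merge (k : ℕ) (c : ℤ) (n : ℕ) (a b : List F) :
    cnt k c (merge n a b) = cnt k c a + cnt k c b := by
  induction n generalizing a b with
  | zero =>
      rw [merge, cnt_append]
  | succ n ih =>
      rcases a with _ | ⟨x, a⟩
      · simp [merge, cnt_nil]
      · rcases b with _ | ⟨y, b⟩
        · simp [merge, cnt_nil]
        · rw [merge]
          cases fle x y
          · rw [cond_false, cnt_cons, ih, cnt_cons k c y b]
            omega
          · rw [cond_true, cnt_cons, ih, cnt_cons k c x a]
            omega

theorem cnt_filter (k : ℕ) (c : ℤ) (C : F) (hc : c < ev k C) (L : List F) :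
    cnt k c (L.filter fun f => !fle C f) = cnt k c L := by
  induction L with
  | nil => rfl
  | cons f L ih =>
      rw [List.filter_cons, cnt_cons]
      cases h : fle C f
      · simp only [Bool.not_false, if_true]
        rw [cnt_cons, ih]
      · simp only [Bool.not_true, Bool.false_eq_true, if_false]
        have h1 := ev_le k h
        rw [ih, if_neg (by omega), add_zero]

theorem srt_cons {x : F} {l : List F} (h : srt (x :: l) = true) :
    srt l = true ∧ ∀ (k : ℕ), ∀ y ∈ l, ev k x ≤ ev k y := by
  induction l generalizing x with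
  | nil => exact ⟨rfl, fun k y hy => absurd hy (by simp)⟩
  | cons z l ih =>
      rw [srt, Bool.and_eq_true] at h
      refine ⟨h.2, fun k y hy => ?_⟩
      have h1 := ev_le k h.1
      rcases List.mem_cons.1 hy with rfl | hy
      · exact h1
      · exact h1.trans ((ih h.2).2 k y hy)

theorem cnt_zero (k : ℕ) (c : ℤ) (L : List F) (h : ∀ y ∈ L, c < ev k y) : cnt k c L = 0 := by
  induction L with
  | nil => rfl
  | cons f L ih =>
      have h1 := h f (by simp)
      rw [cnt_cons, ih fun y hy => h y (by simp [hy]), if_neg (by omega)]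

/-- the head of a sorted list -/
theorem cnt_hd (k : ℕ) (c : ℤ) (C : F) (L : List F) (hL : srt L = true) (hc : c < ev k C) :
    cnt k c L = 0 ↔ c < ev k (hd C L) := by
  rcases L with _ | ⟨x, L⟩
  · simp [cnt_nil, hd, hc]
  · rw [hd, cnt_cons]
    constructor
    · intro h
      by_contra hcon
      rw [if_pos (by omega)] at h
      omega
    · intro h
      rw [if_neg (by omega), cnt_zero k c L]
      intro y hy
      have := (srt_cons hL).2 k y hy
      omega

theorem mem_nil (k : ℕ) (c : ℤ) : ¬ mem k [] c := by
  rintro ⟨p, hp, _⟩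
  simp at hp

theorem mem_cons (k : ℕ) (p : Iv) (l : List Iv) (c : ℤ) :
    mem k (p :: l) c ↔ (ev k p.1 ≤ c ∧ c < ev k p.2) ∨ mem k l c := by
  unfold mem
  simp

/-- every interval is nonempty or empty in the right order -/
def good (k : ℕ) (l : List Iv) : Prop := ∀ p ∈ l, ev k p.1 ≤ ev k p.2

/-- the list of the remaining intervals and the current one -/
theorem step (k : ℕ) (c : ℤ) {C prev s hS hT : F} (h1 : fcmp prev s = true)
    (h2 : fcmp hS hT = true) (h3 : fcmp (fmin hS hT) C = true) :
    (ev k (fmax prev s) ≤ c ∧ c < ev k (fmin (fmin hS hT) C)) ↔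
      (ev k prev ≤ c ∧ ev k s ≤ c ∧ c < ev k hS ∧ c < ev k hT ∧ c < ev k C) := by
  rw [ev_fmax k h1, ev_fmin k h3, ev_fmin k h2]
  omega

/-- the two ways to put the current interval -/
theorem put (k : ℕ) {lo hi : F} {R' R : List Iv}
    (h : (bif fle (fs lo 1) hi then some ((lo, hi) :: R')
            else bif fle hi lo then some R' else none) = some R) :
    (∀ c : ℤ, mem k R c ↔ (ev k lo ≤ c ∧ c < ev k hi) ∨ mem k R' c) ∧
      (good k R' → good k R) := by
  cases hle : fle (fs lo 1) hi
  · rw [hle, cond_false] at h
    cases hle2 : fle hi lo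
    · rw [hle2, cond_false] at h
      exact absurd h (by simp)
    · rw [hle2, cond_true] at h
      cases h
      have h5 := ev_le k hle2
      refine ⟨fun c => ⟨fun hc => Or.inr hc, ?_⟩, fun hg => hg⟩
      rintro (hc | hc)
      · omega
      · exact hc
  · rw [hle, cond_true] at h
    cases h
    have h5 := ev_le k hle
    rw [ev_fs] at h5
    refine ⟨fun c => mem_cons k _ _ c, fun hg p hp => ?_⟩
    rcases List.mem_cons.1 hp with rfl | hp
    · simp only
      omega
    · exact hg p hp

theorem ones_sound (k : ℕ) (C : F) (S : List F) : ∀ (prev : F) (T : List F) (R : List Iv),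
    srt S = true → srt T = true → (∀ y ∈ T, ev k prev ≤ ev k y) → ones C prev S T = some R →
    (∀ c : ℤ, ev k prev ≤ c → c < ev k C → (mem k R c ↔ cnt k c S = cnt k c T + 1)) ∧
    (∀ c : ℤ, mem k R c → ev k prev ≤ c) ∧ good k R := by
  induction S with
  | nil =>
      intro prev T R _ _ _ h
      simp only [ones] at h
      cases h
      refine ⟨fun c _ _ => ?_, fun c hc => absurd hc (mem_nil k c), fun p hp => by simp at hp⟩
      rw [cnt_nil]
      constructor
      · intro hc
        exact absurd hc (mem_nil k c)
      · intro h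
        omega
  | cons s S ih =>
      intro prev T R hS hT hprev h
      have hS' := (srt_cons hS).1
      have hSs : ∀ c : ℤ, c < ev k s → cnt k c S = 0 := by
        intro c hc
        apply cnt_zero
        intro y hy
        have := (srt_cons hS).2 k y hy
        omega
      cases hb : (fcmp prev s && fcmp (hd C S) (hd C T) && fcmp (fmin (hd C S) (hd C T)) C &&
        fle s (hd C T))
      · rcases T with _ | ⟨τ, T⟩
        · simp only [ones] at h
          rw [hb, cond_false] at h
          exact absurd h (by simp)
        · simp only [ones] at h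
          rw [hb, cond_false] at h
          exact absurd h (by simp)
      · have hb' := hb
        rw [Bool.and_eq_true, Bool.and_eq_true, Bool.and_eq_true] at hb'
        obtain ⟨⟨⟨h1, h2⟩, h3⟩, h4⟩ := hb'
        have e4 := ev_le k h4
        rcases T with _ | ⟨τ, T⟩
        · simp only [ones] at h
          rw [hb, cond_true] at h
          have h' : (bif fle (fs (fmax prev s) 1) (fmin (fmin (hd C S) (hd C [])) C) then
              some ((fmax prev s, fmin (fmin (hd C S) (hd C [])) C) :: [])
            else bif fle (fmin (fmin (hd C S) (hd C [])) C) (fmax prev s) then some []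
              else none) = some R := h
          obtain ⟨p1, p2⟩ := put k h'
          refine ⟨fun c hc1 hc2 => ?_, fun c hc => ?_, p2 fun p hp => by simp at hp⟩
          · rw [p1, step k c h1 h2 h3, cnt_nil, cnt_cons]
            have h5 := cnt_hd k c C S hS' hc2
            have h6 : ev k (hd C []) = ev k C := rfl
            rw [h6]
            constructor
            · rintro (h7 | h7)
              · rw [if_pos h7.2.1]
                have := h5.2 h7.2.2.1
                omega
              · exact absurd h7 (mem_nil k c)
            · intro h7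
              left
              by_cases h8 : ev k s ≤ c
              · rw [if_pos h8] at h7
                have h9 := h5.1 (by omega)
                exact ⟨hc1, h8, h9, hc2, hc2⟩
              · rw [if_neg h8, hSs c (by omega)] at h7
                omega
          · rw [p1, step k c h1 h2 h3] at hc
            rcases hc with hc | hc
            · exact hc.1
            · exact absurd hc (mem_nil k c)
        · simp only [ones] at h
          rw [hb, cond_true] at h
          obtain ⟨hT', hTs⟩ := srt_cons hT
          cases hr : ones C τ S T with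
          | none =>
              rw [hr] at h
              exact absurd h (by simp)
          | some R' =>
              rw [hr] at h
              simp only at h
              obtain ⟨ih1, ih2, ih3⟩ := ih τ T R' hS' hT' (hTs k) hr
              have hpτ : ev k prev ≤ ev k τ := hprev τ (by simp)
              have h6 : ev k (hd C (τ :: T)) = ev k τ := rfl
              rw [h6] at e4
              obtain ⟨p1, p2⟩ := put k h
              refine ⟨fun c hc1 hc2 => ?_, fun c hc => ?_, p2 ih3⟩
              · rw [p1, step k c h1 h2 h3, cnt_cons, cnt_cons, h6]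
                have h5 := cnt_hd k c C S hS' hc2
                by_cases hτ : ev k τ ≤ c
                · rw [if_pos hτ, if_pos (by omega)]
                  have h7 := ih1 c hτ hc2
                  constructor
                  · rintro (h8 | h8)
                    · omega
                    · have := h7.1 h8
                      omega
                  · intro h8
                    exact Or.inr (h7.2 (by omega))
                · rw [if_neg hτ]
                  have h7 : cnt k c T = 0 := by
                    apply cnt_zero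
                    intro y hy
                    have := hTs k y hy
                    omega
                  rw [h7]
                  constructor
                  · rintro (h8 | h8)
                    · rw [if_pos h8.2.1]
                      have := h5.2 h8.2.2.1
                      omega
                    · have := ih2 c h8
                      omega
                  · intro h8
                    left
                    by_cases h9 : ev k s ≤ c
                    · rw [if_pos h9] at h8
                      have h10 := h5.1 (by omega)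
                      exact ⟨hc1, h9, h10, by omega, hc2⟩
                    · rw [if_neg h9, hSs c (by omega)] at h8
                      omega
              · rw [p1, step k c h1 h2 h3] at hc
                rcases hc with hc | hc
                · exact hc.1
                · have := ih2 c hc
                  omega

/-! ### Joining -/

theorem joinN_sound (k : ℕ) (c : ℤ) (l : List Iv) : ∀ p : Iv, ev k p.1 ≤ ev k p.2 → good k l →
    (mem k (joinN p l) c ↔ mem k (p :: l) c) := by
  induction l with
  | nil =>
      intro p _ _
      rw [joinN]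
  | cons q l ih =>
      intro p hp hl
      have hq : ev k q.1 ≤ ev k q.2 := hl q (by simp)
      have hl' : good k l := fun r hr => hl r (by simp [hr])
      rw [joinN]
      cases h : feq p.2 q.1
      · rw [cond_false, mem_cons, mem_cons k p, ih q hq hl']
      · rw [cond_true]
        rw [feq_iff] at h
        have h1 : ev k p.2 = ev k q.1 := by rw [h]
        rw [ih (p.1, q.2) (by simp only; omega) hl', mem_cons, mem_cons, mem_cons]
        simp only
        constructor
        · rintro (h2 | h2)
          · by_cases h3 : c < ev k p.2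
            · exact Or.inl ⟨h2.1, h3⟩
            · exact Or.inr (Or.inl ⟨by omega, h2.2⟩)
          · exact Or.inr (Or.inr h2)
        · rintro (h2 | h2 | h2)
          · exact Or.inl ⟨h2.1, by omega⟩
          · exact Or.inl ⟨by omega, h2.2⟩
          · exact Or.inr h2

theorem join_sound (k : ℕ) (c : ℤ) (l : List Iv) (hl : good k l) :
    mem k (join l) c ↔ mem k l c := by
  rcases l with _ | ⟨p, l⟩
  · rw [join]
  · rw [join, joinN_sound k c l p (hl p (by simp)) fun r hr => hl r (by simp [hr])]

theorem ieq_eq (a b : List Iv) (h : ieq a b = true) : a = b := by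
  induction a generalizing b with
  | nil =>
      rcases b with _ | ⟨q, b⟩
      · rfl
      · simp [ieq] at h
  | cons p a ih =>
      rcases b with _ | ⟨q, b⟩
      · simp [ieq] at h
      · rw [ieq, Bool.and_eq_true, Bool.and_eq_true, feq_iff, feq_iff] at h
        obtain ⟨⟨h1, h2⟩, h3⟩ := h
        rw [ih b h3, Prod.ext h1 h2]

/-! ### Sorted disjoint intervals -/

/-- the facts about a list of intervals -/
theorem ivs_cons (k : ℕ) (B : F) (p : Iv) (l : List Iv) (h : ivs B (p :: l) = true) :
    ivs B l = true ∧ (∀ c : ℤ, mem k l c → ev k p.2 ≤ c) ∧ ev k p.1 + 1 ≤ ev k p.2 ∧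
      (lng p = true → ev k p.1 + 2 ≤ ev k p.2) ∧ (lng p = false → ev k p.2 = ev k p.1 + 1) := by
  have key : ∀ p : Iv, (feq p.2 (fs p.1 1) || fle (fs p.1 2) p.2) = true →
      ev k p.1 + 1 ≤ ev k p.2 ∧
      (lng p = true → ev k p.1 + 2 ≤ ev k p.2) ∧ (lng p = false → ev k p.2 = ev k p.1 + 1) := by
    intro p hp
    rw [Bool.or_eq_true, feq_iff] at hp
    have h1 : lng p = true → ev k p.1 + 2 ≤ ev k p.2 := by
      intro hl
      have := ev_le k hl
      rw [ev_fs] at this
      push_cast at this
      omega
    have h2 : lng p = false → ev k p.2 = ev k p.1 + 1 := by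
      intro hl
      rcases hp with hp | hp
      · rw [hp, ev_fs]
        push_cast
        ring
      · unfold lng at hl
        rw [hp] at hl
        exact absurd hl (by simp)
    refine ⟨?_, h1, h2⟩
    cases hl : lng p
    · have := h2 hl
      omega
    · have := h1 hl
      omega
  induction l generalizing p with
  | nil =>
      rw [ivs, Bool.and_eq_true] at h
      obtain ⟨h1, h2, h3⟩ := key p h.1
      exact ⟨rfl, fun c hc => absurd hc (mem_nil k c), h1, h2, h3⟩
  | cons q l ih =>
      rw [ivs, Bool.and_eq_true, Bool.and_eq_true] at h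
      obtain ⟨h1, h2, h3⟩ := key p h.1.1
      refine ⟨h.2, fun c hc => ?_, h1, h2, h3⟩
      have h4 := ev_le k h.1.2
      obtain ⟨_, h5, h6, _, _⟩ := ih q h.2
      rw [mem_cons] at hc
      rcases hc with hc | hc
      · omega
      · have := h5 c hc
        omega

/-- number of elements of an interval of integers -/
theorem ncard_Icc (a b : ℤ) : {x : ℤ | a ≤ x ∧ x ≤ b}.ncard = (b + 1 - a).toNat := by
  have h : {x : ℤ | a ≤ x ∧ x ≤ b} = ((Finset.Icc a b : Finset ℤ) : Set ℤ) := by
    ext x
    simp
  rw [h, Set.ncard_coe_finset, Int.card_Icc]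

/-- the entries of the row before -/
theorem count_J (m0 k : ℕ) (hm0 : 1 ≤ m0) (c : ℤ) (B : F) (J : List Iv) (hJ : ivs B J = true) :
    ({c' : ℤ | c - (m0 + k : ℕ) ≤ c' ∧ c' ≤ c ∧ mem k J c'}.ncard +
        (cnt k c (J.map fun p => fadd p.2 (m0, 1)) +
          cnt k c ((J.filter lng).map fun p => fadd p.2 (m0 - 1, 1))) =
      cnt k c (J.map Prod.fst) + cnt k c ((J.filter lng).map fun p => fs p.1 1)) ∨
    (2 ≤ {c' : ℤ | c - (m0 + k : ℕ) ≤ c' ∧ c' ≤ c ∧ mem k J c'}.ncard ∧
      cnt k c (J.map fun p => fadd p.2 (m0, 1)) +
          cnt k c ((J.filter lng).map fun p => fadd p.2 (m0 - 1, 1)) + 2 ≤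
      cnt k c (J.map Prod.fst) + cnt k c ((J.filter lng).map fun p => fs p.1 1)) := by
  induction J with
  | nil =>
      left
      have h1 : {c' : ℤ | c - (m0 + k : ℕ) ≤ c' ∧ c' ≤ c ∧ mem k [] c'} = ∅ := by
        ext x
        simp [mem_nil]
      rw [h1]
      simp [cnt_nil]
  | cons p J ih =>
      obtain ⟨h1, h2, h3, h4, h5⟩ := ivs_cons k B p J hJ
      have h6 := ih h1
      have hsplit : {c' : ℤ | c - (m0 + k : ℕ) ≤ c' ∧ c' ≤ c ∧ mem k (p :: J) c'} =
          {c' : ℤ | max (c - (m0 + k : ℕ)) (ev k p.1) ≤ c' ∧ c' ≤ min c (ev k p.2 - 1)} ∪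
          {c' : ℤ | c - (m0 + k : ℕ) ≤ c' ∧ c' ≤ c ∧ mem k J c'} := by
        ext x
        rw [Set.mem_union, Set.mem_setOf_eq, Set.mem_setOf_eq, Set.mem_setOf_eq, mem_cons]
        constructor
        · rintro ⟨a1, a2, a3 | a3⟩
          · left
            omega
          · exact Or.inr ⟨a1, a2, a3⟩
        · rintro (a | ⟨a1, a2, a3⟩)
          · exact ⟨by omega, by omega, Or.inl ⟨by omega, by omega⟩⟩
          · exact ⟨a1, a2, Or.inr a3⟩
      have hfin1 : {c' : ℤ | max (c - (m0 + k : ℕ)) (ev k p.1) ≤ c' ∧
          c' ≤ min c (ev k p.2 - 1)}.Finite := Set.finite_Icc _ _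
      have hfin2 : {c' : ℤ | c - (m0 + k : ℕ) ≤ c' ∧ c' ≤ c ∧ mem k J c'}.Finite := by
        apply (Set.finite_Icc (c - (m0 + k : ℕ)) c).subset
        rintro x ⟨a1, a2, _⟩
        exact ⟨a1, a2⟩
      have hdis : Disjoint {c' : ℤ | max (c - (m0 + k : ℕ)) (ev k p.1) ≤ c' ∧
          c' ≤ min c (ev k p.2 - 1)} {c' : ℤ | c - (m0 + k : ℕ) ≤ c' ∧ c' ≤ c ∧ mem k J c'} := by
        rw [Set.disjoint_left]
        rintro x ⟨_, a2⟩ ⟨_, _, a3⟩
        have := h2 x a3
        omega
      rw [hsplit, Set.ncard_union_eq hdis hfin1 hfin2, ncard_Icc]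
      have hA : ev k (m0, 1) = ((m0 + k : ℕ) : ℤ) := by
        unfold ev
        push_cast
        ring
      have hA' : ev k (m0 - 1, 1) = ((m0 + k : ℕ) : ℤ) - 1 := by
        unfold ev
        push_cast [Nat.cast_sub hm0]
        ring
      cases hl : lng p
      · have h7 := h5 hl
        rw [List.map_cons, List.map_cons, List.filter_cons, hl]
        simp only [Bool.false_eq_true, if_false]
        rw [cnt_cons, cnt_cons, ev_fadd, hA]
        clear hsplit hfin1 hfin2 hdis ih
        split_ifs <;> omega
      · have h7 := h4 hl
        rw [List.map_cons, List.map_cons, List.filter_cons, hl]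
        simp only [if_true]
        rw [List.map_cons, List.map_cons, cnt_cons, cnt_cons, cnt_cons, cnt_cons, ev_fadd, ev_fadd,
          ev_fs, hA, hA']
        clear hsplit hfin1 hfin2 hdis ih
        split_ifs <;> omega

/-- the entry of the row itself -/
theorem count_own (m0 k : ℕ) (c : ℤ) (C : F) (own : List Iv) (hown : ivs C own = true) :
    {c' : ℤ | c' = c - (2 * (m0 + k : ℕ) + 2) ∧ mem k own c'}.ncard +
        cnt k c (own.map fun p => fadd p.2 (2 * m0 + 2, 2)) =
      cnt k c (own.map fun p => fadd p.1 (2 * m0 + 2, 2)) := by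
  classical
  have hset : {c' : ℤ | c' = c - (2 * (m0 + k : ℕ) + 2) ∧ mem k own c'}.ncard =
      if mem k own (c - (2 * (m0 + k : ℕ) + 2)) then 1 else 0 := by
    split_ifs with h
    · have h1 : {c' : ℤ | c' = c - (2 * (m0 + k : ℕ) + 2) ∧ mem k own c'} =
          {c - (2 * (m0 + k : ℕ) + 2)} := by
        ext x
        rw [Set.mem_setOf_eq, Set.mem_singleton_iff]
        constructor
        · exact fun a => a.1
        · rintro rfl
          exact ⟨rfl, h⟩
      rw [h1, Set.ncard_singleton]
    · have h1 : {c' : ℤ | c' = c - (2 * (m0 + k : ℕ) + 2) ∧ mem k own c'} = ∅ := by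
        ext x
        rw [Set.mem_setOf_eq, Set.mem_empty_iff_false, iff_false]
        rintro ⟨rfl, h2⟩
        exact h h2
      rw [h1, Set.ncard_empty]
  rw [hset]
  clear hset
  have hA : ev k (2 * m0 + 2, 2) = 2 * ((m0 + k : ℕ) : ℤ) + 2 := by
    unfold ev
    push_cast
    ring
  induction own with
  | nil => simp [mem_nil, cnt_nil]
  | cons p l ih =>
      obtain ⟨h1, h2, h3, h4, h5⟩ := ivs_cons k C p l hown
      have h6 := ih h1
      rw [List.map_cons, List.map_cons, cnt_cons, cnt_cons, ev_fadd, ev_fadd, hA]
      have h7 := h2 (c - (2 * (m0 + k : ℕ) + 2))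
      have h8 := mem_cons k p l (c - (2 * (m0 + k : ℕ) + 2))
      by_cases h9 : mem k l (c - (2 * (m0 + k : ℕ) + 2))
      · have h10 := h7 h9
        rw [if_pos (h8.2 (Or.inr h9))]
        rw [if_pos h9] at h6
        split_ifs <;> omega
      · rw [if_neg h9] at h6
        by_cases h10 : ev k p.1 ≤ c - (2 * (m0 + k : ℕ) + 2) ∧
            c - (2 * (m0 + k : ℕ) + 2) < ev k p.2
        · rw [if_pos (h8.2 (Or.inl h10))]
          split_ifs <;> omega
        · rw [if_neg fun h11 => (h8.1 h11).elim h10 h9]
          split_ifs <;> omega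

end Count

open Count in
theorem rowChk_sound (m0 k : ℕ) (hm0 : 1 ≤ m0) (C B : F) (J own exp : List Iv)
    (hJ : ivs B J = true) (hown : ivs C own = true) (h : rowChk m0 C J own exp = true)
    (c : ℤ) (hc : c < ev k C) :
    mem k exp c ↔ {c' : ℤ | c - (m0 + k : ℕ) ≤ c' ∧ c' ≤ c ∧ mem k J c'}.ncard +
      {c' : ℤ | c' = c - (2 * (m0 + k : ℕ) + 2) ∧ mem k own c'}.ncard = 1 := by
  have h' : (srt (starts m0 C J own) && srt (ends m0 C J own) &&
    match ones C (0, 0) (starts m0 C J own) (ends m0 C J own) with
    | none => false
    | some R => ieq (join R) exp) = true := h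
  rw [Bool.and_eq_true, Bool.and_eq_true] at h'
  obtain ⟨⟨hS, hT⟩, h3⟩ := h'
  cases hr : ones C (0, 0) (starts m0 C J own) (ends m0 C J own) with
  | none =>
      rw [hr] at h3
      exact absurd h3 (by simp)
  | some R =>
      rw [hr] at h3
      simp only at h3
      have h0 : ev k (0, 0) = 0 := by
        unfold ev
        simp
      obtain ⟨o1, o2, o3⟩ := ones_sound k C _ (0, 0) _ R hS hT
        (fun y _ => by rw [h0]; exact ev_nonneg k y) hr
      rw [← ieq_eq _ _ h3, join_sound k c R o3]
      have hstarts : cnt k c (starts m0 C J own) = cnt k c (J.map Prod.fst) +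
          cnt k c ((J.filter lng).map fun p => fs p.1 1) +
          cnt k c (own.map fun p => fadd p.1 (2 * m0 + 2, 2)) := by
        unfold starts
        rw [cnt_merge, cnt_merge, cnt_filter k c C hc, cnt_filter k c C hc, cnt_filter k c C hc]
      have hends : cnt k c (ends m0 C J own) = cnt k c (J.map fun p => fadd p.2 (m0, 1)) +
          cnt k c ((J.filter lng).map fun p => fadd p.2 (m0 - 1, 1)) +
          cnt k c (own.map fun p => fadd p.2 (2 * m0 + 2, 2)) := by
        unfold ends
        rw [cnt_merge, cnt_merge, cnt_filter k c C hc, cnt_filter k c C hc, cnt_filter k c C hc]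
      have hmain : cnt k c (starts m0 C J own) = cnt k c (ends m0 C J own) + 1 ↔
          {c' : ℤ | c - (m0 + k : ℕ) ≤ c' ∧ c' ≤ c ∧ mem k J c'}.ncard +
            {c' : ℤ | c' = c - (2 * (m0 + k : ℕ) + 2) ∧ mem k own c'}.ncard = 1 := by
        rw [hstarts, hends]
        have a1 := count_J m0 k hm0 c B J hJ
        have a2 := count_own m0 k c C own hown
        omega
      by_cases hc0 : 0 ≤ c
      · rw [o1 c (by rw [h0]; exact hc0) hc, hmain]
      · rw [← hmain]
        constructor
        · intro h5
          have := o2 c h5
          omega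
        · intro h5
          have h6 : cnt k c (starts m0 C J own) = 0 := by
            apply cnt_zero
            intro y _
            have := ev_nonneg k y
            omega
          omega

end Pool.Agent.H65.CE
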