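import Pool.Agent.H65.CE.Cells
import Pool.Agent.H65.CE.Count

/-!
# The cells
-/

set_option autoImplicit false

namespace Pool.Agent.H65.CE

theorem cells (u m0 k : ℕ) (C : F) (rows : List Row) (hu : 2 ≤ u) (hm0 : 1 ≤ m0)
    (hco : Nat.Coprime (m0 + k) u) {X : ℤ → Bool} (hX : Seq u (m0 + k) X)
    (h : ∀ t < u, rowOk u m0 C rows t = true) (t : ℕ) (ht : t < u) (c : ℤ) (hc : c < ev k C) :
    X ((m0 + k : ℕ) * t + u * c) = true ↔ mem k (dec (rows.getD t (0, 0))) c :=
  cells_of (fun m0 k hm0 C B J own exp hJ hown h c hc =>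
    rowChk_sound m0 k hm0 C B J own exp hJ hown h c hc) u m0 k C rows hu hm0 hco hX h t ht c hc

end Pool.Agent.H65.CE
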