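import Mathlib

/-!
# The Ulam sequences `U(u, 2 m)`: the sequence of the odd terms and the symbolic engine

The odd terms are `u + 2 z` with `X z = true`; the even terms are `2 (m + j u)` for `j ≤ m` and
`2 (2 m + 2) u`.  A cell `(t, c)` is the position `m t + u c`.

Symbolic part: `m = m0 + k`, a linear form `f = (a, b)` has the value `a + b k`; a row is a list of
half open intervals of linear forms.
-/

set_option autoImplicit false

namespace Pool.Agent.H65.CE

/-! ## The sequence -/

/-- The number of odd terms among the predecessors of `z`. -/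
def num (u m : ℕ) (X : ℤ → Bool) (z : ℤ) : ℕ :=
  (∑ j ∈ Finset.range (m + 1), (X (z - m - j * u)).toNat) + (X (z - (2 * m + 2) * u)).toNat

/-- The sequence of the odd terms. -/
structure Seq (u m : ℕ) (X : ℤ → Bool) : Prop where
  neg : ∀ z : ℤ, z < 0 → X z = false
  zero : X 0 = true
  rule : ∀ z : ℤ, 0 < z → (X z = true ↔ num u m X z = 1)

/-- `a` is the smaller entry of a pair with sum `K`. -/
def Rep (X : ℤ → Bool) (K a : ℤ) : Prop := X a = true ∧ X (K - a) = true ∧ 2 * a < K

/-- Two different pairs with sum `K`. -/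
def Two (X : ℤ → Bool) (K : ℤ) : Prop := ∃ a b : ℤ, a ≠ b ∧ Rep X K a ∧ Rep X K b

/-- The facts about the pairs of odd terms which determine the even terms. -/
structure Good (u m : ℕ) (X : ℤ → Bool) : Prop where
  o1 : ∀ c : ℕ, c < m → ∀ a : ℤ, Rep X (m + u * c) a ↔ a = 0
  o2 : ∀ a : ℤ, Rep X (u * (2 * m + 1)) a ↔ a = u * m
  t2 : ∀ c : ℕ, c < 3 → ∃ a : ℤ, Rep X (2 * m + u * c) a
  nz : ∀ t c : ℕ, t < u → (t = 0 → c ≠ 2 * m + 1) → (t = 1 → m ≤ c) → (t = 2 → 3 ≤ c) →
    Two X (m * t + u * c) ∨
      (t ≠ 1 ∧ (t = 2 → 2 * m ≤ c + 1) ∧ ∀ a : ℤ, ¬ Rep X (m * t + u * c) a)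

/-! ## Linear forms -/

/-- A linear form `a + b k`. -/
abbrev F : Type := ℕ × ℕ

/-- The value of a linear form. -/
def ev (k : ℕ) (f : F) : ℤ := (f.1 : ℤ) + f.2 * k

def fle (f g : F) : Bool := Nat.ble f.1 g.1 && Nat.ble f.2 g.2

def feq (f g : F) : Bool := Nat.beq f.1 g.1 && Nat.beq f.2 g.2

def fadd (f g : F) : F := (f.1 + g.1, f.2 + g.2)

/-- `f + n` -/
def fs (f : F) (n : ℕ) : F := (f.1 + n, f.2)

/-- comparable -/
def fcmp (f g : F) : Bool := fle f g || fle g f

def fmax (f g : F) : F := bif fle f g then g else f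

def fmin (f g : F) : F := bif fle f g then f else g

/-- A half open interval. -/
abbrev Iv : Type := F × F

/-- `c` lies in one of the intervals. -/
def mem (k : ℕ) (I : List Iv) (c : ℤ) : Prop := ∃ p ∈ I, ev k p.1 ≤ c ∧ c < ev k p.2

/-- Interval number `i` of an encoded row. -/
def iv (R i : ℕ) : Iv :=
  (fun x => ((x % 1048576, x / 1048576 % 4096), (x / 4294967296 % 1048576,
    x / 4503599627370496 % 4096))) (R / 2 ^ (64 * i))

/-- An encoded row: number of intervals and code. -/
abbrev Row : Type := ℕ × ℕ

def dec (r : Row) : List Iv := (List.range r.1).map (iv r.2)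

/-! ## The rule -/

/-- merge of two sorted lists (with fuel) -/
def merge : ℕ → List F → List F → List F
  | 0, a, b => a ++ b
  | _ + 1, [], b => b
  | _ + 1, a, [] => a
  | n + 1, x :: a, y :: b => bif fle x y then x :: merge n a (y :: b) else y :: merge n (x :: a) b

/-- sorted -/
def srt : List F → Bool
  | [] => true
  | [_] => true
  | x :: y :: l => fle x y && srt (y :: l)

/-- sorted disjoint nonempty intervals below `C`, each of length exactly one or at least two -/
def ivs (C : F) : List Iv → Bool
  | [] => true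
  | [p] => (feq p.2 (fs p.1 1) || fle (fs p.1 2) p.2) && fle p.2 C
  | p :: q :: l => (feq p.2 (fs p.1 1) || fle (fs p.1 2) p.2) && fle p.2 q.1 && ivs C (q :: l)

/-- length at least two -/
def lng (p : Iv) : Bool := fle (fs p.1 2) p.2

/-- The next boundary, cut at `C`. -/
def hd (C : F) : List F → F
  | [] => C
  | x :: _ => x

/-- The set of the `c < C` with exactly one more start than end, as a list of intervals;
`prev` is the last end. -/
def ones (C : F) : F → List F → List F → Option (List Iv)
  | _, [], _ => some []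
  | prev, s :: S, T =>
    let lo := fmax prev s
    let hi := fmin (fmin (hd C S) (hd C T)) C
    bif fcmp prev s && fcmp (hd C S) (hd C T) && fcmp (fmin (hd C S) (hd C T)) C &&
        fle s (hd C T) then
      match T with
      | [] => bif fle (fs lo 1) hi then some [(lo, hi)] else bif fle hi lo then some [] else none
      | τ :: T' =>
        match ones C τ S T' with
        | none => none
        | some R => bif fle (fs lo 1) hi then some ((lo, hi) :: R)
            else bif fle hi lo then some R else none
    else none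

/-- Join adjacent intervals; the current one is `p`. -/
def joinN (p : Iv) : List Iv → List Iv
  | [] => [p]
  | q :: l => bif feq p.2 q.1 then joinN (p.1, q.2) l else p :: joinN q l

def join : List Iv → List Iv
  | [] => []
  | p :: l => joinN p l

def ieq : List Iv → List Iv → Bool
  | [], [] => true
  | p :: l, q :: r => feq p.1 q.1 && feq p.2 q.2 && ieq l r
  | _, _ => false

/-- The starts of the covering intervals of a row; `J` is the row before (already shifted),
`own` the row itself. -/
def starts (m0 : ℕ) (C : F) (J own : List Iv) : List F :=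
  (fun A B D => merge (A.length + B.length + D.length) (merge (A.length + B.length) A B) D)
    ((J.map Prod.fst).filter fun f => !fle C f)
    (((J.filter lng).map fun p => fs p.1 1).filter fun f => !fle C f)
    ((own.map fun p => fadd p.1 (2 * m0 + 2, 2)).filter fun f => !fle C f)

/-- The ends of the covering intervals of a row. -/
def ends (m0 : ℕ) (C : F) (J own : List Iv) : List F :=
  (fun A B D => merge (A.length + B.length + D.length) (merge (A.length + B.length) A B) D)
    ((J.map fun p => fadd p.2 (m0, 1)).filter fun f => !fle C f)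
    (((J.filter lng).map fun p => fadd p.2 (m0 - 1, 1)).filter fun f => !fle C f)
    ((own.map fun p => fadd p.2 (2 * m0 + 2, 2)).filter fun f => !fle C f)

/-- Check of one row; `exp` is the expected set of the `c > 0` or `c ≥ 0`. -/
def rowChk (m0 : ℕ) (C : F) (J own exp : List Iv) : Bool :=
  (fun S T => srt S && srt T &&
    match ones C (0, 0) S T with
    | none => false
    | some R => ieq (join R) exp) (starts m0 C J own) (ends m0 C J own)

/-- The row before row `t`, shifted for `t = 0`. -/
def before (u m0 : ℕ) (rows : List Row) (t : ℕ) : List Iv :=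
  bif Nat.beq t 0 then (dec (rows.getD (u - 1) (0, 0))).map fun p =>
    (fadd p.1 (m0, 1), fadd p.2 (m0, 1))
  else dec (rows.getD (t - 1) (0, 0))

/-- Check of row `t`. -/
def rowOk (u m0 : ℕ) (C : F) (rows : List Row) (t : ℕ) : Bool :=
  (fun own => ivs C own &&
    bif Nat.beq t 0 then
      match own with
      | [] => false
      | p :: l => feq p.1 (0, 0) && feq p.2 (1, 0) && rowChk m0 C (before u m0 rows t) own l
    else rowChk m0 C (before u m0 rows t) own own) (dec (rows.getD t (0, 0)))

/-! ## Periodicity -/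

/-- Intersection with `[a, b)`. -/
def clip (a b : F) : List Iv → List Iv
  | [] => []
  | p :: I => bif fle (fs (fmax p.1 a) 1) (fmin p.2 b) then (fmax p.1 a, fmin p.2 b) :: clip a b I
    else clip a b I

/-- All comparisons needed by `clip` are decided. -/
def clipOk (a b : F) : List Iv → Bool
  | [] => true
  | p :: I => fcmp p.1 a && fcmp p.2 b &&
    (fle (fs (fmax p.1 a) 1) (fmin p.2 b) || fle (fmin p.2 b) (fmax p.1 a)) && clipOk a b I

/-- Row `t` has period `P` on `[c0, c0 + 2 m + 2)`. -/
def perOk (m0 : ℕ) (c0 P : F) (I : List Iv) : Bool :=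
  (fun w => clipOk c0 (fadd c0 w) I && clipOk (fadd c0 P) (fadd (fadd c0 P) w) I &&
    ieq ((clip c0 (fadd c0 w) I).map fun p => (fadd p.1 P, fadd p.2 P))
      (clip (fadd c0 P) (fadd (fadd c0 P) w) I)) ((2 * m0 + 2, 2) : F)

/-! ## Pairs -/

/-- An interval: row and number. -/
abbrev Id : Type := ℕ × ℕ

def ideq (i j : Id) : Bool := Nat.beq i.1 j.1 && Nat.beq i.2 j.2

/-- The interval `i` of the rows. -/
def ivl (rows : List Row) (i : Id) : Iv := iv (rows.getD i.1 (0, 0)).2 i.2

/-- The number of the interval is in range. -/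
def idOk (u : ℕ) (rows : List Row) (i : Id) : Bool :=
  Nat.ble (i.1 + 1) u && Nat.ble (i.2 + 1) (rows.getD i.1 (0, 0)).1

/-- The shift of the sum. -/
def shf (m0 t : ℕ) (i j : Id) : F := bif Nat.beq (i.1 + j.1) t then (0, 0) else (m0, 1)

/-- The rows of `i` and `j` add up to row `t`. -/
def rowSum (u t : ℕ) (i j : Id) : Bool := Nat.beq (i.1 + j.1) t || Nat.beq (i.1 + j.1) (t + u)

/-- Every `c` in `[x, y)` has a pair with entries in the intervals `i`, `j`. -/
def wit1 (u m0 : ℕ) (rows : List Row) (t : ℕ) (x y : F) (i j : Id) : Bool :=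
  idOk u rows i && idOk u rows j && rowSum u t i j &&
  (fun sh A B => bif ideq i j then
      fle (fs (fadd (fadd A.1 A.1) sh) 1) x && fle (fs y 2) (fadd (fadd A.2 A.2) sh)
    else fle (fadd (fadd A.1 B.1) sh) x && fle (fs y 1) (fadd (fadd A.2 B.2) sh))
    (shf m0 t i j) (ivl rows i) (ivl rows j)

/-- Every `c` in `[x, y)` has two pairs with entries in the intervals `i`, `j`. -/
def wit2 (u m0 : ℕ) (rows : List Row) (t : ℕ) (x y : F) (i j : Id) : Bool :=
  idOk u rows i && idOk u rows j && rowSum u t i j &&
  (fun sh A B => bif ideq i j then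
      fle (fs (fadd (fadd A.1 A.1) sh) 3) x && fle (fs y 4) (fadd (fadd A.2 A.2) sh)
    else lng A && lng B && fle (fs (fadd (fadd A.1 B.1) sh) 1) x &&
      fle (fs y 2) (fadd (fadd A.2 B.2) sh))
    (shf m0 t i j) (ivl rows i) (ivl rows j)

/-- The same pair of intervals. -/
def same (i j i' j' : Id) : Bool := (ideq i i' && ideq j j') || (ideq i j' && ideq j i')

/-- The interval `i` lies below `c0` and `j` above. -/
def late1 (rows : List Row) (c0 : F) (i j : Id) : Bool :=
  fle (ivl rows i).2 c0 && fle c0 (ivl rows j).1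

/-- A piece: its end and two pairs of intervals. -/
def pieceOk (u m0 : ℕ) (rows : List Row) (t : ℕ) (late : Bool) (c0 x y : F) (i j i' j' : Id) :
    Bool :=
  (bif same i j i' j' then wit2 u m0 rows t x y i j
    else wit1 u m0 rows t x y i j && wit1 u m0 rows t x y i' j') &&
  (bif late then late1 rows c0 i j && late1 rows c0 i' j' else true)

/-- Field of a code. -/
def fld (x p w : ℕ) : ℕ := x / 2 ^ p % 2 ^ w

/-- Check of `n` encoded pieces from `x` to `y`. -/
def cov (u m0 : ℕ) (rows : List Row) (t : ℕ) (late : Bool) (c0 : F) : ℕ → ℕ → F → F → Bool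
  | 0, _, x, y => fle y x
  | n + 1, code, x, y =>
    (fun z : F => pieceOk u m0 rows t late c0 x z
        (fld code 32 6, fld code 38 16) (fld code 54 6, fld code 60 16)
        (fld code 76 6, fld code 82 16) (fld code 98 6, fld code 104 16) &&
      cov u m0 rows t late c0 n (code / 2 ^ 120) z y) (fld code 0 20, fld code 20 12)

/-! ## Sums without pairs -/

/-- The intervals which start below `y`. -/
def pre (y : F) (I : List Iv) : List Iv := I.filter fun p => !fle y p.1

/-- Every sum of an entry of `A` and an entry of `B` (with shift `sh`) is outside of `[x, y)`. -/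
def apart (sh x y : F) (A B : Iv) : Bool :=
  fle y (fadd (fadd A.1 B.1) sh) || fle (fadd (fadd A.2 B.2) sh) (fs x 1)

/-- The partner row of `s` in a sum in row `t`. -/
def partner (u t s : ℕ) : ℕ := bif Nat.ble s t then t - s else t + u - s

/-- The shift for the partner row. -/
def pshift (m0 t s : ℕ) : F := bif Nat.ble s t then (0, 0) else (m0, 1)

/-- All pairs of intervals with a sum in `[x, y)` of row `t` satisfy `ex`. -/
def sumOk (u m0 : ℕ) (rows : List Row) (t : ℕ) (x y : F) (ex : ℕ → Iv → ℕ → Iv → Bool) : Bool :=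
  (List.range u).all fun s =>
    (pre y (dec (rows.getD s (0, 0)))).all fun A =>
      (pre y (dec (rows.getD (partner u t s) (0, 0)))).all fun B =>
        apart (pshift m0 t s) x y A B || ex s A (partner u t s) B

def iveq (p q : Iv) : Bool := feq p.1 q.1 && feq p.2 q.2

/-- The point `0`. -/
def pt : Iv := ((0, 0), (1, 0))

/-- No sum in `[x, y)` of row `t` is a sum of two entries (up to `0 + 0`). -/
def zeroOk (u m0 : ℕ) (rows : List Row) (t : ℕ) (x y : F) : Bool :=
  !(Nat.beq t 1) && (!(Nat.beq t 2) || fle (2 * m0 - 1, 2) x) &&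
  sumOk u m0 rows t x y fun s A s' B => Nat.beq s 0 && Nat.beq s' 0 && iveq A pt && iveq B pt

/-- Encoded pieces: number and code. -/
abbrev Pcs : Type := ℕ × ℕ

/-- A segment: its end, and `none` for a segment without pairs, `some` pieces for a segment with
two pairs. -/
abbrev Sg : Type := F × Option Pcs

/-- The segments reach from `x` to `y`. -/
def chain (u m0 : ℕ) (rows : List Row) (t : ℕ) (c0 : F) : List Sg → F → F → Bool
  | [], x, y => fle y x
  | g :: l, x, y =>
    (match g.2 with
      | none => zeroOk u m0 rows t x g.1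
      | some p => cov u m0 rows t false c0 p.1 p.2 x g.1) && chain u m0 rows t c0 l g.1 y

/-- The pairs of row `t` from `x` to `κ` and on `[κ, κ + P)`. -/
def covOk (u m0 : ℕ) (rows : List Row) (c0 P κ : F) (t : ℕ) (x : F) (g : List Sg) (last : Pcs) :
    Bool :=
  chain u m0 rows t c0 g x κ && cov u m0 rows t true c0 last.1 last.2 κ (fadd κ P)

/-- The facts about special sums. -/
def specOk (u m0 : ℕ) (rows : List Row) : Bool :=
  sumOk u m0 rows 1 (0, 0) (m0, 1)
    (fun s A s' B => (Nat.beq s 0 && iveq A pt) || (Nat.beq s' 0 && iveq B pt)) &&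
  sumOk u m0 rows 0 (2 * m0 + 1, 2) (2 * m0 + 2, 2)
    (fun s A s' B => Nat.beq s 0 && Nat.beq s' 0 && iveq A ((m0, 1), (2 * m0 + 1, 2)) &&
      iveq B ((m0, 1), (2 * m0 + 1, 2))) &&
  Nat.ble 2 (rows.getD 0 (0, 0)).1 && Nat.ble 1 (rows.getD 1 (0, 0)).1 &&
  Nat.ble 1 (rows.getD 2 (0, 0)).1 &&
  iveq (ivl rows (0, 0)) pt && iveq (ivl rows (0, 1)) ((m0, 1), (2 * m0 + 1, 2)) &&
  iveq (ivl rows (1, 0)) ((0, 0), (m0, 1)) && iveq (ivl rows (2, 0)) pt

/-- All data for one `u`: the rows, the horizon, the start of the period, the period, the start of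
the late part, the segments. -/
structure Dat where
  u : ℕ
  m0 : ℕ
  rows : List Row
  C : F
  c0 : F
  P : F
  κ : F

/-- The relations between the parameters. -/
def parOk (D : Dat) : Bool :=
  Nat.ble 7 D.u && Nat.beq (D.u % 2) 1 && Nat.ble 1 D.m0 && Nat.beq D.rows.length D.u &&
  fle (fadd D.c0 D.P) D.C && fle (fadd (fadd D.c0 D.P) (2 * D.m0 + 2, 2)) D.C &&
  fle (fadd D.κ D.P) D.C && fle D.c0 D.κ && fle (1, 0) D.P && fle (2 * D.m0 + 2, 2) D.κ

end Pool.Agent.H65.CE
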