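import Pool.Agent.H65.CE.Ulam

/-!
# The number of the even terms
-/

set_option autoImplicit false

namespace Pool.Agent.H65.CE

theorem even_card (u m : ℕ) (hu : 1 ≤ u) (hm : 1 ≤ m) :
    {n : ℕ | (∃ j ≤ m, n = 2 * m + 2 * j * u) ∨ n = (4 * m + 4) * u}.ncard = m + 2 := by
  have hs : {n : ℕ | (∃ j ≤ m, n = 2 * m + 2 * j * u) ∨ n = (4 * m + 4) * u} =
      ↑(insert ((4 * m + 4) * u) ((Finset.range (m + 1)).image fun j => 2 * m + 2 * j * u)) := by
    ext n
    simp only [Set.mem_ofPred_eq, Finset.coe_insert, Finset.coe_image, Set.mem_insert_iff,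
      Set.mem_image, Finset.coe_range, Set.mem_Iio]
    constructor
    · rintro (⟨j, hj, h⟩ | h)
      · exact Or.inr ⟨j, by omega, h.symm⟩
      · exact Or.inl h
    · rintro (h | ⟨j, hj, h⟩)
      · exact Or.inr h
      · exact Or.inl ⟨j, by omega, h.symm⟩
  rw [hs, Set.ncard_coe_finset, Finset.card_insert_of_notMem, Finset.card_image_of_injOn,
    Finset.card_range]
  · intro a _ b _ hab
    have h : 2 * a * u = 2 * b * u := by
      have h' : 2 * m + 2 * a * u = 2 * m + 2 * b * u := hab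
      omega
    have h2 := Nat.eq_of_mul_eq_mul_right (by omega) h
    omega
  · intro h
    rw [Finset.mem_image] at h
    obtain ⟨j, hj, h⟩ := h
    rw [Finset.mem_range] at hj
    have h1 : 2 * j * u ≤ 2 * m * u := Nat.mul_le_mul_right u (by omega)
    have h2 : (4 * m + 4) * u = 2 * m * u + (2 * m + 4) * u := by ring
    have h3 : 2 * m + 4 ≤ (2 * m + 4) * u := Nat.le_mul_of_pos_right _ (by omega)
    omega

/-- The even terms, for initial terms `u` and `v`. -/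
theorem even_terms' (u v : ℕ) (hu : 7 ≤ u) (hodd : Odd u) (hv : 6 ≤ v) (hev : Even v)
    (hco : Nat.Coprime u v) (hG : ∀ (m : ℕ), 3 ≤ m → Nat.Coprime m u → ∀ {X : ℤ → Bool},
      Seq u m X → Good u m X) (S : Set ℕ)
    (h1 : ∀ n : ℕ, n ≤ max u v → (n ∈ S ↔ (n = u ∨ n = v)))
    (h2 : ∀ n : ℕ, max u v < n →
      (n ∈ S ↔ ∃! p : ℕ × ℕ, p.1 < p.2 ∧ p.1 ∈ S ∧ p.2 ∈ S ∧ p.1 + p.2 = n)) :
    {n : ℕ | n ∈ S ∧ Even n} = {n : ℕ | (∃ j ≤ v / 2, n = v + 2 * j * u) ∨ n = (2 * v + 4) * u} ∧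
      {n : ℕ | n ∈ S ∧ Even n}.ncard = v / 2 + 2 := by
  obtain ⟨m, rfl⟩ := hev.two_dvd
  have hm : 3 ≤ m := by omega
  have hco' : Nat.Coprime m u := (Nat.Coprime.coprime_mul_left_right hco).symm
  obtain ⟨X, hX⟩ := exists_seq u m (by omega) (by omega)
  have h := even_terms u m hu (Nat.odd_iff.1 hodd) hm hco' hX (hG m hm hco' hX) S h1 h2
  have hd : 2 * m / 2 = m := by omega
  have e : (2 * (2 * m) + 4) * u = (4 * m + 4) * u := by ring
  rw [h, hd, e]
  exact ⟨rfl, even_card u m (by omega) (by omega)⟩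

end Pool.Agent.H65.CE
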