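import Pool.Agent.H65.CE.B11A
import Pool.Agent.H65.CE.U11
import Pool.Agent.H65.CE.Bits2

/-!
# All `m ≥ 3` for `u = 11`
-/

set_option autoImplicit false

namespace Pool.Agent.H65.CE

theorem good11 (m : ℕ) (hm : 3 ≤ m) (hco : Nat.Coprime m 11) {X : ℤ → Bool}
    (hX : Seq 11 m X) : Good 11 m X := by
  by_cases h : 24 ≤ m
  · obtain ⟨k, rfl⟩ := Nat.exists_eq_add_of_le h
    exact U11.good k hco hX
  · have hm' : m < 24 := by omega
    clear h
    interval_cases m
    · exact good_of_fast _ _ _ _ _ _ _ _ (by norm_num) (by norm_num) (by norm_num) hco B11.b3 hX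
    · exact good_of_fast _ _ _ _ _ _ _ _ (by norm_num) (by norm_num) (by norm_num) hco B11.b4 hX
    · exact good_of_fast _ _ _ _ _ _ _ _ (by norm_num) (by norm_num) (by norm_num) hco B11.b5 hX
    · exact good_of_fast _ _ _ _ _ _ _ _ (by norm_num) (by norm_num) (by norm_num) hco B11.b6 hX
    · exact good_of_fast _ _ _ _ _ _ _ _ (by norm_num) (by norm_num) (by norm_num) hco B11.b7 hX
    · exact good_of_fast _ _ _ _ _ _ _ _ (by norm_num) (by norm_num) (by norm_num) hco B11.b8 hX
    · exact good_of_fast _ _ _ _ _ _ _ _ (by norm_num) (by norm_num) (by norm_num) hco B11.b9 hX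
    · exact good_of_fast _ _ _ _ _ _ _ _ (by norm_num) (by norm_num) (by norm_num) hco B11.b10 hX
    · exact absurd hco (by decide)
    · exact good_of_fast _ _ _ _ _ _ _ _ (by norm_num) (by norm_num) (by norm_num) hco B11.b12 hX
    · exact good_of_fast _ _ _ _ _ _ _ _ (by norm_num) (by norm_num) (by norm_num) hco B11.b13 hX
    · exact good_of_fast _ _ _ _ _ _ _ _ (by norm_num) (by norm_num) (by norm_num) hco B11.b14 hX
    · exact good_of_fast _ _ _ _ _ _ _ _ (by norm_num) (by norm_num) (by norm_num) hco B11.b15 hX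
    · exact good_of_fast _ _ _ _ _ _ _ _ (by norm_num) (by norm_num) (by norm_num) hco B11.b16 hX
    · exact good_of_fast _ _ _ _ _ _ _ _ (by norm_num) (by norm_num) (by norm_num) hco B11.b17 hX
    · exact good_of_fast _ _ _ _ _ _ _ _ (by norm_num) (by norm_num) (by norm_num) hco B11.b18 hX
    · exact good_of_fast _ _ _ _ _ _ _ _ (by norm_num) (by norm_num) (by norm_num) hco B11.b19 hX
    · exact good_of_fast _ _ _ _ _ _ _ _ (by norm_num) (by norm_num) (by norm_num) hco B11.b20 hX
    · exact good_of_fast _ _ _ _ _ _ _ _ (by norm_num) (by norm_num) (by norm_num) hco B11.b21 hX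
    · exact absurd hco (by decide)
    · exact good_of_fast _ _ _ _ _ _ _ _ (by norm_num) (by norm_num) (by norm_num) hco B11.b23 hX

end Pool.Agent.H65.CE
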