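import Pool.Agent.H65.CE.U13D

/-!
# Checks for `u = 13`
-/

set_option autoImplicit false

namespace Pool.Agent.H65.CE.U13

theorem r8 : rowOk 13 34 C rows 8 = true := by decide +kernel

theorem p8 : perOk 34 c0 P (dec (rows.getD 8 (0, 0))) = true := by decide +kernel

theorem v8 : covOk 13 34 rows c0 P κ 8 (0, 0) g8 l8 = true := by
  decide +kernel

theorem r9 : rowOk 13 34 C rows 9 = true := by decide +kernel

theorem p9 : perOk 34 c0 P (dec (rows.getD 9 (0, 0))) = true := by decide +kernel

theorem v9 : covOk 13 34 rows c0 P κ 9 (0, 0) g9 l9 = true := by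
  decide +kernel

theorem r10 : rowOk 13 34 C rows 10 = true := by decide +kernel

theorem p10 : perOk 34 c0 P (dec (rows.getD 10 (0, 0))) = true := by decide +kernel

theorem v10 : covOk 13 34 rows c0 P κ 10 (0, 0) g10 l10 = true := by
  decide +kernel

theorem r11 : rowOk 13 34 C rows 11 = true := by decide +kernel

theorem p11 : perOk 34 c0 P (dec (rows.getD 11 (0, 0))) = true := by decide +kernel

theorem v11 : covOk 13 34 rows c0 P κ 11 (0, 0) g11 l11 = true := by
  decide +kernel

end Pool.Agent.H65.CE.U13
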