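import Pool.Agent.H65.CE.U13D

/-!
# Checks for `u = 13`
-/

set_option autoImplicit false

namespace Pool.Agent.H65.CE.U13

theorem r12 : rowOk 13 34 C rows 12 = true := by decide +kernel

theorem p12 : perOk 34 c0 P (dec (rows.getD 12 (0, 0))) = true := by decide +kernel

theorem v12 : covOk 13 34 rows c0 P κ 12 (0, 0) g12 l12 = true := by
  decide +kernel

end Pool.Agent.H65.CE.U13
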