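import Pool.Agent.H65.CE.B13A
import Pool.Agent.H65.CE.B13B
import Pool.Agent.H65.CE.B13C
import Pool.Agent.H65.CE.B13D
import Pool.Agent.H65.CE.B13E
import Pool.Agent.H65.CE.U13
import Pool.Agent.H65.CE.Bits2

/-!
# All `m ≥ 3` for `u = 13`
-/

set_option autoImplicit false

namespace Pool.Agent.H65.CE

theorem good13 (m : ℕ) (hm : 3 ≤ m) (hco : Nat.Coprime m 13) {X : ℤ → Bool}
    (hX : Seq 13 m X) : Good 13 m X := by
  by_cases h : 34 ≤ m
  · obtain ⟨k, rfl⟩ := Nat.exists_eq_add_of_le h
    exact U13.good k hco hX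
  · have hm' : m < 34 := by omega
    clear h
    interval_cases m
    · exact good_of_fast _ _ _ _ _ _ _ _ (by norm_num) (by norm_num) (by norm_num) hco B13.b3 hX
    · exact good_of_fast _ _ _ _ _ _ _ _ (by norm_num) (by norm_num) (by norm_num) hco B13.b4 hX
    · exact good_of_fast _ _ _ _ _ _ _ _ (by norm_num) (by norm_num) (by norm_num) hco B13.b5 hX
    · exact good_of_fast _ _ _ _ _ _ _ _ (by norm_num) (by norm_num) (by norm_num) hco B13.b6 hX
    · exact good_of_fast _ _ _ _ _ _ _ _ (by norm_num) (by norm_num) (by norm_num) hco B13.b7 hX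
    · exact good_of_fast _ _ _ _ _ _ _ _ (by norm_num) (by norm_num) (by norm_num) hco B13.b8 hX
    · exact good_of_fast _ _ _ _ _ _ _ _ (by norm_num) (by norm_num) (by norm_num) hco B13.b9 hX
    · exact good_of_fast _ _ _ _ _ _ _ _ (by norm_num) (by norm_num) (by norm_num) hco B13.b10 hX
    · exact good_of_fast _ _ _ _ _ _ _ _ (by norm_num) (by norm_num) (by norm_num) hco B13.b11 hX
    · exact good_of_fast _ _ _ _ _ _ _ _ (by norm_num) (by norm_num) (by norm_num) hco B13.b12 hX
    · exact absurd hco (by decide)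
    · exact good_of_fast _ _ _ _ _ _ _ _ (by norm_num) (by norm_num) (by norm_num) hco B13.b14 hX
    · exact good_of_fast _ _ _ _ _ _ _ _ (by norm_num) (by norm_num) (by norm_num) hco B13.b15 hX
    · exact good_of_fast _ _ _ _ _ _ _ _ (by norm_num) (by norm_num) (by norm_num) hco B13.b16 hX
    · exact good_of_fast _ _ _ _ _ _ _ _ (by norm_num) (by norm_num) (by norm_num) hco B13.b17 hX
    · exact good_of_fast _ _ _ _ _ _ _ _ (by norm_num) (by norm_num) (by norm_num) hco B13.b18 hX
    · exact good_of_fast _ _ _ _ _ _ _ _ (by norm_num) (by norm_num) (by norm_num) hco B13.b19 hX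
    · exact good_of_fast _ _ _ _ _ _ _ _ (by norm_num) (by norm_num) (by norm_num) hco B13.b20 hX
    · exact good_of_fast _ _ _ _ _ _ _ _ (by norm_num) (by norm_num) (by norm_num) hco B13.b21 hX
    · exact good_of_fast _ _ _ _ _ _ _ _ (by norm_num) (by norm_num) (by norm_num) hco B13.b22 hX
    · exact good_of_fast _ _ _ _ _ _ _ _ (by norm_num) (by norm_num) (by norm_num) hco B13.b23 hX
    · exact good_of_fast _ _ _ _ _ _ _ _ (by norm_num) (by norm_num) (by norm_num) hco B13.b24 hX
    · exact good_of_fast _ _ _ _ _ _ _ _ (by norm_num) (by norm_num) (by norm_num) hco B13.b25 hX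
    · exact absurd hco (by decide)
    · exact good_of_fast _ _ _ _ _ _ _ _ (by norm_num) (by norm_num) (by norm_num) hco B13.b27 hX
    · exact good_of_fast _ _ _ _ _ _ _ _ (by norm_num) (by norm_num) (by norm_num) hco B13.b28 hX
    · exact good_of_fast _ _ _ _ _ _ _ _ (by norm_num) (by norm_num) (by norm_num) hco B13.b29 hX
    · exact good_of_fast _ _ _ _ _ _ _ _ (by norm_num) (by norm_num) (by norm_num) hco B13.b30 hX
    · exact good_of_fast _ _ _ _ _ _ _ _ (by norm_num) (by norm_num) (by norm_num) hco B13.b31 hX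
    · exact good_of_fast _ _ _ _ _ _ _ _ (by norm_num) (by norm_num) (by norm_num) hco B13.b32 hX
    · exact good_of_fast _ _ _ _ _ _ _ _ (by norm_num) (by norm_num) (by norm_num) hco B13.b33 hX

end Pool.Agent.H65.CE
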