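import Pool.Agent.H65.CE.B15A
import Pool.Agent.H65.CE.B15B
import Pool.Agent.H65.CE.B15C
import Pool.Agent.H65.CE.U15
import Pool.Agent.H65.CE.Bits2

/-!
# All `m ≥ 3` for `u = 15`
-/

set_option autoImplicit false

namespace Pool.Agent.H65.CE

theorem good15 (m : ℕ) (hm : 3 ≤ m) (hco : Nat.Coprime m 15) {X : ℤ → Bool}
    (hX : Seq 15 m X) : Good 15 m X := by
  by_cases h : 33 ≤ m
  · obtain ⟨k, rfl⟩ := Nat.exists_eq_add_of_le h
    exact U15.good k hco hX
  · have hm' : m < 33 := by omega
    clear h
    interval_cases m
    · exact absurd hco (by decide)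
    · exact good_of_fast _ _ _ _ _ _ _ _ (by norm_num) (by norm_num) (by norm_num) hco B15.b4 hX
    · exact absurd hco (by decide)
    · exact absurd hco (by decide)
    · exact good_of_fast _ _ _ _ _ _ _ _ (by norm_num) (by norm_num) (by norm_num) hco B15.b7 hX
    · exact good_of_fast _ _ _ _ _ _ _ _ (by norm_num) (by norm_num) (by norm_num) hco B15.b8 hX
    · exact absurd hco (by decide)
    · exact absurd hco (by decide)
    · exact good_of_fast _ _ _ _ _ _ _ _ (by norm_num) (by norm_num) (by norm_num) hco B15.b11 hX
    · exact absurd hco (by decide)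
    · exact good_of_fast _ _ _ _ _ _ _ _ (by norm_num) (by norm_num) (by norm_num) hco B15.b13 hX
    · exact good_of_fast _ _ _ _ _ _ _ _ (by norm_num) (by norm_num) (by norm_num) hco B15.b14 hX
    · exact absurd hco (by decide)
    · exact good_of_fast _ _ _ _ _ _ _ _ (by norm_num) (by norm_num) (by norm_num) hco B15.b16 hX
    · exact good_of_fast _ _ _ _ _ _ _ _ (by norm_num) (by norm_num) (by norm_num) hco B15.b17 hX
    · exact absurd hco (by decide)
    · exact good_of_fast _ _ _ _ _ _ _ _ (by norm_num) (by norm_num) (by norm_num) hco B15.b19 hX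
    · exact absurd hco (by decide)
    · exact absurd hco (by decide)
    · exact good_of_fast _ _ _ _ _ _ _ _ (by norm_num) (by norm_num) (by norm_num) hco B15.b22 hX
    · exact good_of_fast _ _ _ _ _ _ _ _ (by norm_num) (by norm_num) (by norm_num) hco B15.b23 hX
    · exact absurd hco (by decide)
    · exact absurd hco (by decide)
    · exact good_of_fast _ _ _ _ _ _ _ _ (by norm_num) (by norm_num) (by norm_num) hco B15.b26 hX
    · exact absurd hco (by decide)
    · exact good_of_fast _ _ _ _ _ _ _ _ (by norm_num) (by norm_num) (by norm_num) hco B15.b28 hX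
    · exact good_of_fast _ _ _ _ _ _ _ _ (by norm_num) (by norm_num) (by norm_num) hco B15.b29 hX
    · exact absurd hco (by decide)
    · exact good_of_fast _ _ _ _ _ _ _ _ (by norm_num) (by norm_num) (by norm_num) hco B15.b31 hX
    · exact good_of_fast _ _ _ _ _ _ _ _ (by norm_num) (by norm_num) (by norm_num) hco B15.b32 hX

end Pool.Agent.H65.CE
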