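import Pool.Agent.H65.CE.U7CA
import Pool.Agent.H65.CE.Asm

/-!
# `u = 7`, `m ≥ 20`
-/

set_option autoImplicit false

namespace Pool.Agent.H65.CE.U7

theorem hr : ∀ t < 7, rowOk 7 20 C rows t = true := by
  intro t ht
  interval_cases t
  · exact r0
  · exact r1
  · exact r2
  · exact r3
  · exact r4
  · exact r5
  · exact r6

theorem hp : ∀ t < 7, perOk 20 c0 P (dec (rows.getD t (0, 0))) = true := by
  intro t ht
  interval_cases t
  · exact p0
  · exact p1
  · exact p2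
  · exact p3
  · exact p4
  · exact p5
  · exact p6

theorem hv : ∀ t : ℕ, 3 ≤ t → t < 7 →
    ∃ g l, covOk 7 20 rows c0 P κ t (0, 0) g l = true := by
  intro t ht ht'
  interval_cases t
  · exact ⟨_, _, v3⟩
  · exact ⟨_, _, v4⟩
  · exact ⟨_, _, v5⟩
  · exact ⟨_, _, v6⟩

theorem good (k : ℕ) (hco : Nat.Coprime (20 + k) 7) {X : ℤ → Bool} (hX : Seq 7 (20 + k) X) :
    Good 7 (20 + k) X :=
  good_of_all (by norm_num) (by norm_num) (by norm_num) hco hX (by decide) (by decide) (by decide)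
    (by decide) (by decide) hr hp sp ⟨_, v⟩ ⟨_, _, v0⟩ ⟨_, _, v1⟩ ⟨_, _, v2⟩ hv

end Pool.Agent.H65.CE.U7
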