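import Pool.Agent.H65.CE.U9D

/-!
# Checks for `u = 9`
-/

set_option autoImplicit false

namespace Pool.Agent.H65.CE.U9

theorem r6 : rowOk 9 30 C rows 6 = true := by decide +kernel

theorem p6 : perOk 30 c0 P (dec (rows.getD 6 (0, 0))) = true := by decide +kernel

theorem v6 : covOk 9 30 rows c0 P κ 6 (0, 0) g6 l6 = true := by
  decide +kernel

theorem r7 : rowOk 9 30 C rows 7 = true := by decide +kernel

theorem p7 : perOk 30 c0 P (dec (rows.getD 7 (0, 0))) = true := by decide +kernel

theorem v7 : covOk 9 30 rows c0 P κ 7 (0, 0) g7 l7 = true := by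
  decide +kernel

theorem r8 : rowOk 9 30 C rows 8 = true := by decide +kernel

theorem p8 : perOk 30 c0 P (dec (rows.getD 8 (0, 0))) = true := by decide +kernel

theorem v8 : covOk 9 30 rows c0 P κ 8 (0, 0) g8 l8 = true := by
  decide +kernel

end Pool.Agent.H65.CE.U9
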