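import Pool.Agent.H65.CE.B9A
import Pool.Agent.H65.CE.U9
import Pool.Agent.H65.CE.Bits2

/-!
# All `m ≥ 3` for `u = 9`
-/

set_option autoImplicit false

namespace Pool.Agent.H65.CE

theorem good9 (m : ℕ) (hm : 3 ≤ m) (hco : Nat.Coprime m 9) {X : ℤ → Bool}
    (hX : Seq 9 m X) : Good 9 m X := by
  by_cases h : 30 ≤ m
  · obtain ⟨k, rfl⟩ := Nat.exists_eq_add_of_le h
    exact U9.good k hco hX
  · have hm' : m < 30 := by omega
    clear h
    interval_cases m
    · exact absurd hco (by decide)
    · exact good_of_fast _ _ _ _ _ _ _ _ (by norm_num) (by norm_num) (by norm_num) hco B9.b4 hX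
    · exact good_of_fast _ _ _ _ _ _ _ _ (by norm_num) (by norm_num) (by norm_num) hco B9.b5 hX
    · exact absurd hco (by decide)
    · exact good_of_fast _ _ _ _ _ _ _ _ (by norm_num) (by norm_num) (by norm_num) hco B9.b7 hX
    · exact good_of_fast _ _ _ _ _ _ _ _ (by norm_num) (by norm_num) (by norm_num) hco B9.b8 hX
    · exact absurd hco (by decide)
    · exact good_of_fast _ _ _ _ _ _ _ _ (by norm_num) (by norm_num) (by norm_num) hco B9.b10 hX
    · exact good_of_fast _ _ _ _ _ _ _ _ (by norm_num) (by norm_num) (by norm_num) hco B9.b11 hX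
    · exact absurd hco (by decide)
    · exact good_of_fast _ _ _ _ _ _ _ _ (by norm_num) (by norm_num) (by norm_num) hco B9.b13 hX
    · exact good_of_fast _ _ _ _ _ _ _ _ (by norm_num) (by norm_num) (by norm_num) hco B9.b14 hX
    · exact absurd hco (by decide)
    · exact good_of_fast _ _ _ _ _ _ _ _ (by norm_num) (by norm_num) (by norm_num) hco B9.b16 hX
    · exact good_of_fast _ _ _ _ _ _ _ _ (by norm_num) (by norm_num) (by norm_num) hco B9.b17 hX
    · exact absurd hco (by decide)
    · exact good_of_fast _ _ _ _ _ _ _ _ (by norm_num) (by norm_num) (by norm_num) hco B9.b19 hX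
    · exact good_of_fast _ _ _ _ _ _ _ _ (by norm_num) (by norm_num) (by norm_num) hco B9.b20 hX
    · exact absurd hco (by decide)
    · exact good_of_fast _ _ _ _ _ _ _ _ (by norm_num) (by norm_num) (by norm_num) hco B9.b22 hX
    · exact good_of_fast _ _ _ _ _ _ _ _ (by norm_num) (by norm_num) (by norm_num) hco B9.b23 hX
    · exact absurd hco (by decide)
    · exact good_of_fast _ _ _ _ _ _ _ _ (by norm_num) (by norm_num) (by norm_num) hco B9.b25 hX
    · exact good_of_fast _ _ _ _ _ _ _ _ (by norm_num) (by norm_num) (by norm_num) hco B9.b26 hX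
    · exact absurd hco (by decide)
    · exact good_of_fast _ _ _ _ _ _ _ _ (by norm_num) (by norm_num) (by norm_num) hco B9.b28 hX
    · exact good_of_fast _ _ _ _ _ _ _ _ (by norm_num) (by norm_num) (by norm_num) hco B9.b29 hX

end Pool.Agent.H65.CE
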