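import Pool.Agent.H65.CE.U7D

/-!
# Checks for `u = 7`
-/

set_option autoImplicit false

namespace Pool.Agent.H65.CE.U7

theorem r0 : rowOk 7 20 C rows 0 = true := by decide +kernel

theorem p0 : perOk 20 c0 P (dec (rows.getD 0 (0, 0))) = true := by decide +kernel

theorem v0 : covOk 7 20 rows c0 P κ 0 (42, 2) g0 l0 = true := by
  decide +kernel

theorem r1 : rowOk 7 20 C rows 1 = true := by decide +kernel

theorem p1 : perOk 20 c0 P (dec (rows.getD 1 (0, 0))) = true := by decide +kernel

theorem v1 : covOk 7 20 rows c0 P κ 1 (20, 1) g1 l1 = true := by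
  decide +kernel

theorem r2 : rowOk 7 20 C rows 2 = true := by decide +kernel

theorem p2 : perOk 20 c0 P (dec (rows.getD 2 (0, 0))) = true := by decide +kernel

theorem v2 : covOk 7 20 rows c0 P κ 2 (3, 0) g2 l2 = true := by
  decide +kernel

theorem r3 : rowOk 7 20 C rows 3 = true := by decide +kernel

theorem p3 : perOk 20 c0 P (dec (rows.getD 3 (0, 0))) = true := by decide +kernel

theorem v3 : covOk 7 20 rows c0 P κ 3 (0, 0) g3 l3 = true := by
  decide +kernel

theorem r4 : rowOk 7 20 C rows 4 = true := by decide +kernel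

theorem p4 : perOk 20 c0 P (dec (rows.getD 4 (0, 0))) = true := by decide +kernel

theorem v4 : covOk 7 20 rows c0 P κ 4 (0, 0) g4 l4 = true := by
  decide +kernel

theorem r5 : rowOk 7 20 C rows 5 = true := by decide +kernel

theorem p5 : perOk 20 c0 P (dec (rows.getD 5 (0, 0))) = true := by decide +kernel

theorem v5 : covOk 7 20 rows c0 P κ 5 (0, 0) g5 l5 = true := by
  decide +kernel

theorem r6 : rowOk 7 20 C rows 6 = true := by decide +kernel

theorem p6 : perOk 20 c0 P (dec (rows.getD 6 (0, 0))) = true := by decide +kernel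

theorem v6 : covOk 7 20 rows c0 P κ 6 (0, 0) g6 l6 = true := by
  decide +kernel

theorem v : chain 7 20 rows 0 c0 g (0, 0) (41, 2) = true := by decide +kernel

theorem sp : specOk 7 20 rows = true := by decide +kernel

end Pool.Agent.H65.CE.U7
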