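import Pool.Agent.H65.CE.Defs

/-!
# The even terms of `U(u, 2 m)` from the facts `Good`
-/

set_option autoImplicit false

namespace Pool.Agent.H65.CE

namespace J1

/-! ### existence of the sequence of the odd terms -/

noncomputable def fX (u m : ℕ) (n : ℕ) : Bool :=
  if n = 0 then true else
    decide (num u m (fun z => if _h : 0 ≤ z ∧ z.toNat < n then fX u m z.toNat else false) n = 1)
termination_by n
decreasing_by exact _h.2

noncomputable def gX (u m : ℕ) (z : ℤ) : Bool := if 0 ≤ z then fX u m z.toNat else false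

theorem num_congr (u m : ℕ) (hu : 0 < u) (hm : 0 < m) (X Y : ℤ → Bool) (z : ℤ)
    (h : ∀ y < z, X y = Y y) : num u m X z = num u m Y z := by
  unfold num
  congr 1
  · apply Finset.sum_congr rfl
    intro j _
    rw [h]
    have h1 : (0 : ℤ) ≤ (j : ℤ) * u := by positivity
    have h2 : (0 : ℤ) < m := by exact_mod_cast hm
    linarith
  · rw [h]
    have h1 : (0 : ℤ) < (2 * (m : ℤ) + 2) * u := by positivity
    linarith

end J1

open J1

theorem exists_seq (u m : ℕ) (hu : 0 < u) (hm : 0 < m) : ∃ X : ℤ → Bool, Seq u m X := by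
  refine ⟨gX u m, ⟨?_, ?_, ?_⟩⟩
  · intro z hz
    simp [gX, hz]
  · rw [gX, if_pos le_rfl, fX]
    simp
  · intro z hz
    rw [gX, if_pos hz.le, fX]
    have hz0 : z.toNat ≠ 0 := by omega
    rw [if_neg hz0, decide_eq_true_iff]
    have hcast : ((z.toNat : ℕ) : ℤ) = z := Int.toNat_of_nonneg hz.le
    rw [hcast]
    rw [num_congr u m hu hm (fun y => if h : 0 ≤ y ∧ y.toNat < z.toNat then fX u m y.toNat
      else false) (gX u m) z]
    intro y hy
    by_cases h0 : 0 ≤ y
    · have h1 : 0 ≤ y ∧ y.toNat < z.toNat := ⟨h0, by omega⟩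
      simp only [gX, dif_pos h1, if_pos h0]
    · have h1 : ¬ (0 ≤ y ∧ y.toNat < z.toNat) := fun h => h0 h.1
      simp only [gX, dif_neg h1, if_neg h0]

namespace J1

/-! ### cells -/

theorem cell_exists (u m : ℕ) (hu : 0 < u) (hco : Nat.Coprime m u) (K : ℤ) :
    ∃ t : ℕ, t < u ∧ ∃ c : ℤ, K = m * t + u * c := by
  have hg : (m : ℤ) * Int.gcdA m u + u * Int.gcdB m u = 1 := by
    have h := Int.gcd_eq_gcd_ab (m : ℤ) (u : ℤ)
    have h1 : Int.gcd (m : ℤ) (u : ℤ) = 1 := by
      rw [Int.gcd_natCast_natCast]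
      exact hco
    rw [h1] at h
    push_cast at h
    linarith
  set x := Int.gcdA m u with hx
  set y := Int.gcdB m u with hy
  have hu' : (0 : ℤ) < u := by exact_mod_cast hu
  refine ⟨((K * x) % u).toNat, ?_, m * ((K * x) / u) + K * y, ?_⟩
  · have h1 := Int.emod_lt_of_pos (K * x) hu'
    have h2 := Int.emod_nonneg (K * x) hu'.ne'
    omega
  · rw [Int.toNat_of_nonneg (Int.emod_nonneg _ hu'.ne')]
    have h3 := Int.emod_add_mul_ediv (K * x) u
    have h4 : K = K * (m * x + u * y) := by rw [hg, mul_one]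
    calc K = K * (m * x + u * y) := h4
      _ = m * (K * x) + u * (K * y) := by ring
      _ = m * ((K * x) % u + u * ((K * x) / u)) + u * (K * y) := by rw [h3]
      _ = m * ((K * x) % u) + u * (m * ((K * x) / u) + K * y) := by ring

theorem cell_unique (u m : ℕ) (hco : Nat.Coprime m u) (t t' : ℕ) (ht : t < u)
    (ht' : t' < u) (c c' : ℤ) (h : (m : ℤ) * t + u * c = m * t' + u * c') : t = t' ∧ c = c' := by
  have hu' : (0 : ℤ) < u := by exact_mod_cast (Nat.zero_le t).trans_lt ht
  have h1 : (u : ℤ) ∣ m * ((t : ℤ) - t') := ⟨c' - c, by linear_combination h⟩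
  have hcop : IsCoprime (u : ℤ) (m : ℤ) := by
    rw [Nat.isCoprime_iff_coprime]
    exact hco.symm
  have h2 : (u : ℤ) ∣ (t : ℤ) - t' := hcop.dvd_of_dvd_mul_left h1
  have h3 : (t : ℤ) - t' = 0 := by
    apply Int.eq_zero_of_abs_lt_dvd h2
    rw [abs_lt]
    constructor <;> omega
  have h4 : t = t' := by omega
  refine ⟨h4, ?_⟩
  subst h4
  have h5 : (u : ℤ) * c = u * c' := by linarith
  exact mul_left_cancel₀ hu'.ne' h5

/-- the negative columns vanish -/
theorem neg_col (u m : ℕ) (hu : 1 < u) (hm : 0 < m) (hco : Nat.Coprime m u) {X : ℤ → Bool}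
    (hX : Seq u m X) : ∀ (N : ℕ) (z : ℤ), z < N → ∀ t : ℕ, t < u → ∀ c : ℤ, c < 0 →
      z = m * t + u * c → X z = false := by
  intro N
  induction N with
  | zero =>
    intro z hz t _ c _ _
    exact hX.neg z (by simpa using hz)
  | succ N ih =>
    intro z hz t ht c hc hzc
    have hu' : (0 : ℤ) < u := by exact_mod_cast (Nat.zero_lt_one.trans hu)
    have hm' : (0 : ℤ) < m := by exact_mod_cast hm
    rcases lt_trichotomy z 0 with h0 | h0 | h0
    · exact hX.neg z h0
    · exfalso
      have h1 : (m : ℤ) * t + u * c = m * (0 : ℕ) + u * 0 := by rw [← hzc, h0]; simp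
      have h2 := (cell_unique u m hco t 0 ht (by omega) c 0 h1).2
      omega
    · have hr := hX.rule z h0
      have hnum : num u m X z = 0 := by
        unfold num
        have hz' : z ≤ N := by
          push_cast at hz
          omega
        have key : ∀ y : ℤ, y < z → ∀ t' : ℕ, t' < u → ∀ c' : ℤ, c' < 0 →
            y = m * t' + u * c' → (X y).toNat = 0 := by
          intro y hy t' ht' c' hc' hyc
          rw [ih y (by omega) t' ht' c' hc' hyc]
          rfl
        have hsum : ∑ j ∈ Finset.range (m + 1), (X (z - m - j * u)).toNat = 0 := by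
          apply Finset.sum_eq_zero
          intro j _
          have hj : (0 : ℤ) ≤ (j : ℤ) * u := by positivity
          rcases Nat.eq_zero_or_pos t with ht0 | ht0
          · refine key _ (by linarith) (u - 1) (by omega) (c - j - m) (by omega) ?_
            rw [hzc, ht0]
            push_cast [Nat.cast_sub hu.le]
            ring
          · refine key _ (by linarith) (t - 1) (by omega) (c - j) (by omega) ?_
            rw [hzc]
            push_cast [Nat.cast_sub ht0]
            ring
        have hlast : (X (z - (2 * m + 2) * u)).toNat = 0 := by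
          have hpos : (0 : ℤ) < (2 * (m : ℤ) + 2) * u := by positivity
          refine key _ (by linarith) t ht (c - (2 * m + 2)) (by omega) ?_
          rw [hzc]
          ring
        rw [hsum, hlast]
      rw [hnum] at hr
      by_contra hne
      have : X z = true := by simpa using hne
      exact absurd (hr.1 this) (by norm_num)

/-! ### the sets of the terms -/

/-- halves of the even terms -/
def Wm (u m w : ℕ) : Prop := (∃ j ≤ m, w = m + j * u) ∨ w = (2 * m + 2) * u

/-- the terms -/
def Tm (u m : ℕ) (X : ℤ → Bool) (n : ℕ) : Prop :=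
  (∃ z : ℕ, n = u + 2 * z ∧ X (z : ℤ) = true) ∨ (∃ w, Wm u m w ∧ n = 2 * w)

def PR (P : ℕ → Prop) (n : ℕ) (p : ℕ × ℕ) : Prop := p.1 < p.2 ∧ P p.1 ∧ P p.2 ∧ p.1 + p.2 = n

theorem exu_iff {α β : Type*} (Q : β → Prop) (f : β → α)
    (hinj : ∀ w w', Q w → Q w' → f w = f w' → w = w') :
    (∃! p, ∃ w, Q w ∧ p = f w) ↔ ∃! w, Q w := by
  constructor
  · rintro ⟨p, ⟨w, hw, hp⟩, huniq⟩
    refine ⟨w, hw, fun w' hw' => ?_⟩
    have := huniq (f w') ⟨w', hw', rfl⟩
    exact hinj _ _ hw' hw (by rw [this, hp])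
  · rintro ⟨w, hw, huniq⟩
    refine ⟨f w, ⟨w, hw, rfl⟩, ?_⟩
    rintro p ⟨w', hw', rfl⟩
    rw [huniq w' hw']

section

variable {u m : ℕ} {X : ℤ → Bool}

theorem not_dvd (hu : 1 < u) (hco : Nat.Coprime m u) : ¬ u ∣ m := by
  intro h
  have h1 : Nat.gcd m u = u := Nat.gcd_eq_right h
  rw [Nat.Coprime, h1] at hco
  omega

/-- the number of predecessors is the number of the even terms with an odd partner -/
theorem num_eq_one_iff (hu : 1 < u) (hco : Nat.Coprime m u) (z : ℤ) :
    num u m X z = 1 ↔ ∃! w : ℕ, Wm u m w ∧ X (z - w) = true := by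
  classical
  set Wf : Finset ℕ := (Finset.range (m + 1)).image (fun j => m + j * u) with hWf
  have hnot : (2 * m + 2) * u ∉ Wf := by
    rw [hWf, Finset.mem_image]
    rintro ⟨j, _, hj⟩
    apply not_dvd hu hco
    have h1 : u ∣ m + j * u := by rw [hj]; exact Dvd.intro_left _ rfl
    exact (Nat.dvd_add_left (Dvd.intro_left _ rfl)).1 h1
  have hnum : num u m X z =
      ((insert ((2 * m + 2) * u) Wf).filter (fun w : ℕ => X (z - w) = true)).card := by
    rw [Finset.card_filter, Finset.sum_insert hnot, hWf, Finset.sum_image, add_comm, num]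
    · congr 1
      · apply Finset.sum_congr rfl
        intro j _
        have e1 : z - m - j * u = z - ((m + j * u : ℕ) : ℤ) := by push_cast; ring
        rw [e1]
        cases X (z - ((m + j * u : ℕ) : ℤ)) <;> rfl
      · have e1 : z - (2 * m + 2) * u = z - (((2 * m + 2) * u : ℕ) : ℤ) := by push_cast; ring
        rw [e1]
        cases X (z - (((2 * m + 2) * u : ℕ) : ℤ)) <;> rfl
    · intro i _ j _ hij
      simp only at hij
      have : i * u = j * u := by omega
      exact Nat.eq_of_mul_eq_mul_right (by omega) this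
  rw [hnum, Finset.card_eq_one]
  have hmem : ∀ w : ℕ, w ∈ (insert ((2 * m + 2) * u) Wf).filter (fun w : ℕ => X (z - w) = true) ↔
      Wm u m w ∧ X (z - w) = true := by
    intro w
    rw [Finset.mem_filter, Finset.mem_insert, hWf, Finset.mem_image, Wm]
    constructor
    · rintro ⟨h1 | ⟨j, hj, h1⟩, h2⟩
      · exact ⟨Or.inr h1, h2⟩
      · exact ⟨Or.inl ⟨j, by rw [Finset.mem_range] at hj; omega, h1.symm⟩, h2⟩
    · rintro ⟨⟨j, hj, h1⟩ | h1, h2⟩
      · exact ⟨Or.inr ⟨j, by rw [Finset.mem_range]; omega, h1.symm⟩, h2⟩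
      · exact ⟨Or.inl h1, h2⟩
  constructor
  · rintro ⟨w, hw⟩
    refine ⟨w, (hmem w).1 (by rw [hw]; exact Finset.mem_singleton_self w), ?_⟩
    intro w' hw'
    have := (hmem w').2 hw'
    rw [hw, Finset.mem_singleton] at this
    exact this
  · rintro ⟨w, hw, huniq⟩
    refine ⟨w, ?_⟩
    ext w'
    rw [hmem, Finset.mem_singleton]
    constructor
    · exact huniq w'
    · rintro rfl
      exact hw

/-- the odd case -/
theorem odd_case (hu : 1 < u) (hodd : u % 2 = 1) (hco : Nat.Coprime m u) (hX : Seq u m X)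
    (z : ℕ) (hz : 0 < z) : (∃! p, PR (Tm u m X) (u + 2 * z) p) ↔ X (z : ℤ) = true := by
  have hr := hX.rule z (by exact_mod_cast hz)
  rw [hr, num_eq_one_iff hu hco]
  set f : ℕ → ℕ × ℕ := fun w => if 2 * w < u + 2 * (z - w) then (2 * w, u + 2 * (z - w))
    else (u + 2 * (z - w), 2 * w) with hf
  rw [← exu_iff (fun w : ℕ => Wm u m w ∧ X ((z : ℤ) - w) = true) f]
  · apply existsUnique_congr
    intro p
    constructor
    · rintro ⟨hlt, h1, h2, hs⟩
      have hcase : ∀ (x y : ℕ), Tm u m X x → Tm u m X y → x + y = u + 2 * z → x % 2 = 0 →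
          ∃ w z' : ℕ, Wm u m w ∧ x = 2 * w ∧ y = u + 2 * z' ∧ w + z' = z ∧
            X ((z : ℤ) - w) = true := by
        intro x y hx hy hxy hx2
        rcases hx with ⟨z1, hz1, _⟩ | ⟨w, hw, hxw⟩
        · omega
        rcases hy with ⟨z', hz', hXz'⟩ | ⟨w', _, hyw⟩
        · refine ⟨w, z', hw, hxw, hz', by omega, ?_⟩
          have : (z : ℤ) - w = z' := by omega
          rw [this]
          exact hXz'
        · omega
      by_cases hpar : p.1 % 2 = 0
      · obtain ⟨w, z', hw, hx, hy, hwz, hXw⟩ := hcase p.1 p.2 h1 h2 hs hpar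
        refine ⟨w, ⟨hw, hXw⟩, ?_⟩
        have hz' : z - w = z' := by omega
        have hlt' : 2 * w < u + 2 * (z - w) := by rw [hz']; omega
        simp only [hf, if_pos hlt', hz']
        exact Prod.ext hx hy
      · have hpar2 : p.2 % 2 = 0 := by omega
        obtain ⟨w, z', hw, hx, hy, hwz, hXw⟩ := hcase p.2 p.1 h2 h1 (by omega) hpar2
        refine ⟨w, ⟨hw, hXw⟩, ?_⟩
        have hz' : z - w = z' := by omega
        have hlt' : ¬ 2 * w < u + 2 * (z - w) := by rw [hz']; omega
        simp only [hf, if_neg hlt', hz']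
        exact Prod.ext hy hx
    · rintro ⟨w, ⟨hw, hXw⟩, hp⟩
      have hle : w ≤ z := by
        by_contra hlt
        have h0 := hX.neg ((z : ℤ) - w) (by omega)
        rw [h0] at hXw
        exact Bool.false_ne_true hXw
      have hcast : (z : ℤ) - w = ((z - w : ℕ) : ℤ) := by omega
      rw [hcast] at hXw
      have hA : Tm u m X (2 * w) := Or.inr ⟨w, hw, rfl⟩
      have hB : Tm u m X (u + 2 * (z - w)) := Or.inl ⟨z - w, rfl, hXw⟩
      rw [hp]
      by_cases hlt : 2 * w < u + 2 * (z - w)
      · simp only [hf, if_pos hlt]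
        exact ⟨hlt, hA, hB, by dsimp only; omega⟩
      · simp only [hf, if_neg hlt]
        exact ⟨by dsimp only; omega, hB, hA, by dsimp only; omega⟩
  · intro w w' hw hw' hff
    have hle : ∀ w : ℕ, X ((z : ℤ) - w) = true → w ≤ z := by
      intro w h
      by_contra hlt
      have h0 := hX.neg ((z : ℤ) - w) (by omega)
      rw [h0] at h
      exact Bool.false_ne_true h
    have l1 := hle w hw.2
    have l2 := hle w' hw'.2
    simp only [hf] at hff
    split_ifs at hff with h1 h2 h2
    · have := congrArg Prod.fst hff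
      dsimp only at this
      omega
    · have := congrArg Prod.fst hff
      dsimp only at this
      omega
    · have := congrArg Prod.fst hff
      dsimp only at this
      omega
    · have := congrArg Prod.snd hff
      dsimp only at this
      omega

/-! ### the even case -/

theorem pair_cases (hodd : u % 2 = 1) {n : ℕ} {K : ℤ}
    (hn : (n : ℤ) = 2 * (K + u)) {p : ℕ × ℕ} (hp : PR (Tm u m X) n p) :
    (∃ a, Rep X K a ∧ (p.1 : ℤ) = u + 2 * a ∧ (p.2 : ℤ) = u + 2 * (K - a)) ∨
    (∃ w w', Wm u m w ∧ Wm u m w' ∧ w < w' ∧ p = (2 * w, 2 * w') ∧ (w : ℤ) + w' = K + u) := by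
  obtain ⟨hlt, h1, h2, hs⟩ := hp
  rcases h1 with ⟨z, hz, hXz⟩ | ⟨w, hw, hpw⟩
  · rcases h2 with ⟨z', hz', hXz'⟩ | ⟨w', _, hpw'⟩
    · left
      refine ⟨z, ⟨hXz, ?_, by omega⟩, by omega, by omega⟩
      have : K - z = z' := by omega
      rw [this]
      exact hXz'
    · exfalso
      omega
  · rcases h2 with ⟨z', hz', hXz'⟩ | ⟨w', hw', hpw'⟩
    · exfalso
      omega
    · right
      exact ⟨w, w', hw, hw', by omega, Prod.ext hpw hpw', by omega⟩

theorem pair_of_rep (hX : Seq u m X) {n : ℕ} {K a : ℤ} (hn : (n : ℤ) = 2 * (K + u))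
    (ha : Rep X K a) : PR (Tm u m X) n (u + 2 * a.toNat, u + 2 * (K - a).toNat) := by
  obtain ⟨h1, h2, h3⟩ := ha
  have ha0 : 0 ≤ a := by
    by_contra h
    rw [hX.neg a (by omega)] at h1
    exact Bool.false_ne_true h1
  have hb0 : 0 ≤ K - a := by
    by_contra h
    rw [hX.neg (K - a) (by omega)] at h2
    exact Bool.false_ne_true h2
  refine ⟨by dsimp only; omega, Or.inl ⟨a.toNat, rfl, ?_⟩, Or.inl ⟨(K - a).toNat, rfl, ?_⟩, by
    dsimp only; omega⟩
  · rw [Int.toNat_of_nonneg ha0]
    exact h1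
  · rw [Int.toNat_of_nonneg hb0]
    exact h2

theorem even_pair (hu : 1 < u) {K : ℤ} {w w' : ℕ} (hw : Wm u m w) (hw' : Wm u m w')
    (hlt : w < w') (hs : (w : ℤ) + w' = K + u) :
    (∃ s : ℕ, s + 2 ≤ 2 * m ∧ K = m * (2 : ℕ) + u * (s : ℤ)) ∨
      (∃ j : ℕ, K = m * (1 : ℕ) + u * ((2 * m + 1 + j : ℕ) : ℤ)) := by
  rcases hw with ⟨i, hi, h1⟩ | h1
  · rcases hw' with ⟨j, hj, h2⟩ | h2
    · left
      have hij : i < j := by
        have : i * u < j * u := by omega
        exact lt_of_mul_lt_mul_right this (Nat.zero_le u)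
      refine ⟨i + j - 1, by omega, ?_⟩
      have hc : ((i + j - 1 : ℕ) : ℤ) = i + j - 1 := by omega
      rw [hc]
      rw [h1, h2] at hs
      push_cast at hs ⊢
      linear_combination -hs
    · right
      refine ⟨i, ?_⟩
      rw [h1, h2] at hs
      push_cast at hs ⊢
      linear_combination -hs
  · exfalso
    rcases hw' with ⟨j, hj, h2⟩ | h2
    · rw [h1, h2] at hlt
      have h3 : j * u ≤ m * u := Nat.mul_le_mul_right u hj
      have h4 : m * 1 ≤ m * u := Nat.mul_le_mul_left m hu.le
      have h5 : (2 * m + 2) * u = 2 * (m * u) + 2 * u := by ring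
      omega
    · omega

theorem rep_nonneg (hu : 1 < u) (hm : 0 < m) (hco : Nat.Coprime m u) (hX : Seq u m X) {K a : ℤ}
    (ha : Rep X K a) (t : ℕ) (ht : t < u) (c : ℤ) (hK : K = m * t + u * c) : 0 ≤ c := by
  obtain ⟨h1, h2, _⟩ := ha
  obtain ⟨s, hs, ca, hca⟩ := cell_exists u m (by omega) hco a
  obtain ⟨s', hs', cb, hcb⟩ := cell_exists u m (by omega) hco (K - a)
  have hca0 : 0 ≤ ca := by
    by_contra h
    rw [neg_col u m hu hm hco hX (a.toNat + 1) a (by push_cast; omega) s hs ca (by omega) hca] at h1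
    exact Bool.false_ne_true h1
  have hcb0 : 0 ≤ cb := by
    by_contra h
    rw [neg_col u m hu hm hco hX ((K - a).toNat + 1) (K - a) (by push_cast; omega) s' hs' cb
      (by omega) hcb] at h2
    exact Bool.false_ne_true h2
  by_cases hsum : s + s' < u
  · have h3 : (m : ℤ) * t + u * c = m * (s + s' : ℕ) + u * (ca + cb) := by
      rw [← hK]
      push_cast
      linear_combination hca + hcb
    have := (cell_unique u m hco t (s + s') ht hsum c (ca + cb) h3).2
    omega
  · have h3 : (m : ℤ) * t + u * c = m * (s + s' - u : ℕ) + u * (ca + cb + m) := by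
      rw [← hK]
      push_cast [Nat.cast_sub (not_lt.1 hsum)]
      linear_combination hca + hcb
    have := (cell_unique u m hco t (s + s' - u) ht (by omega) c (ca + cb + m) h3).2
    have hm' : (0 : ℤ) < m := by exact_mod_cast hm
    omega

theorem tm_even (hu : 1 < u) (hodd : u % 2 = 1) (hco : Nat.Coprime m u) {n : ℕ}
    {K : ℤ} (hn : (n : ℤ) = 2 * (K + u)) (hmax : 2 * m < n) (t : ℕ) (ht : t < u) (c : ℤ)
    (hK : K = m * t + u * c) :
    Tm u m X n ↔ (t = 1 ∧ 0 ≤ c ∧ c < m) ∨ (t = 0 ∧ c = 2 * m + 1) := by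
  constructor
  · rintro (⟨z, hz, _⟩ | ⟨w, hw, hnw⟩)
    · exfalso
      omega
    · rcases hw with ⟨j, hj, h1⟩ | h1
      · left
        have h2 : (m : ℤ) * t + u * c = m * (1 : ℕ) + u * ((j : ℤ) - 1) := by
          rw [h1] at hnw
          have h3 : (n : ℤ) = 2 * (m + j * u) := by rw [hnw]; push_cast; ring
          rw [← hK]
          push_cast
          linarith
        obtain ⟨h3, h4⟩ := cell_unique u m hco t 1 ht hu c _ h2
        refine ⟨h3, ?_, by omega⟩
        rcases Nat.eq_zero_or_pos j with h5 | h5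
        · exfalso
          rw [h1, h5] at hnw
          omega
        · omega
      · right
        have h2 : (m : ℤ) * t + u * c = m * (0 : ℕ) + u * (2 * m + 1) := by
          rw [h1] at hnw
          have h3 : (n : ℤ) = 2 * ((2 * m + 2) * u) := by rw [hnw]; push_cast; ring
          rw [← hK]
          push_cast
          linarith
        exact cell_unique u m hco t 0 ht (by omega) c _ h2
  · rintro (⟨h1, h2, h3⟩ | ⟨h1, h2⟩)
    · refine Or.inr ⟨m + (c.toNat + 1) * u, Or.inl ⟨c.toNat + 1, by omega, rfl⟩, ?_⟩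
      have h4 : (n : ℤ) = ((2 * (m + (c.toNat + 1) * u) : ℕ) : ℤ) := by
        push_cast
        rw [hn, hK, h1, Int.toNat_of_nonneg h2]
        push_cast
        ring
      exact_mod_cast h4
    · refine Or.inr ⟨(2 * m + 2) * u, Or.inr rfl, ?_⟩
      have h4 : (n : ℤ) = ((2 * ((2 * m + 2) * u) : ℕ) : ℤ) := by
        push_cast
        rw [hn, hK, h1, h2]
        push_cast
        ring
      exact_mod_cast h4

/-- the even case -/
theorem even_case (hu : 7 ≤ u) (hodd : u % 2 = 1) (hm : 3 ≤ m) (hco : Nat.Coprime m u)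
    (hX : Seq u m X) (hG : Good u m X) {n : ℕ} (hev : n % 2 = 0) (hmax : 2 * m < n) :
    (∃! p, PR (Tm u m X) n p) ↔ Tm u m X n := by
  have hu1 : 1 < u := by omega
  have hm0 : 0 < m := by omega
  obtain ⟨K, hn⟩ : ∃ K : ℤ, (n : ℤ) = 2 * (K + u) := ⟨(n : ℤ) / 2 - u, by omega⟩
  obtain ⟨t, ht, c, hK⟩ := cell_exists u m (by omega) hco K
  rw [tm_even (X := X) hu1 hodd hco hn hmax t ht c hK]
  -- the classification of the even pairs in cells
  have hE : ∀ {w w' : ℕ}, Wm u m w → Wm u m w' → w < w' → (w : ℤ) + w' = K + u →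
      (t = 2 ∧ 0 ≤ c ∧ c + 2 ≤ 2 * m) ∨ (t = 1 ∧ 2 * (m : ℤ) + 1 ≤ c) := by
    intro w w' hw hw' hlt hs
    rcases even_pair hu1 hw hw' hlt hs with ⟨s, hs2, h1⟩ | ⟨j, h1⟩
    · left
      rw [hK] at h1
      obtain ⟨h3, h4⟩ := cell_unique u m hco t 2 ht (by omega) c _ h1
      exact ⟨h3, by omega, by omega⟩
    · right
      rw [hK] at h1
      obtain ⟨h3, h4⟩ := cell_unique u m hco t 1 ht (by omega) c _ h1
      exact ⟨h3, by omega⟩
  -- at most the odd pairs
  have huniq : ∀ a0 : ℤ, (∀ a, Rep X K a ↔ a = a0) →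
      ¬ ((t = 2 ∧ 0 ≤ c ∧ c + 2 ≤ 2 * (m : ℤ)) ∨ (t = 1 ∧ 2 * (m : ℤ) + 1 ≤ c)) →
      ∃! p, PR (Tm u m X) n p := by
    intro a0 ha hno
    have hrep : Rep X K a0 := (ha a0).2 rfl
    have hpr := pair_of_rep hX hn hrep
    refine ⟨_, hpr, ?_⟩
    intro p hp
    rcases pair_cases hodd hn hp with ⟨a, hra, hp1, hp2⟩ | ⟨w, w', hw, hw', hlt, _, hs⟩
    · have haa := (ha a).1 hra
      rw [haa] at hp1 hp2
      have g1 : 0 ≤ a0 := by
        by_contra h
        have := hX.neg a0 (by omega)
        rw [hrep.1] at this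
        exact Bool.false_ne_true this.symm
      have g2 : 0 ≤ K - a0 := by
        by_contra h
        have := hX.neg (K - a0) (by omega)
        rw [hrep.2.1] at this
        exact Bool.false_ne_true this.symm
      refine Prod.ext ?_ ?_
      · dsimp only
        omega
      · dsimp only
        omega
    · exact absurd (hE hw hw' hlt hs) hno
  by_cases hc : c < 0
  · -- negative columns: no pairs
    constructor
    · rintro ⟨p, hp, _⟩
      exfalso
      rcases pair_cases hodd hn hp with ⟨a, hra, _, _⟩ | ⟨w, w', hw, hw', hlt, _, hs⟩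
      · have := rep_nonneg hu1 hm0 hco hX hra t ht c hK
        omega
      · rcases hE hw hw' hlt hs with h | h
        · omega
        · omega
    · intro h
      omega
  · obtain ⟨c', hc'⟩ : ∃ c' : ℕ, c = c' := ⟨c.toNat, by omega⟩
    subst hc'
    by_cases hA : t = 1 ∧ c' < m
    · -- o1
      obtain ⟨h1, h2⟩ := hA
      have hK1 : K = m + u * (c' : ℤ) := by rw [hK, h1]; push_cast; ring
      have hex := huniq 0 (by
        intro a
        rw [hK1]
        exact hG.o1 c' h2 a) (by
        rintro (h | h)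
        · omega
        · omega)
      constructor
      · intro _
        left
        exact ⟨h1, by omega, by omega⟩
      · intro _
        exact hex
    by_cases hB : t = 0 ∧ c' = 2 * m + 1
    · obtain ⟨h1, h2⟩ := hB
      have hK1 : K = u * (2 * m + 1) := by rw [hK, h1, h2]; push_cast; ring
      have hex := huniq (u * m) (by
        intro a
        rw [hK1]
        exact hG.o2 a) (by
        rintro (h | h)
        · omega
        · omega)
      constructor
      · intro _
        right
        exact ⟨h1, by omega⟩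
      · intro _
        exact hex
    have hno : ¬ ((t = 1 ∧ (0 : ℤ) ≤ c' ∧ (c' : ℤ) < m) ∨ (t = 0 ∧ (c' : ℤ) = 2 * m + 1)) := by
      rintro (h | h)
      · exact hA ⟨h.1, by omega⟩
      · exact hB ⟨h.1, by omega⟩
    rw [iff_false_right hno]
    -- two different pairs
    have htwo : ∀ p q, PR (Tm u m X) n p → PR (Tm u m X) n q → p ≠ q →
        ¬ ∃! p, PR (Tm u m X) n p := by
      rintro p q hp hq hne ⟨r, _, hr⟩
      exact hne ((hr p hp).trans (hr q hq).symm)
    by_cases hC : t = 2 ∧ c' < 3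
    · obtain ⟨h1, h2⟩ := hC
      have hK1 : K = 2 * m + u * (c' : ℤ) := by rw [hK, h1]; push_cast; ring
      obtain ⟨a, ha⟩ := hG.t2 c' h2
      rw [← hK1] at ha
      have hp := pair_of_rep hX hn ha
      have hq : PR (Tm u m X) n (2 * m, 2 * (m + (c' + 1) * u)) := by
        have hpos : 0 < (c' + 1) * u := by positivity
        refine ⟨by dsimp only; omega, Or.inr ⟨m, Or.inl ⟨0, by omega, by ring⟩, rfl⟩,
          Or.inr ⟨m + (c' + 1) * u, Or.inl ⟨c' + 1, by omega, rfl⟩, rfl⟩, ?_⟩
        have h3 : ((2 * m + 2 * (m + (c' + 1) * u) : ℕ) : ℤ) = n := by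
          rw [hn, hK1]
          push_cast
          ring
        exact_mod_cast h3
      apply htwo _ _ hp hq
      intro heq
      have := congrArg Prod.fst heq
      dsimp only at this
      omega
    · rcases hG.nz t c' ht (fun h h' => hB ⟨h, h'⟩) (fun h => not_lt.1 fun h' => hA ⟨h, h'⟩)
        (fun h => not_lt.1 fun h' => hC ⟨h, h'⟩) with h | ⟨h1, h2, h3⟩
      · obtain ⟨a, b, hab, ha, hb⟩ := h
        have hKc : (m : ℤ) * t + u * (c' : ℤ) = K := hK.symm
        rw [hKc] at ha hb
        apply htwo _ _ (pair_of_rep hX hn ha) (pair_of_rep hX hn hb)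
        intro heq
        have h4 := congrArg Prod.fst heq
        dsimp only at h4
        have g1 : 0 ≤ a := by
          by_contra h
          have := hX.neg a (by omega)
          rw [ha.1] at this
          exact Bool.false_ne_true this.symm
        have g2 : 0 ≤ b := by
          by_contra h
          have := hX.neg b (by omega)
          rw [hb.1] at this
          exact Bool.false_ne_true this.symm
        omega
      · rintro ⟨p, hp, _⟩
        rcases pair_cases hodd hn hp with ⟨a, hra, _, _⟩ | ⟨w, w', hw, hw', hlt, _, hs⟩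
        · rw [hK] at hra
          exact h3 a hra
        · rcases hE hw hw' hlt hs with h | h
          · have := h2 h.1
            omega
          · exact h1 h.1

/-- small numbers -/
theorem tm_small (hu : 1 < u) (hodd : u % 2 = 1) (hm : 0 < m) (hco : Nat.Coprime m u)
    (hX : Seq u m X) {n : ℕ} (hn : n ≤ max u (2 * m)) : Tm u m X n ↔ n = u ∨ n = 2 * m := by
  constructor
  · rintro (⟨z, hz, hXz⟩ | ⟨w, hw, hnw⟩)
    · left
      rcases Nat.eq_zero_or_pos z with h0 | h0
      · rw [hz, h0]; rfl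
      · exfalso
        -- then `n > u`, so `n ≤ 2 m` and `z < m`
        have hle : n ≤ 2 * m := by
          rcases le_max_iff.1 hn with h | h
          · omega
          · exact h
        have hr := (hX.rule z (by exact_mod_cast h0)).1 hXz
        rw [num_eq_one_iff hu hco] at hr
        obtain ⟨w, ⟨hw, hXw⟩, _⟩ := hr
        have hwm : m ≤ w := by
          rcases hw with ⟨j, _, h1⟩ | h1
          · rw [h1]
            exact Nat.le_add_right _ _
          · rw [h1]
            calc m ≤ (2 * m + 2) * 1 := by omega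
              _ ≤ (2 * m + 2) * u := Nat.mul_le_mul_left _ hu.le
        rw [hX.neg ((z : ℤ) - w) (by omega)] at hXw
        exact Bool.false_ne_true hXw
    · right
      rcases hw with ⟨j, _, h1⟩ | h1
      · rcases Nat.eq_zero_or_pos j with h0 | h0
        · rw [hnw, h1, h0]
          ring
        · exfalso
          have h3 : 1 * u ≤ j * u := Nat.mul_le_mul_right u h0
          rcases le_max_iff.1 hn with h | h
          · omega
          · omega
      · exfalso
        have h3 : (2 * m + 2) * 1 ≤ (2 * m + 2) * u := Nat.mul_le_mul_left _ hu.le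
        have h4 : 2 * u ≤ (2 * m + 2) * u := Nat.mul_le_mul_right u (by omega)
        rcases le_max_iff.1 hn with h | h
        · omega
        · omega
  · rintro (h | h)
    · exact Or.inl ⟨0, by omega, by simpa using hX.zero⟩
    · exact Or.inr ⟨m, Or.inl ⟨0, by omega, by ring⟩, h⟩

end

end J1

theorem even_terms (u m : ℕ) (hu : 7 ≤ u) (hodd : u % 2 = 1) (hm : 3 ≤ m)
    (hco : Nat.Coprime m u) {X : ℤ → Bool} (hX : Seq u m X) (hG : Good u m X) (S : Set ℕ)
    (h1 : ∀ n : ℕ, n ≤ max u (2 * m) → (n ∈ S ↔ (n = u ∨ n = 2 * m)))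
    (h2 : ∀ n : ℕ, max u (2 * m) < n →
      (n ∈ S ↔ ∃! p : ℕ × ℕ, p.1 < p.2 ∧ p.1 ∈ S ∧ p.2 ∈ S ∧ p.1 + p.2 = n)) :
    {n : ℕ | n ∈ S ∧ Even n} = {n : ℕ | (∃ j ≤ m, n = 2 * m + 2 * j * u) ∨ n = (4 * m + 4) * u} := by
  have hu1 : 1 < u := by omega
  have hm0 : 0 < m := by omega
  have h00 : ¬ Tm u m X 0 := by
    rw [tm_small hu1 hodd hm0 hco hX (Nat.zero_le _)]
    omega
  have key : ∀ n : ℕ, n ∈ S ↔ Tm u m X n := by
    intro n
    induction n using Nat.strong_induction_on with
    | _ n ih =>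
      rcases le_or_gt n (max u (2 * m)) with hn | hn
      · rw [h1 n hn, tm_small hu1 hodd hm0 hco hX hn]
      · rw [h2 n hn]
        have hn1 : u < n := (le_max_left _ _).trans_lt hn
        have hn2 : 2 * m < n := (le_max_right _ _).trans_lt hn
        have h0S : (0 : ℕ) ∉ S := by
          rw [ih 0 (by omega)]
          exact h00
        have hcongr : (∃! p : ℕ × ℕ, p.1 < p.2 ∧ p.1 ∈ S ∧ p.2 ∈ S ∧ p.1 + p.2 = n) ↔
            ∃! p, PR (Tm u m X) n p := by
          apply existsUnique_congr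
          intro p
          constructor
          · rintro ⟨hlt, hp1, hp2, hs⟩
            have g1 : p.1 ≠ 0 := fun h => h0S (h ▸ hp1)
            exact ⟨hlt, (ih p.1 (by omega)).1 hp1, (ih p.2 (by omega)).1 hp2, hs⟩
          · rintro ⟨hlt, hp1, hp2, hs⟩
            have g1 : p.1 ≠ 0 := fun h => h00 (h ▸ hp1)
            exact ⟨hlt, (ih p.1 (by omega)).2 hp1, (ih p.2 (by omega)).2 hp2, hs⟩
        rw [hcongr]
        rcases Nat.even_or_odd n with he | ho
        · exact even_case hu hodd hm hco hX hG (Nat.even_iff.1 he) hn2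
        · have ho' : n % 2 = 1 := Nat.odd_iff.1 ho
          obtain ⟨z, hz⟩ : ∃ z : ℕ, n = u + 2 * z := ⟨(n - u) / 2, by omega⟩
          rw [hz, odd_case hu1 hodd hco hX z (by omega)]
          constructor
          · intro h
            exact Or.inl ⟨z, rfl, h⟩
          · rintro (⟨z', hz', hX'⟩ | ⟨w, _, hw⟩)
            · have : z = z' := by omega
              rw [this]
              exact hX'
            · exfalso
              omega
  ext n
  rw [Set.mem_ofPred_eq, Set.mem_ofPred_eq, key n]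
  constructor
  · rintro ⟨⟨z, hz, _⟩ | ⟨w, hw, hnw⟩, he⟩
    · exfalso
      rw [Nat.even_iff] at he
      omega
    · rcases hw with ⟨j, hj, h3⟩ | h3
      · exact Or.inl ⟨j, hj, by rw [hnw, h3]; ring⟩
      · exact Or.inr (by rw [hnw, h3]; ring)
  · rintro (⟨j, hj, h3⟩ | h3)
    · refine ⟨Or.inr ⟨m + j * u, Or.inl ⟨j, hj, rfl⟩, by rw [h3]; ring⟩, ?_⟩
      rw [h3]
      exact ⟨m + j * u, by ring⟩
    · refine ⟨Or.inr ⟨(2 * m + 2) * u, Or.inr rfl, by rw [h3]; ring⟩, ?_⟩
      rw [h3]
      exact ⟨(2 * m + 2) * u, by ring⟩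

end Pool.Agent.H65.CE
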